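import Pool.Agent.Helper17_Anderson.Kappa

/-!
# Cutting off quasimodes
-/

set_option autoImplicit false

open MeasureTheory Set Real Function Matrix

open scoped ENNReal ComplexConjugate ComplexOrder

noncomputable section

namespace Pool.Agent.Anderson

local instance haarMS7 : MeasureSpace UnitAddCircle := ⟨AddCircle.haarAddCircle⟩

local instance haarAHCutoff : Measure.IsAddHaarMeasure (volume : Measure UnitAddCircle) :=
  inferInstanceAs (Measure.IsAddHaarMeasure AddCircle.haarAddCircle)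

local instance haarPMCutoff : IsProbabilityMeasure (volume : Measure UnitAddCircle) :=
  inferInstanceAs (IsProbabilityMeasure AddCircle.haarAddCircle)

variable {d : ℕ}

/-- box of radius `n` about `x` -/
def box (x : Site d) (n : ℕ) : Finset (Site d) :=
  Finset.Icc (fun i => x i - n) (fun i => x i + n)

theorem mem_box {x : Site d} {n : ℕ} {y : Site d} : y ∈ box x n ↔ ∀ i, |y i - x i| ≤ n := by
  unfold box
  rw [Finset.mem_Icc]
  constructor
  · rintro ⟨h1, h2⟩ i
    have := h1 i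
    have := h2 i
    rw [abs_le]
    constructor <;> simp only at * <;> linarith
  · intro h
    constructor
    · intro i
      have := abs_le.1 (h i)
      simp only; linarith
    · intro i
      have := abs_le.1 (h i)
      simp only; linarith

theorem card_box (x : Site d) (n : ℕ) : (box x n).card = (2 * n + 1) ^ d := by
  unfold box
  rw [Pi.card_Icc]
  simp only [Int.card_Icc]
  have : ∀ i : Fin d, (x i + n + 1 - (x i - n)).toNat = 2 * n + 1 := by
    intro i
    omega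
  simp [this]

theorem norm_single_le (i : Fin d) (c : ℤ) (hc : ‖c‖ ≤ 1) : ‖(Pi.single i c : Site d)‖ ≤ 1 := by
  rw [pi_norm_le_iff_of_nonneg zero_le_one]
  intro j
  by_cases h : j = i
  · subst h; simpa using hc
  · rw [Pi.single_eq_of_ne h]; simp

/-- cutoff function -/
def cut (η : ℝ) (x y : Site d) : ℝ := max 0 (1 - η * ‖y - x‖)

theorem cut_nonneg (η : ℝ) (x y : Site d) : 0 ≤ cut η x y := le_max_left _ _

theorem cut_le_one {η : ℝ} (hη : 0 < η) (x y : Site d) : cut η x y ≤ 1 := by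
  unfold cut
  apply max_le zero_le_one
  have : 0 ≤ η * ‖y - x‖ := by positivity
  linarith

theorem cut_self (η : ℝ) (x : Site d) : cut η x x = 1 := by
  unfold cut
  simp

theorem cut_lip {η : ℝ} (hη : 0 < η) (x y e : Site d) (he : ‖e‖ ≤ 1) :
    |cut η x (y + e) - cut η x y| ≤ η := by
  unfold cut
  have h1 : |max 0 (1 - η * ‖y + e - x‖) - max 0 (1 - η * ‖y - x‖)| ≤
      |(1 - η * ‖y + e - x‖) - (1 - η * ‖y - x‖)| := by
    rw [max_comm, max_comm (0:ℝ)]
    exact abs_max_sub_max_le_abs _ _ _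
  refine h1.trans ?_
  rw [show (1 - η * ‖y + e - x‖) - (1 - η * ‖y - x‖) = -(η * (‖y + e - x‖ - ‖y - x‖)) by ring,
    abs_neg, abs_mul, abs_of_pos hη]
  have h2 : |‖y + e - x‖ - ‖y - x‖| ≤ ‖e‖ := by
    refine (abs_norm_sub_norm_le _ _).trans (le_of_eq ?_)
    congr 1
    abel
  nlinarith

theorem cut_support {η : ℝ} (hη : 0 < η) {n : ℕ} (hn : 1 / η < n + 1) {x y : Site d}
    (hy : y ∉ box x n) : cut η x y = 0 := by
  rw [mem_box] at hy
  push Not at hy
  obtain ⟨i, hi⟩ := hy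
  have h1 : (n : ℤ) + 1 ≤ |y i - x i| := by omega
  have h2 : ‖(y - x) i‖ ≤ ‖y - x‖ := norm_le_pi_norm _ i
  have h3 : ((n : ℝ) + 1) ≤ ‖(y - x) i‖ := by
    rw [Int.norm_eq_abs, Pi.sub_apply]
    have : (((n : ℤ) + 1 : ℤ) : ℝ) ≤ ((|y i - x i| : ℤ) : ℝ) := by exact_mod_cast h1
    push_cast at this ⊢
    exact this
  unfold cut
  apply max_eq_left
  rw [div_lt_iff₀ hη] at hn
  nlinarith

theorem cut_res_bound {V D : Site d → ℝ} {v r : L2 d} {lam E η : ℝ} (hη : 0 < η)
    {n : ℕ} (hn : 1 / η < n + 1) (x : Site d) (hD : ∀ y ∈ box x n, D y = V y)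
    (hv : ‖v‖ ≤ 1) (hr : ‖r‖ ≤ η) (hE : |lam - E| ≤ η)
    (heq : ∀ y, lap v y + (V y : ℂ) * v y - (lam : ℂ) * v y = r y) (S : Finset (Site d)) :
    ∑ y ∈ S, ‖res D (E + η * Complex.I) (fun y => (cut η x y : ℂ) * v y) y‖ ^ 2 ≤
      (9 + 12 * d ^ 2) * η ^ 2 := by
  set w : Site d → ℂ := fun y => (cut η x y : ℂ) * v y with hw
  set a : Site d → ℂ := fun y => r y with ha
  -- nearest neighbour sums
  set nb : Site d → ℝ := fun y => ∑ i : Fin d,
    (‖v (y + Pi.single i 1)‖ ^ 2 + ‖v (y - Pi.single i 1)‖ ^ 2) with hnb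
  have hz : ‖(lam : ℂ) - (E + η * Complex.I)‖ ^ 2 ≤ 2 * η ^ 2 := by
    have h1 : (lam : ℂ) - (E + η * Complex.I) = ((lam - E : ℝ) : ℂ) + ((-η : ℝ) : ℂ) * Complex.I := by
      push_cast; ring
    rw [h1, Complex.norm_add_mul_I, Real.sq_sqrt (by positivity)]
    have := abs_le.1 hE
    nlinarith
  have hpt : ∀ y, ‖res D (E + η * Complex.I) w y‖ ^ 2 ≤
      3 * ‖r y‖ ^ 2 + 3 * (2 * η ^ 2) * ‖v y‖ ^ 2 + 3 * (2 * d) * η ^ 2 * nb y := by
    intro y
    have hDw : (D y : ℂ) * w y = (V y : ℂ) * w y := by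
      by_cases hy : y ∈ box x n
      · rw [hD y hy]
      · simp only [hw, cut_support hη hn hy, Complex.ofReal_zero, zero_mul, mul_zero]
    set comm : ℂ := ∑ i : Fin d,
      (((cut η x (y + Pi.single i 1) - cut η x y : ℝ) : ℂ) * v (y + Pi.single i 1) +
       ((cut η x (y - Pi.single i 1) - cut η x y : ℝ) : ℂ) * v (y - Pi.single i 1)) with hcomm
    have e1 : lap w y = (cut η x y : ℂ) * lap v y + comm := by
      unfold lap
      rw [hcomm, Finset.mul_sum, ← Finset.sum_add_distrib]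
      apply Finset.sum_congr rfl
      intro i _
      simp only [hw]
      push_cast
      ring
    have e2 : res D (E + η * Complex.I) w y = (cut η x y : ℂ) * r y +
        (cut η x y : ℂ) * (((lam : ℂ) - (E + η * Complex.I)) * v y) + comm := by
      unfold res
      rw [hDw, e1, ← heq y]
      simp only [hw]
      ring
    have hc1 : ‖(cut η x y : ℂ)‖ ≤ 1 := by
      rw [Complex.norm_real, Real.norm_eq_abs, abs_of_nonneg (cut_nonneg _ _ _)]
      exact cut_le_one hη _ _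
    have b1 : ‖(cut η x y : ℂ) * r y‖ ≤ ‖r y‖ := by
      rw [norm_mul]
      exact mul_le_of_le_one_left (norm_nonneg _) hc1
    have b2 : ‖(cut η x y : ℂ) * (((lam : ℂ) - (E + η * Complex.I)) * v y)‖ ≤
        ‖(lam : ℂ) - (E + η * Complex.I)‖ * ‖v y‖ := by
      rw [norm_mul, norm_mul]
      exact mul_le_of_le_one_left (by positivity) hc1
    have b3 : ‖comm‖ ≤ ∑ i : Fin d, (η * ‖v (y + Pi.single i 1)‖ + η * ‖v (y - Pi.single i 1)‖) := by
      refine (norm_sum_le _ _).trans (Finset.sum_le_sum fun i _ => ?_)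
      refine (norm_add_le _ _).trans (add_le_add ?_ ?_)
      · rw [norm_mul, Complex.norm_real, Real.norm_eq_abs]
        exact mul_le_mul_of_nonneg_right (cut_lip hη x y _ (norm_single_le i 1 (by simp)))
          (norm_nonneg _)
      · rw [norm_mul, Complex.norm_real, Real.norm_eq_abs]
        apply mul_le_mul_of_nonneg_right _ (norm_nonneg _)
        rw [sub_eq_add_neg y]
        apply cut_lip hη x y
        rw [norm_neg]
        exact norm_single_le i 1 (by simp)
    have b4 : (∑ i : Fin d, (η * ‖v (y + Pi.single i 1)‖ + η * ‖v (y - Pi.single i 1)‖)) ^ 2 ≤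
        (2 * d) * η ^ 2 * nb y := by
      have h1 : ∑ i : Fin d, (η * ‖v (y + Pi.single i 1)‖ + η * ‖v (y - Pi.single i 1)‖) =
          η * ∑ i : Fin d, (‖v (y + Pi.single i 1)‖ + ‖v (y - Pi.single i 1)‖) := by
        rw [Finset.mul_sum]
        apply Finset.sum_congr rfl
        intro i _
        ring
      rw [h1, mul_pow]
      have h2 : (∑ i : Fin d, (‖v (y + Pi.single i 1)‖ + ‖v (y - Pi.single i 1)‖)) ^ 2 ≤
          (Finset.univ : Finset (Fin d)).card *
            ∑ i : Fin d, (‖v (y + Pi.single i 1)‖ + ‖v (y - Pi.single i 1)‖) ^ 2 :=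
        sq_sum_le_card_mul_sum_sq
      rw [Finset.card_univ, Fintype.card_fin] at h2
      have h3 : ∑ i : Fin d, (‖v (y + Pi.single i 1)‖ + ‖v (y - Pi.single i 1)‖) ^ 2 ≤
          2 * nb y := by
        rw [hnb, Finset.mul_sum]
        apply Finset.sum_le_sum
        intro i _
        nlinarith [sq_nonneg (‖v (y + Pi.single i 1)‖ - ‖v (y - Pi.single i 1)‖)]
      have h4 : (d : ℝ) * ∑ i : Fin d, (‖v (y + Pi.single i 1)‖ + ‖v (y - Pi.single i 1)‖) ^ 2 ≤
          d * (2 * nb y) := mul_le_mul_of_nonneg_left h3 (by positivity)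
      have h5 : η ^ 2 * (∑ i : Fin d, (‖v (y + Pi.single i 1)‖ + ‖v (y - Pi.single i 1)‖)) ^ 2 ≤
          η ^ 2 * (d * (2 * nb y)) := mul_le_mul_of_nonneg_left (h2.trans h4) (by positivity)
      linarith
    have h6 : ‖res D (E + η * Complex.I) w y‖ ≤ ‖r y‖ +
        ‖(lam : ℂ) - (E + η * Complex.I)‖ * ‖v y‖ +
        ∑ i : Fin d, (η * ‖v (y + Pi.single i 1)‖ + η * ‖v (y - Pi.single i 1)‖) := by
      rw [e2]
      exact (norm_add₃_le).trans (add_le_add (add_le_add b1 b2) b3)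
    set A := ‖r y‖
    set B := ‖(lam : ℂ) - (E + η * Complex.I)‖ * ‖v y‖ with hB
    set F := ∑ i : Fin d, (η * ‖v (y + Pi.single i 1)‖ + η * ‖v (y - Pi.single i 1)‖)
    have h7 : ‖res D (E + η * Complex.I) w y‖ ^ 2 ≤ (A + B + F) ^ 2 :=
      pow_le_pow_left₀ (norm_nonneg _) h6 2
    have h8 : (A + B + F) ^ 2 ≤ 3 * A ^ 2 + 3 * B ^ 2 + 3 * F ^ 2 := by
      nlinarith [sq_nonneg (A - B), sq_nonneg (B - F), sq_nonneg (A - F)]
    have h9 : B ^ 2 ≤ 2 * η ^ 2 * ‖v y‖ ^ 2 := by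
      rw [hB, mul_pow]
      exact mul_le_mul_of_nonneg_right hz (by positivity)
    linarith
  have hsv : ∀ (f : L2 d) (T : Finset (Site d)), ∑ y ∈ T, ‖f y‖ ^ 2 ≤ ‖f‖ ^ 2 := by
    intro f T
    rw [L2.norm_sq]
    exact (L2.summable_sq f).sum_le_tsum T (fun y _ => by positivity)
  have hv2 : ‖v‖ ^ 2 ≤ 1 := by
    have := norm_nonneg v
    nlinarith
  have hr2 : ‖r‖ ^ 2 ≤ η ^ 2 := pow_le_pow_left₀ (norm_nonneg _) hr 2
  have hnbs : ∑ y ∈ S, nb y ≤ 2 * d := by
    rw [hnb]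
    simp only
    rw [Finset.sum_comm]
    have h1 : ∀ i : Fin d, ∑ y ∈ S, (‖v (y + Pi.single i 1)‖ ^ 2 + ‖v (y - Pi.single i 1)‖ ^ 2) ≤
        2 := by
      intro i
      rw [Finset.sum_add_distrib]
      have h2 := hsv (shift (Pi.single i 1) v) S
      have h3 := hsv (shift (-Pi.single i 1) v) S
      rw [LinearIsometry.norm_map] at h2 h3
      simp only [shift_apply, ← sub_eq_add_neg] at h2 h3
      linarith
    refine (Finset.sum_le_sum fun i _ => h1 i).trans (le_of_eq ?_)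
    rw [Finset.sum_const, Finset.card_univ, Fintype.card_fin, nsmul_eq_mul]
    ring
  have hvS := (hsv v S).trans hv2
  have hrS := (hsv r S).trans hr2
  calc ∑ y ∈ S, ‖res D (E + η * Complex.I) w y‖ ^ 2
      ≤ ∑ y ∈ S, (3 * ‖r y‖ ^ 2 + 3 * (2 * η ^ 2) * ‖v y‖ ^ 2 + 3 * (2 * d) * η ^ 2 * nb y) :=
        Finset.sum_le_sum fun y _ => hpt y
    _ = 3 * ∑ y ∈ S, ‖r y‖ ^ 2 + 3 * (2 * η ^ 2) * ∑ y ∈ S, ‖v y‖ ^ 2 +
        3 * (2 * d) * η ^ 2 * ∑ y ∈ S, nb y := by
        rw [Finset.sum_add_distrib, Finset.sum_add_distrib, Finset.mul_sum, Finset.mul_sum,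
          Finset.mul_sum]
    _ ≤ 3 * η ^ 2 + 3 * (2 * η ^ 2) * 1 + 3 * (2 * d) * η ^ 2 * (2 * d) := by
        gcongr
    _ = _ := by ring

/-- The weighted energy of a cut off quasimode, given an operator bound. -/
theorem quasi_N2 {V D : Site d → ℝ} {v r : L2 d} {lam E η : ℝ} (hη : 0 < η)
    {n : ℕ} (hn : 1 / η < n + 1) (x : Site d)
    (hD : ∀ y ∈ box x n, D y = V y)
    (hv : ‖v‖ ≤ 1) (hr : ‖r‖ ≤ η) (hE : |lam - E| ≤ η)
    (heq : ∀ y, lap v y + (V y : ℂ) * v y - (lam : ℂ) * v y = r y)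
    {C : Matrix (box x n) (box x n) ℂ} (hC : C.IsHermitian)
    (hCK : C * C = Kmat (box x n) E η)
    (hX : ∀ a : box x n → ℂ, nsq (XM C (fun y => D y) *ᵥ a) ≤ 1 / 4 * nsq a) :
    ∫ θ, md E η θ * ‖hatV (fun y : box x n => (cut η x y : ℂ) * v y) θ‖ ^ 2 ≤
      4 * (9 + 12 * d ^ 2) * η := by
  have hw : ∀ y ∉ box x n, (fun y => (cut η x y : ℂ) * v y) y = 0 := by
    intro y hy
    simp only [cut_support hη hn hy, Complex.ofReal_zero, zero_mul]
  have hΛ : box x n ⊆ box x (n + 1) := by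
    intro y hy
    rw [mem_box] at hy ⊢
    intro i
    have := hy i
    push_cast
    omega
  have hnei : ∀ y ∈ box x n, ∀ i, y - Pi.single i 1 ∈ box x (n + 1) ∧
      y + Pi.single i 1 ∈ box x (n + 1) := by
    intro y hy i
    rw [mem_box] at hy
    have hs : ∀ j, |(Pi.single i 1 : Site d) j| ≤ 1 := by
      intro j
      by_cases h : j = i
      · subst h; simp
      · rw [Pi.single_eq_of_ne h]; simp
    constructor
    · rw [mem_box]
      intro j
      have h1 := abs_le.1 (hy j)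
      have h2 := abs_le.1 (hs j)
      rw [abs_le, Pi.sub_apply]
      push_cast
      constructor <;> linarith
    · rw [mem_box]
      intro j
      have h1 := abs_le.1 (hy j)
      have h2 := abs_le.1 (hs j)
      rw [abs_le, Pi.add_apply]
      push_cast
      constructor <;> linarith
  have h1 := det_N2 hw hΛ hnei hη hC hCK hX
  have h2 := cut_res_bound hη hn x hD hv hr hE heq (box x (n + 1))
  refine h1.trans ?_
  have h5 : 4 * η⁻¹ * ∑ y ∈ box x (n + 1),
      ‖res D (E + η * Complex.I) (fun y => (cut η x y : ℂ) * v y) y‖ ^ 2 ≤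
      4 * η⁻¹ * ((9 + 12 * d ^ 2) * η ^ 2) := mul_le_mul_of_nonneg_left h2 (by positivity)
  have h6 : 4 * η⁻¹ * ((9 + 12 * (d:ℝ) ^ 2) * η ^ 2) = 4 * (9 + 12 * d ^ 2) * η := by
    field_simp
  rw [h6] at h5
  exact h5

/-- Bound for a quasimode at `x`, given an operator bound. -/
theorem quasi_bound (hd : 3 ≤ d) {v : L2 d} {E η : ℝ} (hη : 0 < η)
    (hη1 : η ≤ 1) {n : ℕ} (hn : 1 / η < n + 1) (x : Site d)
    (hN : ∫ θ, md E η θ * ‖hatV (fun y : box x n => (cut η x y : ℂ) * v y) θ‖ ^ 2 ≤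
      4 * (9 + 12 * d ^ 2) * η) :
    ‖v x‖ ^ 2 ≤ (4 * (9 + 12 * d ^ 2) * (1 + 1024 * π)) * (η * (1 + Real.log (1 / η))) := by
  have hw : ∀ y ∉ box x n, (fun y => (cut η x y : ℂ) * v y) y = 0 := by
    intro y hy
    simp only [cut_support hη hn hy, Complex.ofReal_zero, zero_mul]
  have h1 := sup_of_N2 (E := E) hw hη x
  simp only [cut_self, Complex.ofReal_one, one_mul] at h1
  have h3 := kap_le hd E hη hη1
  have h4 := kap_pos (d := d) E hη
  have hl0 : 0 ≤ Real.log (1 / η) := Real.log_nonneg (by rw [le_div_iff₀ hη]; linarith)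
  have hpi := Real.pi_pos
  refine h1.trans ?_
  calc kap d E η * ∫ θ, md E η θ * ‖hatV (fun y : box x n => (cut η x y : ℂ) * v y) θ‖ ^ 2
      ≤ kap d E η * (4 * (9 + 12 * d ^ 2) * η) := mul_le_mul_of_nonneg_left hN h4.le
    _ ≤ ((1 + 1024 * π) * (1 + Real.log (1 / η))) * (4 * (9 + 12 * d ^ 2) * η) :=
        mul_le_mul_of_nonneg_right h3 (by positivity)
    _ = _ := by ring

end Pool.Agent.Anderson
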