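import Pool.Agent.Helper17_Anderson.Slice
import Pool.Agent.Helper17_Anderson.Cutoff

/-!
# Mass of a quasimode in a ball
-/

set_option autoImplicit false

open MeasureTheory Set Real Function Matrix

open scoped ENNReal ComplexConjugate ComplexOrder

noncomputable section

namespace Pool.Agent.Anderson

local instance haarMS10 : MeasureSpace UnitAddCircle := ⟨AddCircle.haarAddCircle⟩

local instance haarAHBall : Measure.IsAddHaarMeasure (volume : Measure UnitAddCircle) :=
  inferInstanceAs (Measure.IsAddHaarMeasure AddCircle.haarAddCircle)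

local instance haarPMBall : IsProbabilityMeasure (volume : Measure UnitAddCircle) :=
  inferInstanceAs (IsProbabilityMeasure AddCircle.haarAddCircle)

variable {d : ℕ}

theorem ch_update (y : Site d) (θ : UnitAddTorus (Fin d)) (i : Fin d) (t : UnitAddCircle) :
    ch y (update θ i t) = fourier (y i) t * ∏ j ∈ Finset.univ.erase i, fourier (y j) (θ j) := by
  unfold ch
  simp only [UnitAddTorus.mFourier, ContinuousMap.coe_mk]
  rw [← Finset.mul_prod_erase Finset.univ _ (Finset.mem_univ i), update_self]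
  congr 1
  apply Finset.prod_congr rfl
  intro j hj
  rw [update_of_ne (Finset.ne_of_mem_erase hj)]

theorem hatS_update {x : Site d} {ρ : ℕ} {B : Finset (Site d)} (hB : B ⊆ box x ρ)
    (w : Site d → ℂ) (θ : UnitAddTorus (Fin d)) (i : Fin d) (t : UnitAddCircle) :
    hatS B w (update θ i t) = ∑ k ∈ Finset.Icc (x i - ρ) (x i + ρ),
      (∑ y ∈ B.filter (fun y => y i = k), w y * ∏ j ∈ Finset.univ.erase i, fourier (y j) (θ j)) *
        fourier k t := by
  unfold hatS
  have hmaps : ∀ y ∈ B, y i ∈ Finset.Icc (x i - (ρ : ℤ)) (x i + ρ) := by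
    intro y hy
    have h1 := abs_le.1 (mem_box.1 (hB hy) i)
    rw [Finset.mem_Icc]
    constructor <;> linarith
  rw [← Finset.sum_fiberwise_of_maps_to hmaps]
  apply Finset.sum_congr rfl
  intro k _
  rw [Finset.sum_mul]
  apply Finset.sum_congr rfl
  intro y hy
  have hyk : y i = k := (Finset.mem_filter.1 hy).2
  rw [ch_update, hyk]
  ring

theorem slice_sup {x : Site d} {ρ : ℕ} {B : Finset (Site d)} (hB : B ⊆ box x ρ)
    (w : Site d → ℂ) (θ : UnitAddTorus (Fin d)) (i : Fin d) (t : UnitAddCircle) :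
    ‖hatS B w (update θ i t)‖ ^ 2 ≤
      (2 * ρ + 1) * ∫ s : UnitAddCircle, ‖hatS B w (update θ i s)‖ ^ 2 := by
  simp only [hatS_update hB]
  have h := sup_trig1 (Finset.Icc (x i - (ρ : ℤ)) (x i + ρ)) (fun k =>
    ∑ y ∈ B.filter (fun y => y i = k), w y * ∏ j ∈ Finset.univ.erase i, fourier (y j) (θ j)) t
  refine h.trans (le_of_eq ?_)
  congr 1
  rw [Int.card_Icc]
  have : (x i + ρ + 1 - (x i - ρ)).toNat = 2 * ρ + 1 := by omega
  rw [this]
  push_cast
  rfl

theorem sy_update (θ : UnitAddTorus (Fin d)) (i : Fin d) (t : UnitAddCircle) :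
    sy (update θ i t) = c2 t + ∑ j ∈ Finset.univ.erase i, c2 (θ j) := by
  unfold sy
  rw [← Finset.add_sum_erase Finset.univ _ (Finset.mem_univ i), update_self]
  congr 1
  apply Finset.sum_congr rfl
  intro j hj
  rw [update_of_ne (Finset.ne_of_mem_erase hj)]

theorem dir_bound {x : Site d} {ρ : ℕ} {B : Finset (Site d)} (hB : B ⊆ box x ρ)
    (w : Site d → ℂ) (E : ℝ) {η : ℝ} (hη : 0 < η) (hη1 : η ≤ 1) (i : Fin d) :
    ∫ θ, sn (θ i) ^ 2 * (md E η θ)⁻¹ * ‖hatS B w θ‖ ^ 2 ≤
      ((2 * ρ + 1) * ((1 + 4 * π) * (1 + Real.log (1 / η)))) * ∫ θ, ‖hatS B w θ‖ ^ 2 := by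
  have hl0 : 0 ≤ Real.log (1 / η) := Real.log_nonneg (by rw [le_div_iff₀ hη]; linarith)
  have hpi := Real.pi_pos
  set K : ℝ := (1 + 4 * π) * (1 + Real.log (1 / η)) with hK
  have hK0 : 0 ≤ K := by positivity
  have cs : Continuous fun θ : UnitAddTorus (Fin d) => sn (θ i) :=
    continuous_sn.comp (continuous_apply i)
  have cm := continuous_inv_md (d := d) (E := E) hη
  have ch' := continuous_hatS B w
  have hnn : ∀ θ, 0 ≤ sn (θ i) ^ 2 * (md E η θ)⁻¹ * ‖hatS B w θ‖ ^ 2 := by
    intro θ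
    have := inv_pos.2 (md_pos (E := E) hη θ)
    positivity
  set f : UnitAddTorus (Fin d) → ℝ≥0∞ := fun θ =>
    ENNReal.ofReal (sn (θ i) ^ 2 * (md E η θ)⁻¹ * ‖hatS B w θ‖ ^ 2) with hf
  set g : UnitAddTorus (Fin d) → ℝ≥0∞ := fun θ =>
    ENNReal.ofReal ((2 * ρ + 1) * K) * ENNReal.ofReal (‖hatS B w θ‖ ^ 2) with hg
  have hfm : Measurable f := by
    have : Continuous fun θ => sn (θ i) ^ 2 * (md E η θ)⁻¹ * ‖hatS B w θ‖ ^ 2 := by fun_prop
    exact ENNReal.measurable_ofReal.comp this.measurable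
  have hgm : Measurable g := by
    have : Continuous fun θ => ‖hatS B w θ‖ ^ 2 := by fun_prop
    exact (ENNReal.measurable_ofReal.comp this.measurable).const_mul _
  have hslice : ∀ θ, ∫⁻ t : UnitAddCircle, f (update θ i t) ≤
      ∫⁻ t : UnitAddCircle, g (update θ i t) := by
    intro θ
    have cup : Continuous fun t : UnitAddCircle => update θ i t :=
      continuous_const.update i continuous_id
    have ch2 : Continuous fun t : UnitAddCircle => ‖hatS B w (update θ i t)‖ ^ 2 := by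
      have := ch'.comp cup
      exact (this.norm).pow 2
    set b : ℝ := E - ∑ j ∈ Finset.univ.erase i, c2 (θ j) with hb
    have hmd : ∀ t, md E η (update θ i t) = √((c2 t - b) ^ 2 + η ^ 2) := by
      intro t
      unfold md
      rw [sy_update, hb]
      congr 2
      ring
    set J : ℝ := ∫ s : UnitAddCircle, ‖hatS B w (update θ i s)‖ ^ 2 with hJ
    have hJ0 : 0 ≤ J := integral_nonneg fun s => by positivity
    have hJl : ∫⁻ s : UnitAddCircle, ENNReal.ofReal (‖hatS B w (update θ i s)‖ ^ 2) =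
        ENNReal.ofReal J := by
      rw [hJ, ofReal_integral_eq_lintegral_ofReal (integrable_of_cont1 ch2)
        (Filter.Eventually.of_forall fun s => by positivity)]
    calc ∫⁻ t : UnitAddCircle, f (update θ i t)
        ≤ ∫⁻ t : UnitAddCircle, ENNReal.ofReal (sn t ^ 2 * (√((c2 t - b) ^ 2 + η ^ 2))⁻¹) *
            ENNReal.ofReal ((2 * ρ + 1) * J) := by
          apply lintegral_mono
          intro t
          simp only [hf, update_self, hmd]
          have h1 : 0 ≤ sn t ^ 2 * (√((c2 t - b) ^ 2 + η ^ 2))⁻¹ := by positivity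
          rw [ENNReal.ofReal_mul h1]
          gcongr
          exact slice_sup hB w θ i t
      _ = (∫⁻ t : UnitAddCircle, ENNReal.ofReal (sn t ^ 2 * (√((c2 t - b) ^ 2 + η ^ 2))⁻¹)) *
            ENNReal.ofReal ((2 * ρ + 1) * J) := by
          have h1 := continuous_sn.measurable
          have h2 := measurable_c2
          rw [lintegral_mul_const _ (by fun_prop)]
      _ ≤ ENNReal.ofReal K * ENNReal.ofReal ((2 * ρ + 1) * J) := by
          gcongr
          exact lintegral_sn_inv hη hη1 b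
      _ = ENNReal.ofReal ((2 * ρ + 1) * K) * ENNReal.ofReal J := by
          rw [← ENNReal.ofReal_mul hK0, ← ENNReal.ofReal_mul (by positivity)]
          congr 1
          ring
      _ = ∫⁻ t : UnitAddCircle, g (update θ i t) := by
          have hmm : Measurable fun t : UnitAddCircle =>
              ENNReal.ofReal (‖hatS B w (update θ i t)‖ ^ 2) :=
            ENNReal.measurable_ofReal.comp ch2.measurable
          simp only [hg]
          rw [lintegral_const_mul _ hmm, hJl]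
  set μ : ∀ _ : Fin d, Measure UnitAddCircle := fun _ => volume with hμ
  have key : ∫⋯∫⁻_({i} : Finset (Fin d)), f ∂μ ≤ ∫⋯∫⁻_({i} : Finset (Fin d)), g ∂μ := by
    rw [lmarginal_singleton, lmarginal_singleton]
    exact hslice
  have hle := lintegral_le_of_lmarginal_le (μ := μ) {i} hfm hgm key
  have hvolf : ∫⁻ θ, f θ ∂(Measure.pi μ) = ∫⁻ θ, f θ := rfl
  have hvolg : ∫⁻ θ, g θ ∂(Measure.pi μ) = ∫⁻ θ, g θ := rfl
  rw [hvolf, hvolg] at hle
  have e1 : ∫⁻ θ, f θ = ENNReal.ofReal
      (∫ θ, sn (θ i) ^ 2 * (md E η θ)⁻¹ * ‖hatS B w θ‖ ^ 2) := by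
    rw [ofReal_integral_eq_lintegral_ofReal _ (Filter.Eventually.of_forall hnn)]
    apply integrable_of_cont
    fun_prop
  have e2 : ∫⁻ θ, g θ = ENNReal.ofReal
      (((2 * ρ + 1) * K) * ∫ θ, ‖hatS B w θ‖ ^ 2) := by
    rw [ENNReal.ofReal_mul (by positivity), ofReal_integral_eq_lintegral_ofReal _
      (Filter.Eventually.of_forall fun θ => by positivity)]
    · simp only [hg]
      rw [lintegral_const_mul]
      have : Continuous fun θ => ‖hatS B w θ‖ ^ 2 := by fun_prop
      exact ENNReal.measurable_ofReal.comp this.measurable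
    · apply integrable_of_cont
      fun_prop
  rw [e1, e2] at hle
  exact (ENNReal.ofReal_le_ofReal_iff (by
    have : 0 ≤ ∫ θ, ‖hatS B w θ‖ ^ 2 := integral_nonneg fun θ => by positivity
    positivity)).1 hle

/-- `E` is at distance at least `δ` from the critical values `2d - 4k`, `0 ≤ k ≤ d`, of the
symbol. -/
def Regular (d : ℕ) (E δ : ℝ) : Prop := ∀ k : ℕ, k ≤ d → δ ≤ |E - (2 * d - 4 * k)|

theorem crit_near (θ : UnitAddTorus (Fin d)) :
    ∃ k : ℕ, k ≤ d ∧ |sy θ - (2 * d - 4 * k)| ≤ 2 * ∑ i, sn (θ i) ^ 2 := by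
  classical
  set N : Finset (Fin d) := Finset.univ.filter (fun i => c2 (θ i) < 0) with hN
  refine ⟨N.card, ?_, ?_⟩
  · have := Finset.card_le_univ N
    simpa using this
  · have e1 : (2 * (d : ℝ) - 4 * N.card) = ∑ i : Fin d, (if c2 (θ i) < 0 then (-2 : ℝ) else 2) := by
      have h1 : ∀ i : Fin d, (if c2 (θ i) < 0 then (-2 : ℝ) else 2) =
          2 - 4 * (if c2 (θ i) < 0 then (1 : ℝ) else 0) := by
        intro i
        split_ifs <;> norm_num
      simp only [h1]
      rw [Finset.sum_sub_distrib, ← Finset.mul_sum, ← Finset.sum_filter, ← hN]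
      simp
      ring
    rw [e1]
    unfold sy
    rw [← Finset.sum_sub_distrib]
    refine (Finset.abs_sum_le_sum_abs _ _).trans ?_
    rw [Finset.mul_sum]
    apply Finset.sum_le_sum
    intro i _
    have h2 := abs_le.1 (abs_c2_le' (θ i))
    rw [sn_sq]
    split_ifs with h
    · rw [abs_of_nonneg (by linarith)]
      nlinarith
    · push Not at h
      rw [abs_of_nonpos (by linarith)]
      nlinarith

theorem regular_pointwise {E δ η : ℝ} (hδ : 0 < δ) (hη : 0 < η) (hE : Regular d E δ)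
    (θ : UnitAddTorus (Fin d)) :
    (md E η θ)⁻¹ ≤ 2 / δ + 4 / δ * ∑ i, sn (θ i) ^ 2 * (md E η θ)⁻¹ := by
  have hm := md_pos (E := E) hη θ
  have hsum : 0 ≤ ∑ i, sn (θ i) ^ 2 := Finset.sum_nonneg fun i _ => sq_nonneg _
  rw [← Finset.sum_mul]
  have hmi := inv_pos.2 hm
  by_cases h : δ / 2 ≤ |sy θ - E|
  · have h1 : δ / 2 ≤ md E η θ := by
      unfold md
      apply Real.le_sqrt_of_sq_le
      have h2 : (δ / 2) ^ 2 ≤ (sy θ - E) ^ 2 := by
        rw [← sq_abs (sy θ - E)]
        exact pow_le_pow_left₀ (by positivity) h 2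
      nlinarith [sq_nonneg η]
    have h2 : (md E η θ)⁻¹ ≤ 2 / δ := by
      have := inv_anti₀ (by positivity) h1
      rw [inv_div] at this
      exact this
    have h3 : 0 ≤ 4 / δ * ((∑ i, sn (θ i) ^ 2) * (md E η θ)⁻¹) := by positivity
    linarith
  · push Not at h
    obtain ⟨k, hk, hk2⟩ := crit_near θ
    have h1 := hE k hk
    have h2 : δ / 4 ≤ ∑ i, sn (θ i) ^ 2 := by
      have h3 : |E - (2 * d - 4 * k)| ≤ |sy θ - (2 * d - 4 * k)| + |sy θ - E| := by
        rw [abs_sub_comm (sy θ) E]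
        have := abs_add_le (sy θ - (2 * d - 4 * k)) (E - sy θ)
        rw [show sy θ - (2 * d - 4 * k) + (E - sy θ) = E - (2 * d - 4 * k) by ring] at this
        exact this
      linarith
    have h4 : 1 ≤ 4 / δ * ∑ i, sn (θ i) ^ 2 := by
      rw [div_mul_eq_mul_div, le_div_iff₀ hδ]
      linarith
    have h5 : (md E η θ)⁻¹ ≤ 4 / δ * (∑ i, sn (θ i) ^ 2) * (md E η θ)⁻¹ :=
      le_mul_of_one_le_left hmi.le h4
    have h6 : 0 < 2 / δ := by positivity
    linarith

/-- form bound for the compression to a ball -/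
theorem form_ball {x : Site d} {ρ : ℕ} {B : Finset (Site d)} (hB : B ⊆ box x ρ)
    (w : Site d → ℂ) {E δ η : ℝ} (hδ : 0 < δ) (hE : Regular d E δ) (hη : 0 < η) (hη1 : η ≤ 1) :
    ∫ θ, (md E η θ)⁻¹ * ‖hatS B w θ‖ ^ 2 ≤
      (2 + 4 * d * (1 + 4 * π)) / δ * ((2 * ρ + 1) * (1 + Real.log (1 / η))) *
        ∑ y ∈ B, ‖w y‖ ^ 2 := by
  have hl0 : 0 ≤ Real.log (1 / η) := Real.log_nonneg (by rw [le_div_iff₀ hη]; linarith)
  have hpi := Real.pi_pos
  have cm := continuous_inv_md (d := d) (E := E) hη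
  have ch' := continuous_hatS B w
  have cs : ∀ i, Continuous fun θ : UnitAddTorus (Fin d) => sn (θ i) := fun i =>
    continuous_sn.comp (continuous_apply i)
  set L : ℝ := 1 + Real.log (1 / η) with hL
  set S : ℝ := ∑ y ∈ B, ‖w y‖ ^ 2 with hS
  have hS0 : 0 ≤ S := Finset.sum_nonneg fun y _ => by positivity
  have hpar : ∫ θ, ‖hatS B w θ‖ ^ 2 = S := parsevalS B w
  have h1 : ∫ θ, (md E η θ)⁻¹ * ‖hatS B w θ‖ ^ 2 ≤
      ∫ θ, (2 / δ * ‖hatS B w θ‖ ^ 2 +
        4 / δ * ∑ i, sn (θ i) ^ 2 * (md E η θ)⁻¹ * ‖hatS B w θ‖ ^ 2) := by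
    apply integral_mono
    · apply integrable_of_cont
      fun_prop
    · apply integrable_of_cont
      fun_prop
    · intro θ
      have h2 := mul_le_mul_of_nonneg_right (regular_pointwise hδ hη hE θ)
        (by positivity : 0 ≤ ‖hatS B w θ‖ ^ 2)
      refine h2.trans (le_of_eq ?_)
      have e3 : ∑ i, sn (θ i) ^ 2 * (md E η θ)⁻¹ * ‖hatS B w θ‖ ^ 2 =
          (∑ i, sn (θ i) ^ 2 * (md E η θ)⁻¹) * ‖hatS B w θ‖ ^ 2 := by rw [Finset.sum_mul]
      simp only
      rw [e3]
      ring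
  have h2 : ∫ θ, (2 / δ * ‖hatS B w θ‖ ^ 2 +
        4 / δ * ∑ i, sn (θ i) ^ 2 * (md E η θ)⁻¹ * ‖hatS B w θ‖ ^ 2) =
      2 / δ * S + 4 / δ * ∑ i, ∫ θ, sn (θ i) ^ 2 * (md E η θ)⁻¹ * ‖hatS B w θ‖ ^ 2 := by
    rw [integral_add, integral_const_mul, integral_const_mul, hpar, integral_finsetSum]
    · intro i _
      have := cs i
      apply integrable_of_cont
      fun_prop
    · apply integrable_of_cont
      fun_prop
    · apply integrable_of_cont
      fun_prop
  have h3 : ∑ i, ∫ θ, sn (θ i) ^ 2 * (md E η θ)⁻¹ * ‖hatS B w θ‖ ^ 2 ≤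
      d * (((2 * ρ + 1) * ((1 + 4 * π) * L)) * S) := by
    refine (Finset.sum_le_sum fun i _ => dir_bound hB w E hη hη1 i).trans (le_of_eq ?_)
    rw [Finset.sum_const, Finset.card_univ, Fintype.card_fin, nsmul_eq_mul, hpar]
  have h4 : 4 / δ * ∑ i, ∫ θ, sn (θ i) ^ 2 * (md E η θ)⁻¹ * ‖hatS B w θ‖ ^ 2 ≤
      4 / δ * (d * (((2 * ρ + 1) * ((1 + 4 * π) * L)) * S)) :=
    mul_le_mul_of_nonneg_left h3 (by positivity)
  have h5 : 2 / δ * S ≤ 2 / δ * (((2 * ρ + 1) * L) * S) := by
    apply mul_le_mul_of_nonneg_left _ (by positivity)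
    apply le_mul_of_one_le_left hS0
    have : 1 ≤ (2 * (ρ : ℝ) + 1) := by
      have : (0:ℝ) ≤ ρ := by positivity
      linarith
    have hL1 : 1 ≤ L := by rw [hL]; linarith
    nlinarith
  calc _ ≤ 2 / δ * S + 4 / δ * ∑ i, ∫ θ, sn (θ i) ^ 2 * (md E η θ)⁻¹ * ‖hatS B w θ‖ ^ 2 := by
        rw [← h2]; exact h1
    _ ≤ 2 / δ * (((2 * ρ + 1) * L) * S) +
        4 / δ * (d * (((2 * ρ + 1) * ((1 + 4 * π) * L)) * S)) := add_le_add h5 h4
    _ = _ := by
        field_simp

/-- duality: the weighted energy controls the mass in a ball -/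
theorem mass_of_N2 {Λ B : Finset (Site d)} {w : Site d → ℂ} (hw : ∀ y ∉ Λ, w y = 0)
    {E η T : ℝ} (hη : 0 < η) (hT : 0 < T)
    (hform : ∫ θ, (md E η θ)⁻¹ * ‖hatS B w θ‖ ^ 2 ≤ T * ∑ y ∈ B, ‖w y‖ ^ 2) :
    ∑ y ∈ B, ‖w y‖ ^ 2 ≤ T * ∫ θ, md E η θ * ‖hatV (fun y : Λ => w y) θ‖ ^ 2 := by
  set S : ℝ := ∑ y ∈ B, ‖w y‖ ^ 2 with hS
  set N2 : ℝ := ∫ θ, md E η θ * ‖hatV (fun y : Λ => w y) θ‖ ^ 2 with hN2
  have cm := continuous_md (d := d) E η
  have cim := continuous_inv_md (d := d) (E := E) hη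
  have cb := continuous_hatS B w
  have cw := continuous_hatS Λ w
  have hpair : (S : ℂ) = ∫ θ, conj (hatS B w θ) * hatS Λ w θ := by
    have h1 : ∀ θ, conj (hatS B w θ) * hatS Λ w θ =
        ∑ y ∈ B, conj (w y) * (conj (ch y θ) * hatS Λ w θ) := by
      intro θ
      conv_lhs => unfold hatS
      rw [map_sum, Finset.sum_mul]
      apply Finset.sum_congr rfl
      intro y _
      rw [map_mul, mul_assoc]
      rfl
    simp only [h1]
    rw [integral_finsetSum]
    · rw [hS]
      push_cast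
      apply Finset.sum_congr rfl
      intro y _
      rw [integral_const_mul, integral_ch_hatS hw, mul_comm, Complex.mul_conj,
        Complex.normSq_eq_norm_sq]
      push_cast
      rfl
    · intro y _
      apply integrable_of_cont
      have := continuous_ch y
      fun_prop
  have hle : S ≤ 1 / 2 * S + T / 2 * N2 := by
    have h1 : S = ‖∫ θ, conj (hatS B w θ) * hatS Λ w θ‖ := by
      rw [← hpair, Complex.norm_real, Real.norm_eq_abs,
        abs_of_nonneg (Finset.sum_nonneg fun y _ => by positivity)]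
    have h2 : ‖∫ θ, conj (hatS B w θ) * hatS Λ w θ‖ ≤
        1 / (2 * T) * (∫ θ, (md E η θ)⁻¹ * ‖hatS B w θ‖ ^ 2) + T / 2 * N2 := by
      refine (norm_integral_le_integral_norm _).trans ?_
      rw [hN2]
      simp only [← hatS_eq_hatV]
      rw [← integral_const_mul, ← integral_const_mul, ← integral_add]
      · apply integral_mono
        · apply integrable_of_cont
          fun_prop
        · apply integrable_of_cont
          fun_prop
        · intro θ
          have hmp := md_pos (E := E) hη θ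
          simp only
          rw [norm_mul, RCLike.norm_conj]
          have h3 : 1 / (2 * T) * ((md E η θ)⁻¹ * ‖hatS B w θ‖ ^ 2) +
              T / 2 * (md E η θ * ‖hatS Λ w θ‖ ^ 2) - ‖hatS B w θ‖ * ‖hatS Λ w θ‖ =
              (md E η θ)⁻¹ / (2 * T) * (‖hatS B w θ‖ - T * md E η θ * ‖hatS Λ w θ‖) ^ 2 := by
            field_simp
            ring
          have h4 : 0 ≤ (md E η θ)⁻¹ / (2 * T) *
              (‖hatS B w θ‖ - T * md E η θ * ‖hatS Λ w θ‖) ^ 2 := by
            have := inv_pos.2 hmp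
            positivity
          linarith
      · apply integrable_of_cont
        fun_prop
      · apply integrable_of_cont
        fun_prop
    have h3 : 1 / (2 * T) * (∫ θ, (md E η θ)⁻¹ * ‖hatS B w θ‖ ^ 2) ≤ 1 / (2 * T) * (T * S) :=
      mul_le_mul_of_nonneg_left hform (by positivity)
    have h4 : 1 / (2 * T) * (T * S) = 1 / 2 * S := by field_simp
    linarith
  linarith

end Pool.Agent.Anderson
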