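import Mathlib

/-!
# One-dimensional estimates on the circle

`u θ = e^{2π i θ}` on `ℝ/ℤ`; bounds for integrals of functions of `2 Re (u θ) - c`.
-/

set_option autoImplicit false

open MeasureTheory Set Real

open scoped ENNReal ComplexConjugate

noncomputable section

namespace Pool.Agent.Anderson

/-- normalised Haar measure on `ℝ/ℤ` (same as in `Mathlib.Analysis.Fourier.AddCircleMulti`) -/
local instance haarMS : MeasureSpace UnitAddCircle := ⟨AddCircle.haarAddCircle⟩

local instance haarAHCircle : Measure.IsAddHaarMeasure (volume : Measure UnitAddCircle) :=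
  inferInstanceAs (Measure.IsAddHaarMeasure AddCircle.haarAddCircle)

local instance haarPMCircle : IsProbabilityMeasure (volume : Measure UnitAddCircle) :=
  inferInstanceAs (IsProbabilityMeasure AddCircle.haarAddCircle)

/-- `u θ = e^{2π i θ}` -/
noncomputable def u (θ : UnitAddCircle) : ℂ := (AddCircle.toCircle θ : ℂ)

theorem norm_u (θ : UnitAddCircle) : ‖u θ‖ = 1 := Circle.norm_coe _

theorem u_add (θ φ : UnitAddCircle) : u (θ + φ) = u θ * u φ := by
  unfold u
  rw [AddCircle.toCircle_add, Circle.coe_mul]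

theorem continuous_u : Continuous u := by
  unfold u
  have := AddCircle.continuous_toCircle (T := (1:ℝ))
  fun_prop

theorem measurable_u : Measurable u := continuous_u.measurable

theorem u_coe (t : ℝ) : u (t : UnitAddCircle) = Complex.exp (2 * π * t * Complex.I) := by
  unfold u
  rw [AddCircle.toCircle_apply_mk, Circle.coe_exp]
  congr 1
  push_cast
  ring

theorem exists_u_eq {a : ℂ} (ha : ‖a‖ = 1) : ∃ β : UnitAddCircle, u β = a := by
  let b : Circle := ⟨a, by simpa [Submonoid.unitSphere] using ha⟩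
  refine ⟨(AddCircle.homeomorphCircle (T := (1:ℝ)) one_ne_zero).symm b, ?_⟩
  unfold u
  rw [← AddCircle.homeomorphCircle_apply (T := (1:ℝ)) one_ne_zero, Homeomorph.apply_symm_apply]

theorem lintegral_rotate (F : ℝ → ℝ≥0∞) {a : ℂ} (ha : ‖a‖ = 1) :
    ∫⁻ θ : UnitAddCircle, F ‖u θ - a‖ = ∫⁻ θ : UnitAddCircle, F ‖u θ - 1‖ := by
  obtain ⟨β, rfl⟩ := exists_u_eq ha
  rw [← lintegral_add_right_eq_self (μ := (volume : Measure UnitAddCircle))
    (fun θ => F ‖u θ - u β‖) β]
  refine lintegral_congr fun θ => ?_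
  rw [u_add, show u θ * u β - u β = (u θ - 1) * u β by ring, norm_mul, norm_u, mul_one]

theorem norm_u_sub_one (t : ℝ) : ‖u (t : UnitAddCircle) - 1‖ = 2 * |sin (π * t)| := by
  have h : u (t : UnitAddCircle) - 1 = 2 * Complex.I * Complex.sin (π * t) *
      Complex.exp (π * t * Complex.I) := by
    rw [u_coe, Complex.sin]
    have e1 : Complex.exp (2 * π * t * Complex.I) = Complex.exp (π * t * Complex.I) *
        Complex.exp (π * t * Complex.I) := by
      rw [← Complex.exp_add]; congr 1; ring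
    have e2 : Complex.exp (-(π * t) * Complex.I) * Complex.exp (π * t * Complex.I) = 1 := by
      rw [← Complex.exp_add]; simp
    have hI : Complex.I * Complex.I = -1 := Complex.I_mul_I
    calc Complex.exp (2 * π * t * Complex.I) - 1
        = Complex.exp (π * t * Complex.I) * Complex.exp (π * t * Complex.I) -
          Complex.exp (-(π * t) * Complex.I) * Complex.exp (π * t * Complex.I) := by
          rw [e1, e2]
      _ = _ := by
          linear_combination (Complex.exp (π * t * Complex.I) *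
            Complex.exp (π * t * Complex.I) - Complex.exp (-(π * t) * Complex.I) *
            Complex.exp (π * t * Complex.I)) * hI
  rw [h, norm_mul, norm_mul, norm_mul, Complex.norm_I]
  have h1 : ‖Complex.exp (π * t * Complex.I)‖ = 1 := by
    rw [show ((π : ℂ) * t * Complex.I) = ((π * t : ℝ) : ℂ) * Complex.I by push_cast; ring]
    exact Complex.norm_exp_ofReal_mul_I _
  have h2 : ‖Complex.sin (π * t)‖ = |sin (π * t)| := by
    rw [show ((π : ℂ) * t) = ((π * t : ℝ) : ℂ) by push_cast; ring, ← Complex.ofReal_sin,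
      Complex.norm_real, Real.norm_eq_abs]
  rw [h1, h2]
  simp

theorem four_abs_le {t : ℝ} (ht : |t| ≤ 1 / 2) : 4 * |t| ≤ ‖u (t : UnitAddCircle) - 1‖ := by
  rw [norm_u_sub_one]
  have hpi := Real.pi_pos
  have h1 : |sin (π * t)| = sin (π * |t|) := by
    rcases le_total 0 t with h | h
    · rw [abs_of_nonneg h, abs_of_nonneg]
      apply sin_nonneg_of_nonneg_of_le_pi (by positivity)
      rw [abs_of_nonneg h] at ht
      nlinarith
    · rw [abs_of_nonpos h, show π * -t = -(π * t) by ring, sin_neg, abs_of_nonpos]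
      have : 0 ≤ sin (π * (-t)) := by
        apply sin_nonneg_of_nonneg_of_le_pi
        · apply mul_nonneg hpi.le; linarith
        · rw [abs_of_nonpos h] at ht
          nlinarith
      rw [show π * -t = -(π * t) by ring, sin_neg] at this
      linarith
  rw [h1]
  have h2 : 2 / π * (π * |t|) ≤ sin (π * |t|) := by
    apply Real.mul_le_sin
    · positivity
    · nlinarith
  have h3 : 2 / π * (π * |t|) = 2 * |t| := by field_simp
  linarith

theorem lintegral_circle_eq (f : UnitAddCircle → ℝ≥0∞) (a : ℝ) :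
    ∫⁻ θ : UnitAddCircle, f θ = ∫⁻ t in Ioc a (a + 1), f (t : UnitAddCircle) := by
  have h1 := AddCircle.lintegral_preimage (1:ℝ) a f
  rw [h1, AddCircle.volume_eq_smul_haarAddCircle]
  simp only [ENNReal.ofReal_one, one_smul]
  rfl

theorem lintegral_le_line {F : ℝ → ℝ≥0∞} (hF : ∀ x y : ℝ, 0 ≤ x → x ≤ y → F y ≤ F x)
    {a : ℂ} (ha : ‖a‖ = 1) :
    ∫⁻ θ : UnitAddCircle, F ‖u θ - a‖ ≤ ∫⁻ t in Ioc (-(1/2) : ℝ) (1/2), F (4 * |t|) := by
  rw [lintegral_rotate F ha, lintegral_circle_eq _ (-(1/2))]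
  rw [show (-(1/2) + 1 : ℝ) = 1/2 by norm_num]
  apply setLIntegral_mono' measurableSet_Ioc
  intro t ht
  apply hF _ _ (by positivity)
  apply four_abs_le
  rw [abs_le]
  exact ⟨by linarith [ht.1], ht.2⟩

/-- Poisson-type kernel -/
noncomputable def ker (η x : ℝ) : ℝ := η / (x ^ 2 + η ^ 2)

theorem ker_nonneg {η : ℝ} (hη : 0 < η) (x : ℝ) : 0 ≤ ker η x := by
  unfold ker; positivity

theorem ker_anti {η x y : ℝ} (hη : 0 < η) (hx : 0 ≤ x) (hxy : x ≤ y) : ker η y ≤ ker η x := by
  unfold ker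
  apply div_le_div_of_nonneg_left hη.le (by positivity)
  have := mul_self_le_mul_self hx hxy
  nlinarith

theorem ker_abs (η x : ℝ) : ker η |x| = ker η x := by
  unfold ker; rw [sq_abs]

theorem integral_ker {η κ : ℝ} (hη : 0 < η) (hκ : 0 < κ) :
    Integrable (fun t : ℝ => ker η (κ * t)) ∧ ∫ t : ℝ, ker η (κ * t) = π / κ := by
  have hfun : (fun t : ℝ => ker η (κ * t)) = fun t : ℝ => η⁻¹ * (1 + ((κ / η) * t) ^ 2)⁻¹ := by
    funext t
    unfold ker
    field_simp
    ring
  have hne : κ / η ≠ 0 := by positivity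
  rw [hfun]
  constructor
  · apply Integrable.const_mul
    exact (integrable_inv_one_add_sq).comp_mul_left' hne
  · rw [integral_const_mul]
    have := Measure.integral_comp_mul_left (fun x : ℝ => (1 + x ^ 2)⁻¹) (κ / η)
    rw [this, integral_univ_inv_one_add_sq, abs_of_pos (by positivity)]
    simp only [smul_eq_mul]
    field_simp

theorem lintegral_ker_circle {η κ : ℝ} (hη : 0 < η) (hκ : 0 < κ) {a : ℂ} (ha : ‖a‖ = 1) :
    ∫⁻ θ : UnitAddCircle, ENNReal.ofReal (ker η (κ * ‖u θ - a‖)) ≤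
      ENNReal.ofReal (π / (4 * κ)) := by
  have h1 := lintegral_le_line (F := fun r => ENNReal.ofReal (ker η (κ * r)))
    (fun x y hx hxy => ENNReal.ofReal_le_ofReal
      (ker_anti hη (by positivity) (by gcongr))) ha
  refine h1.trans ?_
  obtain ⟨hi, he⟩ := integral_ker hη (κ := 4 * κ) (by positivity)
  calc ∫⁻ t in Ioc (-(1/2) : ℝ) (1/2), ENNReal.ofReal (ker η (κ * (4 * |t|)))
      ≤ ∫⁻ t : ℝ, ENNReal.ofReal (ker η (κ * (4 * |t|))) := setLIntegral_le_lintegral _ _
    _ = ∫⁻ t : ℝ, ENNReal.ofReal (ker η (4 * κ * t)) := by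
        refine lintegral_congr fun t => ?_
        rw [show κ * (4 * |t|) = |4 * κ * t| by
          rw [abs_mul, abs_of_pos (by positivity : 0 < 4 * κ)]; ring, ker_abs]
    _ = ENNReal.ofReal (π / (4 * κ)) := by
        rw [← ofReal_integral_eq_lintegral_ofReal hi
          (Filter.Eventually.of_forall fun t => ker_nonneg hη _), he]

theorem lintegral_rpow_circle {a : ℂ} (ha : ‖a‖ = 1) :
    ∫⁻ θ : UnitAddCircle, (ENNReal.ofReal ‖u θ - a‖) ^ (-(1/2) : ℝ) ≤ 2 := by
  have h1 := lintegral_le_line (F := fun r => (ENNReal.ofReal r) ^ (-(1/2) : ℝ))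
    (fun x y hx hxy => by
      rw [ENNReal.rpow_neg, ENNReal.rpow_neg]
      apply ENNReal.inv_le_inv.2
      exact ENNReal.rpow_le_rpow (ENNReal.ofReal_le_ofReal hxy) (by norm_num)) ha
  refine h1.trans ?_
  -- split in two halves
  have hsplit : Ioc (-(1/2) : ℝ) (1/2) ⊆ Icc (-(1/2)) 0 ∪ Icc 0 (1/2) := by
    intro x hx
    rcases le_total x 0 with h | h
    · exact Or.inl ⟨hx.1.le, h⟩
    · exact Or.inr ⟨h, hx.2⟩
  have hhalf : ∫⁻ t in Icc (0:ℝ) (1/2), (ENNReal.ofReal (4 * |t|)) ^ (-(1/2) : ℝ) ≤ 1 := by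
    rw [← setLIntegral_congr (Ioc_ae_eq_Icc (μ := volume) (a := (0:ℝ)) (b := 1/2))]
    have hint : IntervalIntegrable (fun t : ℝ => t ^ (-(1/2) : ℝ)) volume 0 (1/2) :=
      intervalIntegral.intervalIntegrable_rpow' (by norm_num)
    have hval : ∫ t in (0:ℝ)..(1/2), t ^ (-(1/2) : ℝ) = 2 * (1/2 : ℝ) ^ (1/2 : ℝ) := by
      rw [integral_rpow (Or.inl (by norm_num))]
      rw [show (-(1/2) + 1 : ℝ) = 1/2 by norm_num, Real.zero_rpow (by norm_num)]
      ring
    calc ∫⁻ t in Ioc (0:ℝ) (1/2), (ENNReal.ofReal (4 * |t|)) ^ (-(1/2) : ℝ)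
        = ∫⁻ t in Ioc (0:ℝ) (1/2), ENNReal.ofReal ((1/2) * t ^ (-(1/2) : ℝ)) := by
          apply setLIntegral_congr_fun measurableSet_Ioc
          intro t ht
          have ht0 : 0 < t := ht.1
          simp only
          rw [abs_of_pos ht0, ENNReal.ofReal_rpow_of_pos (by positivity),
            Real.mul_rpow (by norm_num) ht0.le]
          congr 2
          rw [show (4:ℝ) = 2 ^ (2:ℝ) by norm_num, ← Real.rpow_mul (by norm_num)]
          norm_num
      _ = ENNReal.ofReal (∫ t in Ioc (0:ℝ) (1/2), (1/2) * t ^ (-(1/2) : ℝ)) := by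
          rw [ofReal_integral_eq_lintegral_ofReal]
          · exact ((intervalIntegrable_iff_integrableOn_Ioc_of_le (by norm_num)).1 hint).const_mul _
          · filter_upwards [self_mem_ae_restrict measurableSet_Ioc] with t ht
            have : 0 < t := ht.1
            positivity
      _ ≤ 1 := by
          rw [integral_const_mul, ← intervalIntegral.integral_of_le (by norm_num), hval]
          have : (1/2 : ℝ) ^ (1/2 : ℝ) ≤ 1 :=
            Real.rpow_le_one (by norm_num) (by norm_num) (by norm_num)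
          rw [show (1:ℝ≥0∞) = ENNReal.ofReal 1 by simp]
          apply ENNReal.ofReal_le_ofReal
          linarith
  have hneg : ∫⁻ t in Icc (-(1/2) : ℝ) 0, (ENNReal.ofReal (4 * |t|)) ^ (-(1/2) : ℝ) ≤ 1 := by
    have := (Measure.measurePreserving_neg (volume : Measure ℝ)).setLIntegral_comp_preimage
      (s := Icc (0:ℝ) (1/2)) measurableSet_Icc
      (f := fun t => (ENNReal.ofReal (4 * |t|)) ^ (-(1/2) : ℝ)) (by fun_prop)
    have hpre : (Neg.neg ⁻¹' Icc (0:ℝ) (1/2)) = Icc (-(1/2)) 0 := by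
      ext x
      simp only [mem_preimage, mem_Icc]
      constructor <;> rintro ⟨h1, h2⟩ <;> constructor <;> linarith
    rw [hpre] at this
    simp only [abs_neg] at this
    rw [this]
    exact hhalf
  calc ∫⁻ t in Ioc (-(1/2) : ℝ) (1/2), (ENNReal.ofReal (4 * |t|)) ^ (-(1/2) : ℝ)
      ≤ ∫⁻ t in Icc (-(1/2)) 0 ∪ Icc 0 (1/2), (ENNReal.ofReal (4 * |t|)) ^ (-(1/2) : ℝ) :=
        lintegral_mono_set hsplit
    _ ≤ _ := lintegral_union_le _ _ _
    _ ≤ 1 + 1 := add_le_add hneg hhalf
    _ = 2 := by norm_num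

end Pool.Agent.Anderson
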