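import Pool.Agent.Helper17_Anderson.Circle

/-!
# Integrals of functions of `2 cos (2πθ) - c`
-/

set_option autoImplicit false

open MeasureTheory Set Real

open scoped ENNReal ComplexConjugate

noncomputable section

namespace Pool.Agent.Anderson

local instance haarMS2 : MeasureSpace UnitAddCircle := ⟨AddCircle.haarAddCircle⟩

local instance haarAHCos : Measure.IsAddHaarMeasure (volume : Measure UnitAddCircle) :=
  inferInstanceAs (Measure.IsAddHaarMeasure AddCircle.haarAddCircle)

local instance haarPMCos : IsProbabilityMeasure (volume : Measure UnitAddCircle) :=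
  inferInstanceAs (IsProbabilityMeasure AddCircle.haarAddCircle)

/-- `2 cos (2πθ)` -/
def c2 (θ : UnitAddCircle) : ℝ := 2 * (u θ).re

theorem continuous_c2 : Continuous c2 := by
  unfold c2
  have := continuous_u
  fun_prop

theorem measurable_c2 : Measurable c2 := continuous_c2.measurable

/-- the weight `|x|^{-s}` with value `∞` at `0` -/
def W (s x : ℝ) : ℝ≥0∞ := (ENNReal.ofReal |x|) ^ (-s)

theorem measurable_W (s : ℝ) : Measurable (W s) := by
  unfold W
  fun_prop

theorem W_le {s x y : ℝ} (hs : 0 ≤ s) (h : y ≤ |x|) : W s x ≤ (ENNReal.ofReal y) ^ (-s) := by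
  unfold W
  rw [ENNReal.rpow_neg, ENNReal.rpow_neg]
  apply ENNReal.inv_le_inv.2
  exact ENNReal.rpow_le_rpow (ENNReal.ofReal_le_ofReal h) hs

theorem c2_sub_eq {c : ℝ} {a : ℂ} (ha : ‖a‖ = 1) (hac : 2 * a.re = c) (θ : UnitAddCircle) :
    |c2 θ - c| = ‖u θ - a‖ * ‖u θ - conj a‖ := by
  have hu := norm_u θ
  have huu : u θ * conj (u θ) = 1 := by
    rw [Complex.mul_conj, Complex.normSq_eq_norm_sq, hu]; norm_num
  have haa : a * conj a = 1 := by
    rw [Complex.mul_conj, Complex.normSq_eq_norm_sq, ha]; norm_num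
  have h1 : (u θ - a) * (u θ - conj a) = u θ * ((c2 θ - c : ℝ) : ℂ) := by
    have e1 : ((c2 θ : ℝ) : ℂ) = u θ + conj (u θ) := by
      unfold c2; rw [Complex.add_conj]
    have e2 : ((c : ℝ) : ℂ) = a + conj a := by
      rw [Complex.add_conj, ← hac]
    push_cast
    rw [e1, e2]
    linear_combination haa - huu
  rw [← norm_mul, h1, norm_mul, hu, one_mul, Complex.norm_real, Real.norm_eq_abs]

theorem norm_sub_one_sq (θ : UnitAddCircle) : ‖u θ - 1‖ ^ 2 = 2 - c2 θ := by
  have hu := norm_u θ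
  have h1 : (u θ).re ^ 2 + (u θ).im ^ 2 = 1 := by
    have := Complex.normSq_eq_norm_sq (u θ)
    rw [hu, Complex.normSq_apply] at this
    nlinarith
  rw [← Complex.normSq_eq_norm_sq, Complex.normSq_apply]
  unfold c2
  simp only [Complex.sub_re, Complex.one_re, Complex.sub_im, Complex.one_im, sub_zero]
  nlinarith

theorem norm_add_one_sq (θ : UnitAddCircle) : ‖u θ - (-1)‖ ^ 2 = 2 + c2 θ := by
  have hu := norm_u θ
  have h1 : (u θ).re ^ 2 + (u θ).im ^ 2 = 1 := by
    have := Complex.normSq_eq_norm_sq (u θ)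
    rw [hu, Complex.normSq_apply] at this
    nlinarith
  rw [← Complex.normSq_eq_norm_sq, Complex.normSq_apply]
  unfold c2
  simp only [sub_neg_eq_add, Complex.add_re, Complex.one_re, Complex.add_im, Complex.one_im,
    add_zero]
  nlinarith

/-- For `|c| < 2` there is a unit vector `a` with `2 Re a = c`, and
`‖a - conj a‖ = √(4-c²)`. -/
theorem exists_a {c : ℝ} (hc : |c| ≤ 2) : ∃ a : ℂ, ‖a‖ = 1 ∧ 2 * a.re = c ∧
    ‖a - conj a‖ = √(4 - c ^ 2) := by
  have h4 : 0 ≤ 4 - c ^ 2 := by
    have := abs_le.1 hc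
    nlinarith
  refine ⟨⟨c / 2, √(4 - c ^ 2) / 2⟩, ?_, by ring, ?_⟩
  · have : ‖(⟨c / 2, √(4 - c ^ 2) / 2⟩ : ℂ)‖ ^ 2 = 1 := by
      rw [← Complex.normSq_eq_norm_sq, Complex.normSq_mk]
      have := Real.mul_self_sqrt h4
      nlinarith
    nlinarith [norm_nonneg (⟨c / 2, √(4 - c ^ 2) / 2⟩ : ℂ)]
  · have : (⟨c / 2, √(4 - c ^ 2) / 2⟩ : ℂ) - conj (⟨c / 2, √(4 - c ^ 2) / 2⟩ : ℂ) =
        (√(4 - c ^ 2) : ℂ) * Complex.I := by
      apply Complex.ext <;> simp
    rw [this, norm_mul, Complex.norm_I, mul_one, Complex.norm_real, Real.norm_eq_abs,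
      abs_of_nonneg (Real.sqrt_nonneg _)]

theorem sqrt_split {c : ℝ} (hc : |c| < 2) : √(4 - c ^ 2) = √|c - 2| * √|c + 2| := by
  have := abs_lt.1 hc
  rw [← Real.sqrt_mul (abs_nonneg _), ← abs_mul, abs_of_nonpos (by nlinarith)]
  congr 1
  ring

/-- one of the two distances to `±2` is at least `2` -/
theorem dist_two (c : ℝ) : 2 ≤ |c - 2| ∨ 2 ≤ |c + 2| := by
  rcases le_total 0 c with h | h
  · right; rw [abs_of_nonneg (by linarith)]; linarith
  · left; rw [abs_of_nonpos (by linarith)]; linarith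

theorem lintegral_P {η : ℝ} (hη : 0 < η) (c : ℝ) :
    ∫⁻ θ : UnitAddCircle, ENNReal.ofReal (ker η (c2 θ - c)) ≤
      ENNReal.ofReal π * (W (1/2) (c - 2) + W (1/2) (c + 2)) := by
  have hpi := Real.pi_pos
  have hW : ∀ x : ℝ, 0 < |x| → ENNReal.ofReal (1 / √|x|) = W (1/2) x := by
    intro x hx
    unfold W
    rw [ENNReal.ofReal_rpow_of_pos hx, Real.rpow_neg hx.le, ← Real.sqrt_eq_rpow, one_div]
  rcases lt_trichotomy |c| 2 with h | h | h
  · -- inside
    obtain ⟨a, ha, hac, haS⟩ := exists_a h.le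
    have hS : 0 < √(4 - c ^ 2) := by
      apply Real.sqrt_pos.2
      have := abs_lt.1 h
      nlinarith
    set S := √(4 - c ^ 2) with hSdef
    have ha' : ‖conj a‖ = 1 := by rw [Complex.norm_conj, ha]
    have hpt : ∀ θ, ENNReal.ofReal (ker η (c2 θ - c)) ≤
        ENNReal.ofReal (ker η (S / 2 * ‖u θ - a‖)) +
        ENNReal.ofReal (ker η (S / 2 * ‖u θ - conj a‖)) := by
      intro θ
      have h1 := c2_sub_eq ha hac θ
      have h2 : S ≤ ‖u θ - a‖ + ‖u θ - conj a‖ := by
        rw [← haS, show a - conj a = (u θ - conj a) - (u θ - a) by ring]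
        exact (norm_sub_le _ _).trans (le_of_eq (add_comm _ _))
      have n1 := norm_nonneg (u θ - a)
      have n2 := norm_nonneg (u θ - conj a)
      rw [← ker_abs, h1]
      rcases le_total (S / 2) ‖u θ - conj a‖ with h3 | h3
      · refine le_add_right (ENNReal.ofReal_le_ofReal (ker_anti hη (by positivity) ?_))
        rw [mul_comm (S / 2)]
        exact mul_le_mul_of_nonneg_left h3 n1
      · refine le_add_left (ENNReal.ofReal_le_ofReal (ker_anti hη (by positivity) ?_))
        apply mul_le_mul_of_nonneg_right _ n2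
        linarith
    calc ∫⁻ θ : UnitAddCircle, ENNReal.ofReal (ker η (c2 θ - c))
        ≤ ∫⁻ θ : UnitAddCircle, (ENNReal.ofReal (ker η (S / 2 * ‖u θ - a‖)) +
          ENNReal.ofReal (ker η (S / 2 * ‖u θ - conj a‖))) := lintegral_mono hpt
      _ = (∫⁻ θ : UnitAddCircle, ENNReal.ofReal (ker η (S / 2 * ‖u θ - a‖))) +
          ∫⁻ θ : UnitAddCircle, ENNReal.ofReal (ker η (S / 2 * ‖u θ - conj a‖)) := by
          apply lintegral_add_left
          unfold ker
          have := measurable_u
          fun_prop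
      _ ≤ ENNReal.ofReal (π / (4 * (S / 2))) + ENNReal.ofReal (π / (4 * (S / 2))) :=
          add_le_add (lintegral_ker_circle hη (by positivity) ha)
            (lintegral_ker_circle hη (by positivity) ha')
      _ = ENNReal.ofReal π * ENNReal.ofReal (1 / S) := by
          rw [← ENNReal.ofReal_add (by positivity) (by positivity),
            ← ENNReal.ofReal_mul hpi.le]
          congr 1
          field_simp
          norm_num
      _ ≤ ENNReal.ofReal π * (W (1/2) (c - 2) + W (1/2) (c + 2)) := by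
          gcongr
          have hc := abs_lt.1 h
          have p1 : 0 < |c - 2| := abs_pos.2 (by linarith)
          have p2 : 0 < |c + 2| := abs_pos.2 (by linarith)
          rw [← hW _ p1, ← hW _ p2]
          have q1 : 0 < √|c - 2| := Real.sqrt_pos.2 p1
          have q2 : 0 < √|c + 2| := Real.sqrt_pos.2 p2
          have hsp := sqrt_split h
          rcases dist_two c with h2 | h2
          · refine le_add_left (ENNReal.ofReal_le_ofReal ?_)
            rw [hSdef, hsp]
            apply one_div_le_one_div_of_le q2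
            have : 1 ≤ √|c - 2| := Real.one_le_sqrt.2 (by linarith)
            nlinarith
          · refine le_add_right (ENNReal.ofReal_le_ofReal ?_)
            rw [hSdef, hsp]
            apply one_div_le_one_div_of_le q1
            have : 1 ≤ √|c + 2| := Real.one_le_sqrt.2 (by linarith)
            nlinarith
  · -- boundary: the right side is infinite
    have htop : ENNReal.ofReal π * (W (1/2) (c - 2) + W (1/2) (c + 2)) = ∞ := by
      have h0 : W (1/2) 0 = ∞ := by
        unfold W
        rw [abs_zero, ENNReal.ofReal_zero, ENNReal.zero_rpow_of_neg (by norm_num)]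
      rw [abs_eq (by norm_num)] at h
      rcases h with h | h
      · rw [h, sub_self, h0, top_add, ENNReal.mul_top]
        exact (ENNReal.ofReal_pos.2 hpi).ne'
      · rw [h, show (-2 + 2 : ℝ) = 0 by norm_num, h0, add_top, ENNReal.mul_top]
        exact (ENNReal.ofReal_pos.2 hpi).ne'
    rw [htop]; exact le_top
  · -- outside
    rcases lt_abs.1 h with h | h
    · have hk : 0 < √|c - 2| := Real.sqrt_pos.2 (abs_pos.2 (by linarith))
      have hks : √|c - 2| ^ 2 = c - 2 := by
        rw [Real.sq_sqrt (abs_nonneg _), abs_of_pos (by linarith)]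
      have hpt : ∀ θ, ENNReal.ofReal (ker η (c2 θ - c)) ≤
          ENNReal.ofReal (ker η (2 * √|c - 2| * ‖u θ - 1‖)) := by
        intro θ
        have h1 := norm_sub_one_sq θ
        have n1 := norm_nonneg (u θ - 1)
        apply ENNReal.ofReal_le_ofReal
        rw [← ker_abs η (c2 θ - c)]
        apply ker_anti hη (by positivity)
        have : |c2 θ - c| = (c - 2) + ‖u θ - 1‖ ^ 2 := by
          rw [h1, abs_of_nonpos (by nlinarith [sq_nonneg ‖u θ - 1‖])]; ring
        rw [this]
        nlinarith [sq_nonneg (√|c - 2| - ‖u θ - 1‖)]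
      refine (lintegral_mono hpt).trans ((lintegral_ker_circle hη (by positivity) (by simp)).trans ?_)
      rw [← hW (c - 2) (abs_pos.2 (by linarith)), mul_add]
      refine le_add_right ?_
      rw [← ENNReal.ofReal_mul hpi.le]
      apply ENNReal.ofReal_le_ofReal
      rw [mul_one_div]
      apply div_le_div_of_nonneg_left hpi.le hk
      linarith
    · have hk : 0 < √|c + 2| := Real.sqrt_pos.2 (abs_pos.2 (by linarith))
      have hks : √|c + 2| ^ 2 = -c - 2 := by
        rw [Real.sq_sqrt (abs_nonneg _), abs_of_neg (by linarith)]; ring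
      have hpt : ∀ θ, ENNReal.ofReal (ker η (c2 θ - c)) ≤
          ENNReal.ofReal (ker η (2 * √|c + 2| * ‖u θ - (-1)‖)) := by
        intro θ
        have h1 := norm_add_one_sq θ
        have n1 := norm_nonneg (u θ - (-1))
        apply ENNReal.ofReal_le_ofReal
        rw [← ker_abs η (c2 θ - c)]
        apply ker_anti hη (by positivity)
        have : |c2 θ - c| = (-c - 2) + ‖u θ - (-1)‖ ^ 2 := by
          rw [h1, abs_of_nonneg (by nlinarith [sq_nonneg ‖u θ - (-1)‖])]; ring
        rw [this]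
        nlinarith [sq_nonneg (√|c + 2| - ‖u θ - (-1)‖)]
      refine (lintegral_mono hpt).trans ((lintegral_ker_circle hη (by positivity) (by simp)).trans ?_)
      rw [← hW (c + 2) (abs_pos.2 (by linarith)), mul_add]
      refine le_add_left ?_
      rw [← ENNReal.ofReal_mul hpi.le]
      apply ENNReal.ofReal_le_ofReal
      rw [mul_one_div]
      apply div_le_div_of_nonneg_left hpi.le hk
      linarith

theorem lintegral_Q (b : ℝ) :
    ∫⁻ θ : UnitAddCircle, W (1/2) (b - c2 θ) ≤ 8 * (W (1/4) (b - 2) + W (1/4) (b + 2)) := by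
  have hW : ∀ x : ℝ, (ENNReal.ofReal √|x|) ^ (-(1/2) : ℝ) = W (1/4) x := by
    intro x
    unfold W
    rw [Real.sqrt_eq_rpow, ← ENNReal.ofReal_rpow_of_nonneg (abs_nonneg _) (by norm_num),
      ← ENNReal.rpow_mul]
    norm_num
  have hlow : ∀ {y z : ℝ}, 1 ≤ y → (ENNReal.ofReal (y * z)) ^ (-(1/2) : ℝ) ≤
      (ENNReal.ofReal z) ^ (-(1/2) : ℝ) ∨ z < 0 := by
    intro y z hy
    rcases lt_or_ge z 0 with hz | hz
    · right; exact hz
    · left
      rw [ENNReal.rpow_neg, ENNReal.rpow_neg]
      apply ENNReal.inv_le_inv.2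
      apply ENNReal.rpow_le_rpow (ENNReal.ofReal_le_ofReal _) (by norm_num)
      nlinarith
  have h2pow : (ENNReal.ofReal (1/2)) ^ (-(1/2) : ℝ) ≤ 2 := by
    rw [ENNReal.ofReal_rpow_of_pos (by norm_num), show (2:ℝ≥0∞) = ENNReal.ofReal 2 by simp]
    apply ENNReal.ofReal_le_ofReal
    rw [show (1/2 : ℝ) = (2:ℝ) ^ (-1 : ℝ) by rw [Real.rpow_neg_one]; norm_num,
      ← Real.rpow_mul (by norm_num)]
    calc (2:ℝ) ^ (-1 * -(2:ℝ) ^ (-1 : ℝ)) ≤ (2:ℝ) ^ (1:ℝ) := by
          apply Real.rpow_le_rpow_of_exponent_le (by norm_num)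
          rw [Real.rpow_neg_one]; norm_num
      _ = 2 := by norm_num
  rcases lt_trichotomy |b| 2 with h | h | h
  · -- inside
    obtain ⟨a, ha, hac, haS⟩ := exists_a h.le
    have hS : 0 < √(4 - b ^ 2) := by
      apply Real.sqrt_pos.2
      have := abs_lt.1 h
      nlinarith
    set S := √(4 - b ^ 2) with hSdef
    have ha' : ‖conj a‖ = 1 := by rw [Complex.norm_conj, ha]
    have hpt : ∀ θ, W (1/2) (b - c2 θ) ≤ (ENNReal.ofReal (S / 2)) ^ (-(1/2) : ℝ) *
        ((ENNReal.ofReal ‖u θ - a‖) ^ (-(1/2) : ℝ) +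
          (ENNReal.ofReal ‖u θ - conj a‖) ^ (-(1/2) : ℝ)) := by
      intro θ
      have h1 := c2_sub_eq ha hac θ
      rw [abs_sub_comm] at h1
      have h2 : S ≤ ‖u θ - a‖ + ‖u θ - conj a‖ := by
        rw [← haS, show a - conj a = (u θ - conj a) - (u θ - a) by ring]
        exact (norm_sub_le _ _).trans (le_of_eq (add_comm _ _))
      have n1 := norm_nonneg (u θ - a)
      have n2 := norm_nonneg (u θ - conj a)
      rw [mul_add]
      rcases le_total (S / 2) ‖u θ - conj a‖ with h3 | h3
      · refine le_add_right ?_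
        have h4 : S / 2 * ‖u θ - a‖ ≤ |b - c2 θ| := by
          rw [h1, mul_comm (S / 2)]
          exact mul_le_mul_of_nonneg_left h3 n1
        refine (W_le (by norm_num) h4).trans (le_of_eq ?_)
        rw [ENNReal.ofReal_mul (by positivity),
          ENNReal.mul_rpow_of_ne_top ENNReal.ofReal_ne_top ENNReal.ofReal_ne_top]
      · refine le_add_left ?_
        have h4 : S / 2 * ‖u θ - conj a‖ ≤ |b - c2 θ| := by
          rw [h1]
          apply mul_le_mul_of_nonneg_right _ n2
          linarith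
        refine (W_le (by norm_num) h4).trans (le_of_eq ?_)
        rw [ENNReal.ofReal_mul (by positivity),
          ENNReal.mul_rpow_of_ne_top ENNReal.ofReal_ne_top ENNReal.ofReal_ne_top]
    have hSW : (ENNReal.ofReal S) ^ (-(1/2) : ℝ) ≤ W (1/4) (b - 2) + W (1/4) (b + 2) := by
      rw [hSdef, sqrt_split h]
      rcases dist_two b with h2 | h2
      · refine le_add_left ?_
        rw [← hW]
        rcases hlow (y := √|b - 2|) (z := √|b + 2|)
          (Real.one_le_sqrt.2 (by linarith)) with h3 | h3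
        · exact h3
        · exact absurd h3 (not_lt.2 (Real.sqrt_nonneg _))
      · refine le_add_right ?_
        rw [← hW, mul_comm]
        rcases hlow (y := √|b + 2|) (z := √|b - 2|)
          (Real.one_le_sqrt.2 (by linarith)) with h3 | h3
        · exact h3
        · exact absurd h3 (not_lt.2 (Real.sqrt_nonneg _))
    calc ∫⁻ θ : UnitAddCircle, W (1/2) (b - c2 θ)
        ≤ ∫⁻ θ : UnitAddCircle, (ENNReal.ofReal (S / 2)) ^ (-(1/2) : ℝ) *
        ((ENNReal.ofReal ‖u θ - a‖) ^ (-(1/2) : ℝ) +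
          (ENNReal.ofReal ‖u θ - conj a‖) ^ (-(1/2) : ℝ)) := lintegral_mono hpt
      _ = (ENNReal.ofReal (S / 2)) ^ (-(1/2) : ℝ) *
        ((∫⁻ θ : UnitAddCircle, (ENNReal.ofReal ‖u θ - a‖) ^ (-(1/2) : ℝ)) +
          ∫⁻ θ : UnitAddCircle, (ENNReal.ofReal ‖u θ - conj a‖) ^ (-(1/2) : ℝ)) := by
          have := measurable_u
          rw [lintegral_const_mul _ (by fun_prop), lintegral_add_left (by fun_prop)]
      _ ≤ (ENNReal.ofReal (S / 2)) ^ (-(1/2) : ℝ) * (2 + 2) := by
          gcongr
          · exact lintegral_rpow_circle ha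
          · exact lintegral_rpow_circle ha'
      _ = (ENNReal.ofReal S) ^ (-(1/2) : ℝ) * (ENNReal.ofReal (1/2)) ^ (-(1/2) : ℝ) * 4 := by
          rw [← ENNReal.mul_rpow_of_ne_top ENNReal.ofReal_ne_top ENNReal.ofReal_ne_top,
            ← ENNReal.ofReal_mul hS.le, mul_one_div]
          norm_num
      _ ≤ (W (1/4) (b - 2) + W (1/4) (b + 2)) * 2 * 4 := by gcongr
      _ = 8 * (W (1/4) (b - 2) + W (1/4) (b + 2)) := by ring
  · have htop : 8 * (W (1/4) (b - 2) + W (1/4) (b + 2)) = ∞ := by
      have h0 : W (1/4) 0 = ∞ := by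
        unfold W
        rw [abs_zero, ENNReal.ofReal_zero, ENNReal.zero_rpow_of_neg (by norm_num)]
      rw [abs_eq (by norm_num)] at h
      rcases h with h | h
      · rw [h, sub_self, h0, top_add, ENNReal.mul_top (by norm_num)]
      · rw [h, show (-2 + 2 : ℝ) = 0 by norm_num, h0, add_top, ENNReal.mul_top (by norm_num)]
    rw [htop]; exact le_top
  · -- outside
    have key : ∀ (e k : ℝ) (v : ℂ), ‖v‖ = 1 → 0 ≤ k →
        (∀ θ, 2 * √k * ‖u θ - v‖ ≤ |b - c2 θ|) →
        ∫⁻ θ : UnitAddCircle, W (1/2) (b - c2 θ) ≤ 8 * (ENNReal.ofReal √k) ^ (-(1/2) : ℝ) := by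
      intro e k v hv hk0 hpt
      calc ∫⁻ θ : UnitAddCircle, W (1/2) (b - c2 θ)
          ≤ ∫⁻ θ : UnitAddCircle, (ENNReal.ofReal √k) ^ (-(1/2) : ℝ) *
            (ENNReal.ofReal ‖u θ - v‖) ^ (-(1/2) : ℝ) := by
            apply lintegral_mono
            intro θ
            have h4 : √k * ‖u θ - v‖ ≤ |b - c2 θ| := by
              refine le_trans ?_ (hpt θ)
              have : 0 ≤ √k * ‖u θ - v‖ := by positivity
              linarith
            refine (W_le (by norm_num) h4).trans (le_of_eq ?_)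
            rw [ENNReal.ofReal_mul (by positivity),
              ENNReal.mul_rpow_of_ne_top ENNReal.ofReal_ne_top ENNReal.ofReal_ne_top]
        _ = (ENNReal.ofReal √k) ^ (-(1/2) : ℝ) *
            ∫⁻ θ : UnitAddCircle, (ENNReal.ofReal ‖u θ - v‖) ^ (-(1/2) : ℝ) := by
            have := measurable_u
            rw [lintegral_const_mul _ (by fun_prop)]
        _ ≤ (ENNReal.ofReal √k) ^ (-(1/2) : ℝ) * 2 := by
            gcongr
            exact lintegral_rpow_circle hv
        _ ≤ 8 * (ENNReal.ofReal √k) ^ (-(1/2) : ℝ) := by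
            rw [mul_comm]; gcongr; norm_num
    rcases lt_abs.1 h with h | h
    · refine (key 0 |b - 2| 1 (by simp) (abs_nonneg _) ?_).trans ?_
      · intro θ
        have h1 := norm_sub_one_sq θ
        have hks : √|b - 2| ^ 2 = b - 2 := by
          rw [Real.sq_sqrt (abs_nonneg _), abs_of_pos (by linarith)]
        have : |b - c2 θ| = (b - 2) + ‖u θ - 1‖ ^ 2 := by
          rw [h1, abs_of_nonneg (by nlinarith [sq_nonneg ‖u θ - 1‖])]; ring
        rw [this]
        nlinarith [sq_nonneg (√|b - 2| - ‖u θ - 1‖)]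
      · rw [hW, mul_add]; exact le_add_right le_rfl
    · refine (key 0 |b + 2| (-1) (by simp) (abs_nonneg _) ?_).trans ?_
      · intro θ
        have h1 := norm_add_one_sq θ
        have hks : √|b + 2| ^ 2 = -b - 2 := by
          rw [Real.sq_sqrt (abs_nonneg _), abs_of_neg (by linarith)]; ring
        have : |b - c2 θ| = (-b - 2) + ‖u θ - (-1)‖ ^ 2 := by
          rw [h1, abs_of_nonpos (by nlinarith [sq_nonneg ‖u θ - (-1)‖])]; ring
        rw [this]
        nlinarith [sq_nonneg (√|b + 2| - ‖u θ - (-1)‖)]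
      · rw [hW, mul_add]; exact le_add_left le_rfl

theorem lintegral_R (b : ℝ) : ∫⁻ θ : UnitAddCircle, W (1/4) (b - c2 θ) ≤ 4 := by
  have hlow : ∀ (y : ℝ) (θ : UnitAddCircle), 0 ≤ y → y ^ 2 ≤ |b - c2 θ| →
      W (1/4) (b - c2 θ) ≤ (ENNReal.ofReal y) ^ (-(1/2) : ℝ) := by
    intro y θ hy h
    refine (W_le (by norm_num) h).trans (le_of_eq ?_)
    rw [ENNReal.ofReal_pow hy, ← ENNReal.rpow_natCast, ← ENNReal.rpow_mul]
    norm_num
  rcases le_or_gt |b| 2 with h | h
  · obtain ⟨a, ha, hac, -⟩ := exists_a h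
    have ha' : ‖conj a‖ = 1 := by rw [Complex.norm_conj, ha]
    calc ∫⁻ θ : UnitAddCircle, W (1/4) (b - c2 θ)
        ≤ ∫⁻ θ : UnitAddCircle, ((ENNReal.ofReal ‖u θ - a‖) ^ (-(1/2) : ℝ) +
          (ENNReal.ofReal ‖u θ - conj a‖) ^ (-(1/2) : ℝ)) := by
          apply lintegral_mono
          intro θ
          have h1 := c2_sub_eq ha hac θ
          rw [abs_sub_comm] at h1
          have n1 := norm_nonneg (u θ - a)
          have n2 := norm_nonneg (u θ - conj a)
          rcases le_total ‖u θ - a‖ ‖u θ - conj a‖ with h3 | h3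
          · exact le_add_right (hlow _ θ n1 (by rw [h1]; nlinarith))
          · exact le_add_left (hlow _ θ n2 (by rw [h1]; nlinarith))
      _ = (∫⁻ θ : UnitAddCircle, (ENNReal.ofReal ‖u θ - a‖) ^ (-(1/2) : ℝ)) +
          ∫⁻ θ : UnitAddCircle, (ENNReal.ofReal ‖u θ - conj a‖) ^ (-(1/2) : ℝ) := by
          have := measurable_u
          rw [lintegral_add_left (by fun_prop)]
      _ ≤ 2 + 2 := add_le_add (lintegral_rpow_circle ha) (lintegral_rpow_circle ha')
      _ = 4 := by norm_num
  · rcases lt_abs.1 h with h | h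
    · refine (lintegral_mono (g := fun θ => (ENNReal.ofReal ‖u θ - 1‖) ^ (-(1/2) : ℝ)) ?_).trans
        ((lintegral_rpow_circle (by simp)).trans (by norm_num))
      intro θ
      apply hlow _ _ (norm_nonneg _)
      rw [norm_sub_one_sq, abs_of_nonneg (by nlinarith [norm_sub_one_sq θ, sq_nonneg ‖u θ - 1‖])]
      linarith
    · refine (lintegral_mono (g := fun θ => (ENNReal.ofReal ‖u θ - (-1)‖) ^ (-(1/2) : ℝ)) ?_).trans
        ((lintegral_rpow_circle (by simp)).trans (by norm_num))
      intro θ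
      apply hlow _ _ (norm_nonneg _)
      rw [norm_add_one_sq, abs_of_nonpos (by nlinarith [norm_add_one_sq θ, sq_nonneg ‖u θ - (-1)‖])]
      linarith

end Pool.Agent.Anderson
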