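import Mathlib

/-!
# The Anderson Hamiltonian on `ℤ^d`: definitions

`H = Δ + V` on `ℓ²(ℤ^d)`, with `(Δψ)(x) = ∑_{|y-x|=1} ψ(y)` and `V` multiplication by a real
function (in the Anderson model `V = σ ξ`).
-/

set_option autoImplicit false

open scoped ENNReal

namespace Pool.Agent.Anderson

/-- The sites of the lattice `ℤ^d`. -/
abbrev Site (d : ℕ) : Type := Fin d → ℤ

/-- The Hilbert space `ℓ²(ℤ^d)`. -/
abbrev L2 (d : ℕ) : Type := lp (fun _ : Site d => ℂ) 2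

/-- The lattice Laplacian `(Δψ)(x) = ∑_{|y-x|=1} ψ(y)`: the sum over the `2d` nearest
neighbours `x ± e_i`. -/
def lap {d : ℕ} (ψ : Site d → ℂ) (x : Site d) : ℂ :=
  ∑ i : Fin d, (ψ (x + Pi.single i 1) + ψ (x - Pi.single i 1))

/-- `ψ ∈ ℓ²(ℤ^d)` solves `(Δ + V) ψ = lam ψ`. -/
def IsEigen {d : ℕ} (V : Site d → ℝ) (lam : ℝ) (ψ : L2 d) : Prop :=
  ∀ x, lap ψ x + (V x : ℂ) * ψ x = (lam : ℂ) * ψ x

/-- `v ∈ ℓ²(ℤ^d)` is an `ε`-quasimode of `H = Δ + V` at the energy `lam`: `‖v‖ ≤ 1`, and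
`(H - lam) v` is in `ℓ²(ℤ^d)` with norm at most `ε`. For `ε = 0` these are exactly the
eigenfunctions (with eigenvalue `lam`) in the unit ball. -/
def IsQuasi {d : ℕ} (V : Site d → ℝ) (ε lam : ℝ) (v : L2 d) : Prop :=
  ‖v‖ ≤ 1 ∧ ∃ r : L2 d, ‖r‖ ≤ ε ∧
    ∀ y, lap v y + (V y : ℂ) * v y - (lam : ℂ) * v y = r y

end Pool.Agent.Anderson
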