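import Pool.Agent.Helper17_Anderson.Four

/-!
# The deterministic estimate
-/

set_option autoImplicit false

open MeasureTheory Set Real Function Matrix

open scoped ENNReal ComplexConjugate ComplexOrder

noncomputable section

namespace Pool.Agent.Anderson

local instance haarMS5 : MeasureSpace UnitAddCircle := ⟨AddCircle.haarAddCircle⟩

local instance haarAHDet : Measure.IsAddHaarMeasure (volume : Measure UnitAddCircle) :=
  inferInstanceAs (Measure.IsAddHaarMeasure AddCircle.haarAddCircle)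

local instance haarPMDet : IsProbabilityMeasure (volume : Measure UnitAddCircle) :=
  inferInstanceAs (IsProbabilityMeasure AddCircle.haarAddCircle)

variable {d : ℕ}

theorem continuous_inv_md {E η : ℝ} (hη : 0 < η) :
    Continuous fun θ : UnitAddTorus (Fin d) => (md E η θ)⁻¹ :=
  (continuous_md E η).inv₀ (fun θ => (md_pos hη θ).ne')

theorem Kmat_form_re (Λ : Finset (Site d)) {E η : ℝ} (hη : 0 < η) (v : Λ → ℂ) :
    (star v ⬝ᵥ (Kmat Λ E η *ᵥ v)).re = ∫ θ, (md E η θ)⁻¹ * ‖hatV v θ‖ ^ 2 := by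
  rw [Kmat_form Λ hη, Complex.ofReal_re]

theorem Kmat_posSemidef (Λ : Finset (Site d)) {E η : ℝ} (hη : 0 < η) :
    (Kmat Λ E η).PosSemidef := by
  rw [posSemidef_iff_dotProduct_mulVec]
  constructor
  · ext x y
    rw [conjTranspose_apply]
    unfold Kmat
    rw [Complex.star_def, ← integral_conj]
    apply integral_congr_ae
    filter_upwards with θ
    rw [map_mul, map_mul, Complex.conj_conj, Complex.conj_ofReal]
    ring
  · intro v
    rw [Kmat_form Λ hη]
    rw [Complex.zero_le_real]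
    apply integral_nonneg
    intro θ
    have := md_pos (E := E) hη θ
    positivity

theorem Kmat_diag (Λ : Finset (Site d)) (E η : ℝ) (y : Λ) :
    Kmat Λ E η y y = (kap d E η : ℂ) := by
  unfold Kmat kap
  rw [← integral_complex_ofReal]
  apply integral_congr_ae
  filter_upwards with θ
  have h : conj (ch (y : Site d) θ) * ch (y : Site d) θ = 1 := by
    rw [mul_comm, Complex.mul_conj, Complex.normSq_eq_norm_sq, norm_ch]
    norm_num
  linear_combination (((md E η θ)⁻¹ : ℝ) : ℂ) * h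

theorem Kmat_le (Λ : Finset (Site d)) {E η : ℝ} (hη : 0 < η) (v : Λ → ℂ) :
    (star v ⬝ᵥ (Kmat Λ E η *ᵥ v)).re ≤ η⁻¹ * ∑ y, ‖v y‖ ^ 2 := by
  rw [Kmat_form_re Λ hη]
  have h1 := parseval v
  unfold nsq at h1
  rw [← h1, ← integral_const_mul]
  have hc1 := continuous_inv_md (d := d) (E := E) hη
  have hc2 := continuous_hatV v
  apply integral_mono
  · apply integrable_of_cont
    fun_prop
  · apply integrable_of_cont
    fun_prop
  · intro θ
    apply mul_le_mul_of_nonneg_right _ (by positivity)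
    exact inv_anti₀ hη (md_ge hη θ)

theorem kap_pos (E : ℝ) {η : ℝ} (hη : 0 < η) : 0 < kap d E η := by
  unfold kap
  apply Continuous.integral_pos_of_hasCompactSupport_nonneg_nonzero
    (x := (0 : UnitAddTorus (Fin d))) (continuous_inv_md hη)
    (HasCompactSupport.of_compactSpace _)
  · intro θ
    exact (inv_pos.2 (md_pos hη θ)).le
  · exact (inv_pos.2 (md_pos hη _)).ne'

theorem hatS_mono {Λ Λ' : Finset (Site d)} (h : Λ ⊆ Λ') {w : Site d → ℂ}
    (hw : ∀ y ∉ Λ, w y = 0) (θ : UnitAddTorus (Fin d)) : hatS Λ' w θ = hatS Λ w θ := by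
  unfold hatS
  symm
  apply Finset.sum_subset h
  intro y _ hy
  rw [hw y hy, zero_mul]

/-- the residual `(Δ + D - z) w` -/
def res (D : Site d → ℝ) (z : ℂ) (w : Site d → ℂ) (y : Site d) : ℂ :=
  lap w y + (D y : ℂ) * w y - z * w y

theorem det_N2 {Λ Λ' : Finset (Site d)} {w : Site d → ℂ} (hw : ∀ y ∉ Λ, w y = 0)
    (hΛ : Λ ⊆ Λ') (h : ∀ y ∈ Λ, ∀ i, y - Pi.single i 1 ∈ Λ' ∧ y + Pi.single i 1 ∈ Λ')
    {D : Site d → ℝ} {E η : ℝ} (hη : 0 < η) {C : Matrix Λ Λ ℂ} (hC : C.IsHermitian)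
    (hCK : C * C = Kmat Λ E η)
    (hX : ∀ v : Λ → ℂ, nsq (XM C (fun y => D y) *ᵥ v) ≤ 1 / 4 * nsq v) :
    ∫ θ, md E η θ * ‖hatV (fun y : Λ => w y) θ‖ ^ 2 ≤
      4 * η⁻¹ * ∑ y ∈ Λ', ‖res D (E + η * Complex.I) w y‖ ^ 2 := by
  set z : ℂ := E + η * Complex.I with hz
  set uu : Site d → ℂ := res D z w with hu
  set m : UnitAddTorus (Fin d) → ℝ := md E η with hm
  have hmpos : ∀ θ, 0 < m θ := fun θ => md_pos hη θ
  have hmge : ∀ θ, η ≤ m θ := fun θ => md_ge hη θ
  have cm : Continuous m := continuous_md E η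
  have cim : Continuous fun θ => (m θ)⁻¹ := continuous_inv_md hη
  set wv : Λ → ℂ := fun y => w y with hwv
  set bv : Λ → ℂ := fun y => D y * w y with hbv
  have cw := continuous_hatV wv
  have cb := continuous_hatV bv
  have cu := continuous_hatS Λ' uu
  -- Fourier identity
  have hF : ∀ θ, hatS Λ' uu θ = (((sy θ : ℝ) : ℂ) - z) * hatV wv θ + hatV bv θ := by
    intro θ
    have e1 : hatS Λ' uu θ = hatS Λ' (lap w) θ + hatS Λ' (fun y => D y * w y) θ -
        z * hatS Λ' w θ := by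
      unfold hatS
      rw [Finset.mul_sum, ← Finset.sum_add_distrib, ← Finset.sum_sub_distrib]
      apply Finset.sum_congr rfl
      intro y _
      simp only [hu, res]
      ring
    rw [e1, hat_lap hw h, hatS_mono hΛ hw, hatS_mono hΛ (fun y hy => by rw [hw y hy, mul_zero]),
      hatS_eq_hatV, hatS_eq_hatV]
    ring
  set N2 : ℝ := ∫ θ, m θ * ‖hatV wv θ‖ ^ 2 with hN2
  set U2 : ℝ := ∑ y ∈ Λ', ‖uu y‖ ^ 2 with hU2
  have hU2' : ∫ θ, (m θ)⁻¹ * ‖hatS Λ' uu θ‖ ^ 2 ≤ η⁻¹ * U2 := by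
    rw [hU2, ← parsevalS, ← integral_const_mul]
    apply integral_mono
    · apply integrable_of_cont
      fun_prop
    · apply integrable_of_cont
      fun_prop
    · intro θ
      apply mul_le_mul_of_nonneg_right _ (by positivity)
      exact inv_anti₀ hη (hmge θ)
  set B : ℝ := ∫ θ, (m θ)⁻¹ * ‖hatV bv θ‖ ^ 2 with hB
  have hN2le : N2 ≤ 2 * (η⁻¹ * U2) + 2 * B := by
    have h1 : N2 ≤ ∫ θ, (2 * ((m θ)⁻¹ * ‖hatS Λ' uu θ‖ ^ 2) +
        2 * ((m θ)⁻¹ * ‖hatV bv θ‖ ^ 2)) := by
      apply integral_mono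
      · apply integrable_of_cont
        fun_prop
      · apply integrable_of_cont
        fun_prop
      · intro θ
        have h2 : m θ * ‖hatV wv θ‖ = ‖hatS Λ' uu θ - hatV bv θ‖ := by
          rw [hF θ, add_sub_cancel_right, norm_mul, hz, norm_sy_sub]
        have h3 : ‖hatS Λ' uu θ - hatV bv θ‖ ≤ ‖hatS Λ' uu θ‖ + ‖hatV bv θ‖ := norm_sub_le _ _
        have hmp := hmpos θ
        have h4 : m θ * ‖hatV wv θ‖ ^ 2 = (m θ)⁻¹ * (m θ * ‖hatV wv θ‖) ^ 2 := by
          field_simp
        have h5 : (m θ * ‖hatV wv θ‖) ^ 2 ≤ 2 * ‖hatS Λ' uu θ‖ ^ 2 + 2 * ‖hatV bv θ‖ ^ 2 := by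
          rw [h2]
          nlinarith [norm_nonneg (hatS Λ' uu θ - hatV bv θ), norm_nonneg (hatS Λ' uu θ),
            norm_nonneg (hatV bv θ), sq_nonneg (‖hatS Λ' uu θ‖ - ‖hatV bv θ‖)]
        simp only
        rw [h4]
        have := mul_le_mul_of_nonneg_left h5 (inv_pos.2 hmp).le
        linarith
    rw [integral_add, integral_const_mul, integral_const_mul] at h1
    · linarith
    · apply integrable_of_cont
      fun_prop
    · apply integrable_of_cont
      fun_prop
  -- the matrix part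
  have hform : ∀ v : Λ → ℂ, nsq (C *ᵥ v) = ∫ θ, (m θ)⁻¹ * ‖hatV v θ‖ ^ 2 := by
    intro v
    rw [← Kmat_form_re Λ hη, ← hCK]
    have h1 := star_dot_self (C *ᵥ v)
    rw [star_mulVec, ← dotProduct_mulVec, mulVec_mulVec, hC.eq] at h1
    rw [h1, Complex.ofReal_re]
  set a : Λ → ℂ := C *ᵥ bv with ha
  have haB : nsq a = B := hform bv
  set c : Λ → ℂ := diagonal (fun y : Λ => ((D y : ℝ) : ℂ)) *ᵥ (C *ᵥ a) with hc
  have hbd : bv = diagonal (fun y : Λ => ((D y : ℝ) : ℂ)) *ᵥ wv := by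
    funext y
    rw [mulVec_diagonal]
  have hCc : C *ᵥ c = XM C (fun y => D y) *ᵥ a := by
    rw [hc]
    unfold XM
    rw [← mulVec_mulVec, ← mulVec_mulVec]
  have cc := continuous_hatV c
  have hpair : (nsq a : ℂ) = ∫ θ, conj (hatV wv θ) * hatV c θ := by
    rw [integral_hatV, ← star_dot_self]
    have h1 : star a ⬝ᵥ a = star wv ⬝ᵥ c := by
      conv_lhs => rw [ha]
      rw [star_mulVec, ← dotProduct_mulVec, hC.eq, ← ha, hbd, star_mulVec, ← dotProduct_mulVec, hc]
      congr 2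
      rw [diagonal_conjTranspose]
      congr 1
      funext y
      simp
    rw [h1]
    rfl
  have hle : nsq a ≤ 1 / 8 * N2 + 2 * nsq (C *ᵥ c) := by
    have h1 : nsq a = ‖∫ θ, conj (hatV wv θ) * hatV c θ‖ := by
      rw [← hpair, Complex.norm_real, Real.norm_eq_abs, abs_of_nonneg (nsq_nonneg a)]
    rw [h1, hform c]
    refine (norm_integral_le_integral_norm _).trans ?_
    rw [hN2, ← integral_const_mul, ← integral_const_mul, ← integral_add]
    · apply integral_mono
      · apply integrable_of_cont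
        fun_prop
      · apply integrable_of_cont
        fun_prop
      · intro θ
        have hmp := hmpos θ
        simp only
        rw [norm_mul, RCLike.norm_conj]
        have h2 : 1 / 8 * (m θ * ‖hatV wv θ‖ ^ 2) + 2 * ((m θ)⁻¹ * ‖hatV c θ‖ ^ 2) -
            ‖hatV wv θ‖ * ‖hatV c θ‖ =
            (m θ)⁻¹ / 8 * (m θ * ‖hatV wv θ‖ - 4 * ‖hatV c θ‖) ^ 2 := by
          field_simp
          ring
        have h3 : 0 ≤ (m θ)⁻¹ / 8 * (m θ * ‖hatV wv θ‖ - 4 * ‖hatV c θ‖) ^ 2 := by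
          have := inv_pos.2 hmp
          positivity
        linarith
    · apply integrable_of_cont
      fun_prop
    · apply integrable_of_cont
      fun_prop
  have hXa := hX a
  rw [← hCc] at hXa
  have hN2nn : 0 ≤ N2 := by
    apply integral_nonneg
    intro θ
    have := hmpos θ
    positivity
  have haN : nsq a ≤ N2 / 4 := by linarith
  have hN2fin : N2 ≤ 4 * η⁻¹ * U2 := by
    rw [haB] at haN
    linarith
  exact hN2fin

/-- the weighted energy controls point values -/
theorem sup_of_N2 {Λ : Finset (Site d)} {w : Site d → ℂ} (hw : ∀ y ∉ Λ, w y = 0)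
    {E η : ℝ} (hη : 0 < η) (x : Site d) :
    ‖w x‖ ^ 2 ≤ kap d E η * ∫ θ, md E η θ * ‖hatV (fun y : Λ => w y) θ‖ ^ 2 := by
  set m : UnitAddTorus (Fin d) → ℝ := md E η with hm
  have hmpos : ∀ θ, 0 < m θ := fun θ => md_pos hη θ
  have cm : Continuous m := continuous_md E η
  have cim : Continuous fun θ => (m θ)⁻¹ := continuous_inv_md hη
  set wv : Λ → ℂ := fun y => w y with hwv
  have cw := continuous_hatV wv
  set N2 : ℝ := ∫ θ, m θ * ‖hatV wv θ‖ ^ 2 with hN2
  have hN2nn : 0 ≤ N2 := by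
    apply integral_nonneg
    intro θ
    have := hmpos θ
    positivity
  -- evaluation at x
  have hwx : ‖w x‖ ≤ ∫ θ, ‖hatV wv θ‖ := by
    rw [← integral_ch_hatS hw x]
    refine (norm_integral_le_integral_norm _).trans (le_of_eq ?_)
    apply integral_congr_ae
    filter_upwards with θ
    rw [norm_mul, RCLike.norm_conj, norm_ch, one_mul, hatS_eq_hatV]
  have hκ := kap_pos (d := d) E hη
  have hfin : ‖w x‖ ^ 2 ≤ kap d E η * N2 := by
    rcases (norm_nonneg (w x)).eq_or_lt with h0 | h0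
    · rw [← h0]
      have := mul_nonneg hκ.le hN2nn
      simpa using this
    · have ht : ∀ t : ℝ, 0 < t → ∫ θ, ‖hatV wv θ‖ ≤ t / 2 * kap d E η + 1 / (2 * t) * N2 := by
        intro t ht
        rw [hN2]
        unfold kap
        rw [← integral_const_mul, ← integral_const_mul, ← integral_add]
        · apply integral_mono
          · apply integrable_of_cont
            fun_prop
          · apply integrable_of_cont
            fun_prop
          · intro θ
            have hmp := hmpos θ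
            simp only
            have h2 : t / 2 * (m θ)⁻¹ + 1 / (2 * t) * (m θ * ‖hatV wv θ‖ ^ 2) -
                ‖hatV wv θ‖ = (m θ)⁻¹ / (2 * t) * (t - m θ * ‖hatV wv θ‖) ^ 2 := by
              field_simp
              ring
            have h3 : 0 ≤ (m θ)⁻¹ / (2 * t) * (t - m θ * ‖hatV wv θ‖) ^ 2 := by
              have := inv_pos.2 hmp
              positivity
            linarith
        · apply integrable_of_cont
          fun_prop
        · apply integrable_of_cont
          fun_prop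
      have h1 := ht (‖w x‖ / kap d E η) (by positivity)
      have h2 : ‖w x‖ / kap d E η / 2 * kap d E η = ‖w x‖ / 2 := by
        field_simp
      have h3 : 1 / (2 * (‖w x‖ / kap d E η)) * N2 = kap d E η * N2 / (2 * ‖w x‖) := by
        field_simp
      rw [h2, h3] at h1
      have h4 : ‖w x‖ / 2 ≤ kap d E η * N2 / (2 * ‖w x‖) := by linarith
      rw [le_div_iff₀ (by positivity)] at h4
      nlinarith
  exact hfin

theorem det_bound {Λ Λ' : Finset (Site d)} {w : Site d → ℂ} (hw : ∀ y ∉ Λ, w y = 0)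
    (hΛ : Λ ⊆ Λ') (h : ∀ y ∈ Λ, ∀ i, y - Pi.single i 1 ∈ Λ' ∧ y + Pi.single i 1 ∈ Λ')
    {D : Site d → ℝ} {E η : ℝ} (hη : 0 < η) {C : Matrix Λ Λ ℂ} (hC : C.IsHermitian)
    (hCK : C * C = Kmat Λ E η)
    (hX : ∀ v : Λ → ℂ, nsq (XM C (fun y => D y) *ᵥ v) ≤ 1 / 4 * nsq v) (x : Site d) :
    ‖w x‖ ^ 2 ≤ kap d E η *
      (4 * η⁻¹ * ∑ y ∈ Λ', ‖res D (E + η * Complex.I) w y‖ ^ 2) :=
  (sup_of_N2 hw hη x).trans (mul_le_mul_of_nonneg_left (det_N2 hw hΛ h hη hC hCK hX)
    (kap_pos (d := d) E hη).le)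

end Pool.Agent.Anderson
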