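import Pool.Agent.Helper17_Anderson.Cos

/-!
# Boundedness of the density of states of the lattice Laplacian in dimension `≥ 3`
-/

set_option autoImplicit false

open MeasureTheory Set Real Function

open scoped ENNReal ComplexConjugate

noncomputable section

namespace Pool.Agent.Anderson

local instance haarMS3 : MeasureSpace UnitAddCircle := ⟨AddCircle.haarAddCircle⟩

local instance haarAHDos : Measure.IsAddHaarMeasure (volume : Measure UnitAddCircle) :=
  inferInstanceAs (Measure.IsAddHaarMeasure AddCircle.haarAddCircle)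

local instance haarPMDos : IsProbabilityMeasure (volume : Measure UnitAddCircle) :=
  inferInstanceAs (IsProbabilityMeasure AddCircle.haarAddCircle)

/-- partial sums of `2 cos` outside `s` -/
def Rs {d : ℕ} (s : Finset (Fin d)) (x : Fin d → UnitAddCircle) : ℝ := ∑ j ∈ sᶜ, c2 (x j)

theorem measurable_Rs {d : ℕ} (s : Finset (Fin d)) : Measurable (Rs s) := by
  unfold Rs
  have := measurable_c2
  fun_prop

theorem Rs_update {d : ℕ} {s : Finset (Fin d)} {i : Fin d} (hi : i ∉ s)
    (x : Fin d → UnitAddCircle) (y : UnitAddCircle) :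
    Rs s (update x i y) = c2 y + Rs (insert i s) x := by
  unfold Rs
  have h : sᶜ = insert i (insert i s)ᶜ := by
    ext j
    simp only [Finset.mem_compl, Finset.mem_insert]
    constructor
    · intro h
      by_cases hj : j = i
      · exact Or.inl hj
      · right; rintro (h' | h')
        · exact hj h'
        · exact h h'
    · rintro (h | h)
      · rw [h]; exact hi
      · intro h'; exact h (Or.inr h')
  rw [h, Finset.sum_insert (by simp), update_self]
  congr 1
  apply Finset.sum_congr rfl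
  intro j hj
  have : j ≠ i := by
    rintro rfl
    simp at hj
  rw [update_of_ne this]

theorem dos_bound {d : ℕ} (hd : 3 ≤ d) {η : ℝ} (hη : 0 < η) (E : ℝ) :
    ∫⁻ θ : UnitAddTorus (Fin d), ENNReal.ofReal (ker η ((∑ i, c2 (θ i)) - E)) ≤
      ENNReal.ofReal π * 128 := by
  set i0 : Fin d := ⟨0, by omega⟩ with hi0
  set i1 : Fin d := ⟨1, by omega⟩ with hi1
  set i2 : Fin d := ⟨2, by omega⟩ with hi2
  have h01 : i0 ≠ i1 := by simp [hi0, hi1]
  have h02 : i0 ≠ i2 := by simp [hi0, hi2]
  have h12 : i1 ≠ i2 := by simp [hi1, hi2]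
  have mc := measurable_c2
  have mW2 := measurable_W (1/2)
  have mW4 := measurable_W (1/4)
  set f : (Fin d → UnitAddCircle) → ℝ≥0∞ := fun θ => ENNReal.ofReal (ker η (Rs ∅ θ - E)) with hf
  have hfm : Measurable f := by
    have := measurable_Rs (d := d) ∅
    simp only [hf, ker]
    fun_prop
  set f1 : (Fin d → UnitAddCircle) → ℝ≥0∞ := fun θ => ENNReal.ofReal π *
    (W (1/2) (E - 2 - Rs {i0} θ) + W (1/2) (E + 2 - Rs {i0} θ)) with hf1
  have hf1m : Measurable f1 := by
    have := measurable_Rs (d := d) {i0}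
    simp only [hf1]
    fun_prop
  set f2 : (Fin d → UnitAddCircle) → ℝ≥0∞ := fun θ => ENNReal.ofReal π *
    (8 * (W (1/4) (E - 4 - Rs {i1, i0} θ) + W (1/4) (E - Rs {i1, i0} θ)) +
     8 * (W (1/4) (E - Rs {i1, i0} θ) + W (1/4) (E + 4 - Rs {i1, i0} θ))) with hf2
  have hf2m : Measurable f2 := by
    have := measurable_Rs (d := d) {i1, i0}
    simp only [hf2]
    fun_prop
  have s1 : ∀ x, ∫⁻ y : UnitAddCircle, f (update x i0 y) ≤ f1 x := by
    intro x
    have : ∀ y, f (update x i0 y) = ENNReal.ofReal (ker η (c2 y - (E - Rs {i0} x))) := by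
      intro y
      simp only [hf]
      rw [Rs_update (by simp), show (insert i0 ∅ : Finset (Fin d)) = {i0} from rfl]
      congr 2
      ring
    simp_rw [this]
    refine (lintegral_P hη _).trans (le_of_eq ?_)
    simp only [hf1]
    rw [show E - Rs {i0} x - 2 = E - 2 - Rs {i0} x by ring,
      show E - Rs {i0} x + 2 = E + 2 - Rs {i0} x by ring]
  have s2 : ∀ x, ∫⁻ y : UnitAddCircle, f1 (update x i1 y) ≤ f2 x := by
    intro x
    have h : ∀ y, Rs {i0} (update x i1 y) = c2 y + Rs {i1, i0} x := by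
      intro y; rw [Rs_update (by simp [h01.symm])]
    simp only [hf1, h]
    rw [lintegral_const_mul _ (by fun_prop), lintegral_add_left (by fun_prop)]
    simp only [hf2]
    gcongr
    · have := lintegral_Q (E - 2 - Rs {i1, i0} x)
      have e1 : ∀ y, E - 2 - Rs {i1, i0} x - c2 y = E - 2 - (c2 y + Rs {i1, i0} x) := fun y => by ring
      simp_rw [e1] at this
      refine this.trans (le_of_eq ?_)
      congr 3 <;> ring
    · have := lintegral_Q (E + 2 - Rs {i1, i0} x)
      have e1 : ∀ y, E + 2 - Rs {i1, i0} x - c2 y = E + 2 - (c2 y + Rs {i1, i0} x) := fun y => by ring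
      simp_rw [e1] at this
      refine this.trans (le_of_eq ?_)
      congr 3 <;> ring
  have s3 : ∀ x, ∫⁻ y : UnitAddCircle, f2 (update x i2 y) ≤ ENNReal.ofReal π * 128 := by
    intro x
    have h : ∀ y, Rs {i1, i0} (update x i2 y) = c2 y + Rs {i2, i1, i0} x := by
      intro y; rw [Rs_update (by simp [h02.symm, h12.symm])]
    simp only [hf2, h]
    have hR : ∀ b : ℝ, ∫⁻ y : UnitAddCircle, W (1/4) (b - (c2 y + Rs {i2, i1, i0} x)) ≤ 4 := by
      intro b
      have := lintegral_R (b - Rs {i2, i1, i0} x)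
      have e1 : ∀ y, b - Rs {i2, i1, i0} x - c2 y = b - (c2 y + Rs {i2, i1, i0} x) := fun y => by ring
      simp_rw [e1] at this
      exact this
    rw [lintegral_const_mul _ (by fun_prop), lintegral_add_left (by fun_prop),
      lintegral_const_mul _ (by fun_prop), lintegral_const_mul _ (by fun_prop),
      lintegral_add_left (by fun_prop), lintegral_add_left (by fun_prop)]
    calc _ ≤ ENNReal.ofReal π * (8 * (4 + 4) + 8 * (4 + 4)) := by
          gcongr <;> apply hR
      _ = ENNReal.ofReal π * 128 := by norm_num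
  have hvol : ∫⁻ θ : UnitAddTorus (Fin d), ENNReal.ofReal (ker η ((∑ i, c2 (θ i)) - E)) =
      ∫⁻ θ, f θ ∂(Measure.pi (fun _ : Fin d => (volume : Measure UnitAddCircle))) := by
    have : ∀ θ : Fin d → UnitAddCircle, f θ = ENNReal.ofReal (ker η ((∑ i, c2 (θ i)) - E)) := by
      intro θ
      simp only [hf, Rs, Finset.compl_empty]
    simp_rw [this]
    rfl
  rw [hvol]
  set μ : ∀ _ : Fin d, Measure UnitAddCircle := fun _ => volume with hμ
  have key : ∫⋯∫⁻_({i0, i1, i2} : Finset (Fin d)), f ∂μ ≤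
      ∫⋯∫⁻_({i0, i1, i2} : Finset (Fin d)), (fun _ => ENNReal.ofReal π * 128) ∂μ := by
    have e3 : ∫⋯∫⁻_({i0, i1, i2} : Finset (Fin d)), (fun _ => ENNReal.ofReal π * 128) ∂μ =
        fun _ => ENNReal.ofReal π * 128 := by
      funext x
      simp only [lmarginal, lintegral_const, measure_univ, mul_one]
    rw [e3]
    calc ∫⋯∫⁻_({i0, i1, i2} : Finset (Fin d)), f ∂μ
        = ∫⋯∫⁻_({i1, i2} : Finset (Fin d)),
          (fun x ↦ ∫⁻ y, f (update x i0 y) ∂μ i0) ∂μ :=
          lmarginal_insert' f hfm (by simp [h01, h02])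
      _ ≤ ∫⋯∫⁻_({i1, i2} : Finset (Fin d)), f1 ∂μ := lmarginal_mono s1
      _ = ∫⋯∫⁻_({i2} : Finset (Fin d)),
          (fun x ↦ ∫⁻ y, f1 (update x i1 y) ∂μ i1) ∂μ :=
          lmarginal_insert' f1 hf1m (by simp [h12])
      _ ≤ ∫⋯∫⁻_({i2} : Finset (Fin d)), f2 ∂μ := lmarginal_mono s2
      _ = fun x ↦ ∫⁻ y, f2 (update x i2 y) ∂μ i2 := lmarginal_singleton f2 i2
      _ ≤ fun _ => ENNReal.ofReal π * 128 := s3
  have := lintegral_le_of_lmarginal_le (μ := μ) {i0, i1, i2} hfm measurable_const key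
  refine this.trans (le_of_eq ?_)
  rw [lintegral_const, measure_univ, mul_one]

end Pool.Agent.Anderson
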