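import Pool.Agent.Helper17_Anderson.Defs

/-!
# The Laplacian as a bounded symmetric operator on `ℓ²(ℤ^d)`
-/

set_option autoImplicit false

open scoped ENNReal InnerProductSpace ComplexConjugate

noncomputable section

namespace Pool.Agent.Anderson

variable {d : ℕ}

theorem two_pos : 0 < (2 : ℝ≥0∞).toReal := by norm_num

theorem memℓp_iff (f : Site d → ℂ) : Memℓp f 2 ↔ Summable fun x => ‖f x‖ ^ 2 := by
  rw [memℓp_gen_iff two_pos]
  simp

theorem L2.summable_sq (f : L2 d) : Summable fun x => ‖f x‖ ^ 2 := (memℓp_iff _).1 (lp.memℓp f)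

theorem L2.norm_sq (f : L2 d) : ‖f‖ ^ 2 = ∑' x, ‖f x‖ ^ 2 := by
  have := lp.norm_rpow_eq_tsum two_pos f
  simpa using this

theorem shift_mem (e : Site d) (f : L2 d) : Memℓp (fun y => f (y + e)) 2 := by
  rw [memℓp_iff]
  have h := (L2.summable_sq f).comp_injective (add_left_injective e)
  exact h

/-- translation by `e` -/
def shift (e : Site d) : L2 d →ₗᵢ[ℂ] L2 d where
  toFun f := ⟨fun y => f (y + e), shift_mem e f⟩
  map_add' f g := by
    ext y; rfl
  map_smul' c f := by
    ext y; rfl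
  norm_map' f := by
    have h : ∀ g h : L2 d, ‖g‖ ^ 2 = ‖h‖ ^ 2 → ‖g‖ = ‖h‖ := by
      intro g h hgh
      nlinarith [norm_nonneg g, norm_nonneg h, sq_nonneg (‖g‖ - ‖h‖)]
    apply h
    rw [L2.norm_sq, L2.norm_sq]
    exact (Equiv.addRight e).tsum_eq (fun x => ‖f x‖ ^ 2)

theorem shift_apply (e : Site d) (f : L2 d) (y : Site d) : shift e f y = f (y + e) := rfl

theorem inner_shift (e : Site d) (f g : L2 d) :
    ⟪shift e f, g⟫_ℂ = ⟪f, shift (-e) g⟫_ℂ := by
  rw [lp.inner_eq_tsum, lp.inner_eq_tsum,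
    ← (Equiv.addRight (-e)).tsum_eq (fun x => ⟪shift e f x, g x⟫_ℂ)]
  apply tsum_congr
  intro x
  simp only [Equiv.coe_addRight, shift_apply]
  rw [neg_add_cancel_right]

/-- The Laplacian as a continuous linear map. -/
def Lap (d : ℕ) : L2 d →L[ℂ] L2 d :=
  ∑ i : Fin d, ((shift (Pi.single i 1)).toContinuousLinearMap +
    (shift (-Pi.single i 1)).toContinuousLinearMap)

theorem coe_sum_apply {ι : Type*} (s : Finset ι) (F : ι → L2 d) (x : Site d) :
    (∑ i ∈ s, F i : L2 d) x = ∑ i ∈ s, F i x := by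
  rw [lp.coeFn_sum, Finset.sum_apply]

theorem Lap_apply (f : L2 d) (x : Site d) : Lap d f x = lap f x := by
  unfold Lap lap
  rw [ContinuousLinearMap.sum_apply, coe_sum_apply]
  apply Finset.sum_congr rfl
  intro i _
  rfl

theorem inner_Lap (f g : L2 d) : ⟪Lap d f, g⟫_ℂ = ⟪f, Lap d g⟫_ℂ := by
  unfold Lap
  rw [ContinuousLinearMap.sum_apply, ContinuousLinearMap.sum_apply, sum_inner, inner_sum]
  apply Finset.sum_congr rfl
  intro i _
  simp only [ContinuousLinearMap.add_apply, LinearIsometry.coe_toContinuousLinearMap,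
    inner_add_left, inner_add_right]
  rw [inner_shift, inner_shift, neg_neg, add_comm]

/-- the unit vector at `x` -/
def del (x : Site d) : L2 d := lp.single 2 x (1 : ℂ)

theorem del_apply (x y : Site d) : del x y = if y = x then 1 else 0 := by
  unfold del
  rw [lp.single_apply, Pi.single_apply]

theorem norm_del (x : Site d) : ‖del x‖ = 1 := by
  unfold del
  rw [lp.norm_single (by norm_num), norm_one]

theorem inner_del_left (x : Site d) (f : L2 d) : ⟪del x, f⟫_ℂ = f x := by
  unfold del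
  rw [lp.inner_single_left, RCLike.inner_apply, map_one, mul_one]

theorem inner_del_right (x : Site d) (f : L2 d) : ⟪f, del x⟫_ℂ = conj (f x) := by
  unfold del
  rw [lp.inner_single_right, RCLike.inner_apply, one_mul]

/-- If `h y = V y * w y` and `k y = V y * v y` in `ℓ²`, then `⟪v, h⟫ = ⟪k, w⟫`. -/
theorem inner_mul_symm {V : Site d → ℝ} {v w h k : L2 d}
    (hh : ∀ y, h y = V y * w y) (hk : ∀ y, k y = V y * v y) : ⟪v, h⟫_ℂ = ⟪k, w⟫_ℂ := by
  rw [lp.inner_eq_tsum, lp.inner_eq_tsum]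
  apply tsum_congr
  intro y
  rw [RCLike.inner_apply, RCLike.inner_apply, hh, hk, map_mul, Complex.conj_ofReal]
  ring

end Pool.Agent.Anderson
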