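import Pool.Agent.Helper17_Anderson.Site

/-!
# Choice of parameters
-/

set_option autoImplicit false

open MeasureTheory Set Real Function Matrix ProbabilityTheory

open scoped ENNReal ComplexConjugate ComplexOrder

noncomputable section

namespace Pool.Agent.Anderson

variable {d : ℕ}

/-- exponent parameter -/
def kk (d M : ℕ) : ℕ := (2 * d + 2 + M * d + M) + 9 ^ d * (4 * d + 7)

/-- the constant in `η = A σ² L³` -/
def AA (d M : ℕ) : ℝ := rexp 1 * (32 * kk d M * (kk d M + 1) * (1 + 1024 * π))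

theorem kk_pos (d M : ℕ) : 1 ≤ kk d M := by
  unfold kk
  have : 1 ≤ 9 ^ d * (4 * d + 7) := Nat.one_le_iff_ne_zero.2 (by positivity)
  omega

theorem AA_ge (d M : ℕ) : 2 * (kk d M : ℝ) ≤ AA d M ∧ 1 ≤ AA d M := by
  have hk : (1:ℝ) ≤ kk d M := by exact_mod_cast kk_pos d M
  have hpi := Real.pi_pos
  have he : 1 ≤ rexp 1 := Real.one_le_exp zero_le_one
  have h1 : 2 * (kk d M : ℝ) ≤ 32 * kk d M * (kk d M + 1) * (1 + 1024 * π) := by
    have h2 : (1:ℝ) ≤ (kk d M + 1) * (1 + 1024 * π) := by nlinarith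
    nlinarith
  have h2 : 2 * (kk d M : ℝ) ≤ AA d M := by
    unfold AA
    nlinarith
  exact ⟨h2, by linarith⟩

variable {Ω : Type*} [MeasurableSpace Ω] {P : Measure Ω} [IsProbabilityMeasure P]
  {ξ : Site d → Ω → ℝ}

set_option maxHeartbeats 1000000 in
/-- probability bound at one site with the parameters plugged in -/
theorem prob_site (hd : 3 ≤ d) (M : ℕ) (hm : ∀ y, Measurable (ξ y))
    (hlaw : ∀ y, P.map (ξ y) = gaussianReal 0 1) (hind : iIndepFun ξ P)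
    {σ : ℝ} (hσ : 0 < |σ|) (hσ1 : |σ| ≤ 1)
    (hη : 0 < AA d M * |σ| ^ 2 * (1 + Real.log (1 / |σ|)) ^ 3)
    (hη1 : AA d M * |σ| ^ 2 * (1 + Real.log (1 / |σ|)) ^ 3 ≤ 1) (x : Site d) :
    P (badS ξ σ (√(2 * kk d M * (1 + Real.log (1 / |σ|)))) x
      (AA d M * |σ| ^ 2 * (1 + Real.log (1 / |σ|)) ^ 3) hη) ≤
      ENNReal.ofReal (|σ| ^ (M * d + M) / 3 ^ d) := by
  set a : ℝ := |σ| with ha
  set l : ℝ := 1 + Real.log (1 / a) with hl
  set k : ℕ := kk d M with hk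
  set A : ℝ := AA d M with hA
  set η : ℝ := A * a ^ 2 * l ^ 3 with hηdef
  have hk1 : (1:ℝ) ≤ k := by exact_mod_cast kk_pos d M
  obtain ⟨hA2, hA1⟩ := AA_ge d M
  rw [← hA] at hA2 hA1
  rw [← hk] at hA2
  have hpi := Real.pi_pos
  have hloga : 0 ≤ Real.log (1 / a) := Real.log_nonneg (by rw [le_div_iff₀ hσ]; linarith)
  have hl1 : 1 ≤ l := by rw [hl]; linarith
  have hl0 : 0 < l := by linarith
  have hlpow : 1 ≤ l ^ 3 := one_le_pow₀ hl1
  have ha2 : a ^ 2 ≤ η := by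
    rw [hηdef]
    have h1 : 1 ≤ A * l ^ 3 := one_le_mul_of_one_le_of_one_le hA1 hlpow
    have h2 : 0 ≤ a ^ 2 := by positivity
    nlinarith
  have hinvη : 1 / η ≤ (1 / a) ^ 2 := by
    rw [_root_.one_div_pow]
    exact one_div_le_one_div_of_le (by positivity) ha2
  have hlogη : Real.log (1 / η) ≤ 2 * Real.log (1 / a) := by
    have h1 := Real.log_le_log (by positivity) hinvη
    rw [Real.log_pow] at h1
    exact_mod_cast h1
  have hlogη0 : 0 ≤ Real.log (1 / η) := Real.log_nonneg (by rw [le_div_iff₀ hη]; linarith)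
  set R : ℝ := √(2 * k * l) with hR
  have hR0 : 0 ≤ R := Real.sqrt_nonneg _
  have hR2 : R ^ 2 = 2 * k * l := Real.sq_sqrt (by positivity)
  set p : ℕ := ⌈(k : ℝ) * l⌉₊ with hp
  have hkl : 1 ≤ (k : ℝ) * l := one_le_mul_of_one_le_of_one_le hk1 hl1
  have hp1 : 1 ≤ p := Nat.one_le_ceil_iff.2 (by linarith)
  have hpge : (k : ℝ) * l ≤ p := Nat.le_ceil _
  have hple : (p : ℝ) ≤ (k + 1) * l := by
    have := (Nat.ceil_lt_add_one (by positivity : (0:ℝ) ≤ (k : ℝ) * l)).le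
    rw [← hp] at this
    nlinarith
  have hexp : rexp (-((k : ℝ) * l)) = rexp (-k) * a ^ k := by
    rw [hl, mul_add, mul_one, neg_add, Real.exp_add]
    congr 1
    rw [one_div, Real.log_inv, mul_neg, neg_neg, Real.exp_nat_mul, Real.exp_log hσ]
  have hmain := prob_badS (σ := σ) hd hm hlaw hind hη hη1 hR0 x hp1
  refine hmain.trans (ENNReal.ofReal_le_ofReal ?_)
  -- first exponential
  have e1 : rexp (-(R ^ 2 / 2)) = rexp (-k) * a ^ k := by
    rw [← hexp, hR2]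
    congr 1; ring
  -- the ratio
  have e2 : 8 * p * ((|σ| * R) ^ 2 * ((1 + 1024 * π) * (1 + Real.log (1 / η))) * η⁻¹) ≤
      rexp (-1) := by
    rw [← ha, mul_pow, hR2]
    have h1 : 1 + Real.log (1 / η) ≤ 2 * l := by rw [hl]; linarith
    have h2 : (p : ℝ) * (1 + Real.log (1 / η)) ≤ ((k + 1) * l) * (2 * l) :=
      mul_le_mul hple h1 (by linarith) (by positivity)
    have h3 : 8 * (p:ℝ) * (a ^ 2 * (2 * k * l) * ((1 + 1024 * π) * (1 + Real.log (1 / η))) * η⁻¹) =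
        (8 * a ^ 2 * (2 * k * l) * (1 + 1024 * π) * η⁻¹) * (p * (1 + Real.log (1 / η))) := by ring
    rw [h3]
    have h4 : 0 ≤ 8 * a ^ 2 * (2 * k * l) * (1 + 1024 * π) * η⁻¹ := by positivity
    refine (mul_le_mul_of_nonneg_left h2 h4).trans (le_of_eq ?_)
    rw [hηdef, hA]
    unfold AA
    rw [← hk, Real.exp_neg]
    have hkne : (k : ℝ) ≠ 0 := by positivity
    have hk1ne : (k : ℝ) + 1 ≠ 0 := by positivity
    field_simp
    ring
  have e3 : (8 * p * ((|σ| * R) ^ 2 * ((1 + 1024 * π) * (1 + Real.log (1 / η))) * η⁻¹)) ^ p ≤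
      rexp (-k) * a ^ k := by
    have h0 : 0 ≤ 8 * p * ((|σ| * R) ^ 2 * ((1 + 1024 * π) * (1 + Real.log (1 / η))) * η⁻¹) := by
      positivity
    refine (pow_le_pow_left₀ h0 e2 p).trans ?_
    rw [← Real.exp_nat_mul, ← hexp]
    apply Real.exp_le_exp.2
    linarith
  -- box size
  have hfl : ((⌊1 / η⌋₊ : ℕ) : ℝ) ≤ 1 / η := Nat.floor_le (by positivity)
  have hη1' : 1 ≤ 1 / η := by rw [le_div_iff₀ hη]; linarith
  have e4 : (2 * (⌊1 / η⌋₊ : ℝ) + 1) ^ d ≤ 3 ^ d * (1 / a) ^ (2 * d) := by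
    rw [pow_mul, ← mul_pow]
    apply pow_le_pow_left₀ (by positivity)
    linarith
  have e5 : (netJ d η : ℝ) ≤ (4 * d + 5) * (1 / a) ^ 2 := by
    unfold netJ
    push_cast
    have h1 : ((⌊(4 * (d:ℝ) + 4) / η⌋₊ : ℕ) : ℝ) ≤ (4 * d + 4) / η := Nat.floor_le (by positivity)
    have h2 : (4 * (d:ℝ) + 4) / η = (4 * d + 4) * (1 / η) := by ring
    have h3 : (4 * (d:ℝ) + 4) * (1 / η) ≤ (4 * d + 4) * (1 / a) ^ 2 :=
      mul_le_mul_of_nonneg_left hinvη (by positivity)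
    have h4 : 1 ≤ (1 / a) ^ 2 := hη1'.trans hinvη
    nlinarith
  have hq0 : 0 ≤ rexp (-k) * a ^ k := by positivity
  have hia : 1 ≤ (1 / a) ^ 2 := hη1'.trans hinvη
  have e6 : 2 * rexp (-(R ^ 2 / 2)) + netJ d η *
      (8 * p * ((|σ| * R) ^ 2 * ((1 + 1024 * π) * (1 + Real.log (1 / η))) * η⁻¹)) ^ p ≤
      (4 * d + 7) * (1 / a) ^ 2 * (rexp (-k) * a ^ k) := by
    rw [e1]
    have e3' := e3
    have hT0 : 0 ≤ (8 * p * ((|σ| * R) ^ 2 * ((1 + 1024 * π) * (1 + Real.log (1 / η))) * η⁻¹)) ^ p := by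
      positivity
    generalize (8 * p * ((|σ| * R) ^ 2 * ((1 + 1024 * π) * (1 + Real.log (1 / η))) * η⁻¹)) ^ p = T
      at e3' hT0 ⊢
    have hq0' := hq0
    generalize rexp (-k) * a ^ k = q at e3' hq0' ⊢
    have hia' := hia
    have e5' := e5
    generalize (1 / a) ^ 2 = ia at hia' e5' ⊢
    have h1 : (netJ d η : ℝ) * T ≤ ((4 * d + 5) * ia) * q :=
      mul_le_mul e5' e3' hT0 (by positivity)
    have h2 : 2 * q ≤ 2 * (ia * q) := by
      have := mul_le_mul_of_nonneg_right hia' hq0'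
      linarith
    calc 2 * q + netJ d η * T ≤ 2 * (ia * q) + ((4 * d + 5) * ia) * q := add_le_add h2 h1
      _ = _ := by ring
  calc (2 * (⌊1 / η⌋₊ : ℝ) + 1) ^ d * (2 * rexp (-(R ^ 2 / 2)) + netJ d η *
      (8 * p * ((|σ| * R) ^ 2 * ((1 + 1024 * π) * (1 + Real.log (1 / η))) * η⁻¹)) ^ p)
      ≤ (3 ^ d * (1 / a) ^ (2 * d)) * ((4 * d + 7) * (1 / a) ^ 2 * (rexp (-k) * a ^ k)) := by
        apply mul_le_mul e4 e6 _ (by positivity)
        positivity
    _ = (3 ^ d * (4 * d + 7)) * rexp (-k) * ((1 / a) ^ (2 * d + 2) * a ^ k) := by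
        rw [pow_add (1 / a) (2 * d) 2]
        ring
    _ ≤ (1 / 3 ^ d) * (a ^ (M * d + M)) := by
        have h1 : (1 / a) ^ (2 * d + 2) * a ^ k ≤ a ^ (M * d + M) := by
          have h2 : k = (2 * d + 2) + ((M * d + M) + 9 ^ d * (4 * d + 7)) := by
            rw [hk]; unfold kk; ring
          rw [h2, pow_add a (2 * d + 2), ← mul_assoc, ← mul_pow, one_div_mul_cancel hσ.ne', one_pow,
            one_mul]
          exact pow_le_pow_of_le_one hσ.le hσ1 (by omega)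
        have h2 : (3 ^ d * (4 * d + 7)) * rexp (-k) ≤ 1 / 3 ^ d := by
          rw [Real.exp_neg, ← div_eq_mul_inv, div_le_div_iff₀ (by positivity) (by positivity),
            one_mul]
          have h3 : ((9:ℝ) ^ d * (4 * d + 7)) ≤ k := by
            have : 9 ^ d * (4 * d + 7) ≤ k := by rw [hk]; unfold kk; omega
            exact_mod_cast this
          have h4 : (k : ℝ) + 1 ≤ rexp k := Real.add_one_le_exp _
          have h5 : (3:ℝ) ^ d * (4 * d + 7) * 3 ^ d = 9 ^ d * (4 * d + 7) := by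
            rw [show (9:ℝ) = 3 * 3 by norm_num, mul_pow]; ring
          linarith
        exact mul_le_mul h2 h1 (by positivity) (by positivity)
    _ = _ := by ring

end Pool.Agent.Anderson
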