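import Pool.Agent.Helper17_Anderson.Khintchine

/-!
# From traces to operator bounds; square roots
-/

set_option autoImplicit false

open Matrix
open scoped ComplexConjugate ComplexOrder

noncomputable section

namespace Pool.Agent.Anderson

variable {n : Type*} [Fintype n] [DecidableEq n]

/-- squared Euclidean norm of a finite vector -/
def nsq (v : n → ℂ) : ℝ := ∑ i, ‖v i‖ ^ 2

omit [DecidableEq n] in
theorem nsq_nonneg (v : n → ℂ) : 0 ≤ nsq v := Finset.sum_nonneg fun i _ => by positivity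

omit [DecidableEq n] in
theorem star_dot_self (v : n → ℂ) : star v ⬝ᵥ v = (nsq v : ℂ) := by
  unfold nsq dotProduct
  push_cast
  apply Finset.sum_congr rfl
  intro i _
  have := Complex.mul_conj (v i)
  rw [Complex.normSq_eq_norm_sq] at this
  rw [Pi.star_apply, mul_comm]
  push_cast at this
  exact this

theorem nsq_mulVec_unitary {U : Matrix n n ℂ} (hU : Uᴴ * U = 1) (v : n → ℂ) :
    nsq (U *ᵥ v) = nsq v := by
  have h1 := star_dot_self (U *ᵥ v)
  rw [star_mulVec, ← dotProduct_mulVec, mulVec_mulVec, hU, one_mulVec, star_dot_self] at h1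
  exact_mod_cast h1.symm

theorem op_of_trace {X : Matrix n n ℂ} (hX : X.IsHermitian) {p : ℕ} (hp : 1 ≤ p) {ρ : ℝ}
    (hρ : 0 ≤ ρ) (h : (X ^ (2 * p)).trace.re ≤ ρ ^ (2 * p)) (v : n → ℂ) :
    nsq (X *ᵥ v) ≤ ρ ^ 2 * nsq v := by
  obtain ⟨U, l, hU1, hU2, hXU, -⟩ := exists_diag hX
  have htr : (X ^ (2 * p)).trace.re = ∑ i, l i ^ (2 * p) := by
    rw [hXU, diag_pow hU2 hU1, Matrix.trace_mul_comm, ← Matrix.mul_assoc, hU2, Matrix.one_mul,
      Matrix.trace_diagonal, Complex.re_sum]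
    simp only [Complex.ofReal_re]
  have hl : ∀ i, l i ^ 2 ≤ ρ ^ 2 := by
    intro i
    have h1 : l i ^ (2 * p) ≤ ∑ i, l i ^ (2 * p) :=
      Finset.single_le_sum (f := fun i => l i ^ (2 * p))
        (fun j _ => by rw [pow_mul]; positivity) (Finset.mem_univ i)
    have h2 : (l i ^ 2) ^ p ≤ (ρ ^ 2) ^ p := by
      rw [← pow_mul, ← pow_mul]
      linarith
    exact le_of_pow_le_pow_left₀ (by omega) (by positivity) h2
  have hUt : (Uᴴ)ᴴ * Uᴴ = 1 := by rw [conjTranspose_conjTranspose, hU1]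
  rw [hXU, ← mulVec_mulVec, ← mulVec_mulVec, nsq_mulVec_unitary hU2]
  calc nsq (diagonal (fun i => (l i : ℂ)) *ᵥ (Uᴴ *ᵥ v)) ≤ ρ ^ 2 * nsq (Uᴴ *ᵥ v) := by
        unfold nsq
        rw [Finset.mul_sum]
        apply Finset.sum_le_sum
        intro i _
        rw [mulVec_diagonal, norm_mul, mul_pow, Complex.norm_real, Real.norm_eq_abs, sq_abs]
        exact mul_le_mul_of_nonneg_right (hl i) (by positivity)
    _ = ρ ^ 2 * nsq v := by rw [nsq_mulVec_unitary hUt]

theorem exists_sqrt {K : Matrix n n ℂ} (hK : K.PosSemidef) :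
    ∃ C : Matrix n n ℂ, C.IsHermitian ∧ C * C = K := by
  obtain ⟨U, l, hU1, hU2, hXU, hl⟩ := exists_diag hK.1
  have hl0 : ∀ i, 0 ≤ l i := fun i => by rw [hl]; exact hK.eigenvalues_nonneg i
  refine ⟨U * diagonal (fun i => ((√(l i) : ℝ) : ℂ)) * Uᴴ, ?_, ?_⟩
  · unfold Matrix.IsHermitian
    rw [conjTranspose_mul, conjTranspose_mul, conjTranspose_conjTranspose, diagonal_conjTranspose,
      ← Matrix.mul_assoc]
    congr 3
    ext y
    simp
  · have := diag_pow (l := fun i => √(l i)) hU2 hU1 2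
    rw [pow_two] at this
    rw [this, hXU]
    congr 3
    ext i
    rw [Real.sq_sqrt (hl0 i)]

end Pool.Agent.Anderson
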