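import Pool.Agent.Helper17_Anderson.Cos
import Pool.Agent.Helper17_Anderson.Ell2
import Pool.Agent.Helper17_Anderson.OpNorm

/-!
# Trigonometric polynomials attached to finitely supported functions
-/

set_option autoImplicit false

open MeasureTheory Set Real Function Matrix

open scoped ENNReal ComplexConjugate

noncomputable section

namespace Pool.Agent.Anderson

local instance haarMS4 : MeasureSpace UnitAddCircle := ⟨AddCircle.haarAddCircle⟩

local instance haarAHFour : Measure.IsAddHaarMeasure (volume : Measure UnitAddCircle) :=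
  inferInstanceAs (Measure.IsAddHaarMeasure AddCircle.haarAddCircle)

local instance haarPMFour : IsProbabilityMeasure (volume : Measure UnitAddCircle) :=
  inferInstanceAs (IsProbabilityMeasure AddCircle.haarAddCircle)

variable {d : ℕ}

/-- the character `θ ↦ e^{2πi y·θ}` -/
def ch (y : Site d) (θ : UnitAddTorus (Fin d)) : ℂ := UnitAddTorus.mFourier y θ

theorem continuous_ch (y : Site d) : Continuous (ch y) := (UnitAddTorus.mFourier y).continuous

theorem ch_add (x y : Site d) (θ : UnitAddTorus (Fin d)) : ch (x + y) θ = ch x θ * ch y θ :=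
  UnitAddTorus.mFourier_add

theorem ch_neg (x : Site d) (θ : UnitAddTorus (Fin d)) : ch (-x) θ = conj (ch x θ) :=
  UnitAddTorus.mFourier_neg

theorem norm_ch (x : Site d) (θ : UnitAddTorus (Fin d)) : ‖ch x θ‖ = 1 := by
  unfold ch
  simp only [UnitAddTorus.mFourier, fourier_apply, ContinuousMap.coe_mk, norm_prod,
    Circle.norm_coe, Finset.prod_const_one]

theorem ch_single (i : Fin d) (θ : UnitAddTorus (Fin d)) : ch (Pi.single i 1) θ = u (θ i) := by
  unfold ch u
  rw [UnitAddTorus.mFourier_single, fourier_one]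

theorem integrable_of_cont {E : Type*} [NormedAddCommGroup E] {f : UnitAddTorus (Fin d) → E}
    (hf : Continuous f) : Integrable f :=
  hf.integrable_of_hasCompactSupport (HasCompactSupport.of_compactSpace f)

theorem integral_ch (x y : Site d) :
    ∫ θ : UnitAddTorus (Fin d), conj (ch x θ) * ch y θ = if x = y then 1 else 0 := by
  have h := (orthonormal_iff_ite.mp (UnitAddTorus.orthonormal_mFourier (d := Fin d))) x y
  rw [← h]
  unfold UnitAddTorus.mFourierLp
  rw [ContinuousMap.inner_toLp]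
  apply integral_congr_ae
  filter_upwards with θ
  unfold ch
  ring

/-- trigonometric polynomial of `w` restricted to `Λ` -/
def hatS (Λ : Finset (Site d)) (w : Site d → ℂ) (θ : UnitAddTorus (Fin d)) : ℂ :=
  ∑ y ∈ Λ, w y * ch y θ

theorem continuous_hatS (Λ : Finset (Site d)) (w : Site d → ℂ) : Continuous (hatS Λ w) := by
  unfold hatS
  apply continuous_finsetSum
  intro y _
  exact continuous_const.mul (continuous_ch y)

/-- trigonometric polynomial of a vector indexed by `Λ` -/
def hatV {Λ : Finset (Site d)} (v : Λ → ℂ) (θ : UnitAddTorus (Fin d)) : ℂ :=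
  ∑ y : Λ, v y * ch (y : Site d) θ

theorem continuous_hatV {Λ : Finset (Site d)} (v : Λ → ℂ) : Continuous (hatV v) := by
  unfold hatV
  apply continuous_finsetSum
  intro y _
  exact continuous_const.mul (continuous_ch _)

theorem hatS_eq_hatV (Λ : Finset (Site d)) (w : Site d → ℂ) (θ : UnitAddTorus (Fin d)) :
    hatS Λ w θ = hatV (fun y : Λ => w y) θ := by
  unfold hatS hatV
  exact (Finset.sum_coe_sort Λ (fun y => w y * ch y θ)).symm

theorem integral_hatV {Λ : Finset (Site d)} (a b : Λ → ℂ) :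
    ∫ θ, conj (hatV a θ) * hatV b θ = ∑ y, conj (a y) * b y := by
  have h1 : ∀ θ, conj (hatV a θ) * hatV b θ =
      ∑ x : Λ, ∑ y : Λ, (conj (a x) * b y) * (conj (ch (x : Site d) θ) * ch (y : Site d) θ) := by
    intro θ
    unfold hatV
    rw [map_sum, Finset.sum_mul_sum]
    apply Finset.sum_congr rfl
    intro x _
    apply Finset.sum_congr rfl
    intro y _
    rw [map_mul]
    ring
  have hint : ∀ x y : Λ, Integrable
      (fun θ => (conj (a x) * b y) * (conj (ch (x : Site d) θ) * ch (y : Site d) θ)) := by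
    intro x y
    apply integrable_of_cont
    have h2 := continuous_ch (x : Site d)
    have h3 := continuous_ch (y : Site d)
    fun_prop
  simp only [h1]
  rw [integral_finsetSum _ (fun x _ => integrable_finsetSum _ fun y _ => hint x y)]
  apply Finset.sum_congr rfl
  intro x _
  rw [integral_finsetSum _ (fun y _ => hint x y), Finset.sum_eq_single x]
  · rw [integral_const_mul, integral_ch, if_pos rfl, mul_one]
  · intro y _ hyx
    rw [integral_const_mul, integral_ch, if_neg, mul_zero]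
    intro h
    exact hyx (Subtype.ext h.symm)
  · simp

theorem parseval {Λ : Finset (Site d)} (a : Λ → ℂ) :
    ∫ θ, ‖hatV a θ‖ ^ 2 = nsq a := by
  have h := integral_hatV a a
  have h1 : ∀ θ, conj (hatV a θ) * hatV a θ = ((‖hatV a θ‖ ^ 2 : ℝ) : ℂ) := by
    intro θ
    rw [mul_comm, Complex.mul_conj, Complex.normSq_eq_norm_sq]
  have h2 : ∀ y, conj (a y) * a y = ((‖a y‖ ^ 2 : ℝ) : ℂ) := by
    intro y
    rw [mul_comm, Complex.mul_conj, Complex.normSq_eq_norm_sq]
  simp only [h1, h2] at h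
  rw [integral_complex_ofReal, ← Complex.ofReal_sum] at h
  exact_mod_cast h

theorem parsevalS (Λ : Finset (Site d)) (w : Site d → ℂ) :
    ∫ θ, ‖hatS Λ w θ‖ ^ 2 = ∑ y ∈ Λ, ‖w y‖ ^ 2 := by
  simp only [hatS_eq_hatV]
  rw [parseval]
  unfold nsq
  exact Finset.sum_coe_sort Λ (fun y => ‖w y‖ ^ 2)

/-- coefficient extraction -/
theorem integral_ch_hatS {Λ : Finset (Site d)} {w : Site d → ℂ} (hw : ∀ y ∉ Λ, w y = 0)
    (x : Site d) : ∫ θ, conj (ch x θ) * hatS Λ w θ = w x := by
  unfold hatS
  simp only [Finset.mul_sum]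
  have hint : ∀ y : Site d, Integrable
      (fun θ => conj (ch x θ) * (w y * ch y θ)) := by
    intro y
    apply integrable_of_cont
    have h2 := continuous_ch x
    have h3 := continuous_ch y
    fun_prop
  rw [integral_finsetSum _ (fun y _ => hint y)]
  have h1 : ∀ y, ∫ θ, conj (ch x θ) * (w y * ch y θ) = w y * (if x = y then 1 else 0) := by
    intro y
    rw [← integral_ch, ← integral_const_mul]
    congr 1
    funext θ
    ring
  simp only [h1, mul_ite, mul_one, mul_zero]
  rw [Finset.sum_ite_eq]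
  split_ifs with h
  · rfl
  · exact (hw x h).symm

theorem hat_shift {Λ Λ' : Finset (Site d)} {w : Site d → ℂ} (hw : ∀ y ∉ Λ, w y = 0)
    (e : Site d) (h : ∀ y ∈ Λ, y - e ∈ Λ') (θ : UnitAddTorus (Fin d)) :
    ∑ y ∈ Λ', w (y + e) * ch y θ = conj (ch e θ) * hatS Λ w θ := by
  classical
  have h1 : Λ.image (fun y => y - e) ⊆ Λ' := by
    intro y hy
    obtain ⟨y', hy', rfl⟩ := Finset.mem_image.1 hy
    exact h y' hy'
  rw [← Finset.sum_subset h1]
  · rw [Finset.sum_image (fun a _ b _ hab => by simpa using hab)]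
    unfold hatS
    rw [Finset.mul_sum]
    apply Finset.sum_congr rfl
    intro y _
    rw [sub_add_cancel, sub_eq_add_neg, ch_add, ch_neg]
    ring
  · intro y _ hy
    rw [hw (y + e), zero_mul]
    intro hye
    apply hy
    exact Finset.mem_image.2 ⟨y + e, hye, by simp⟩

/-- the symbol of the Laplacian -/
def sy (θ : UnitAddTorus (Fin d)) : ℝ := ∑ i, c2 (θ i)

theorem continuous_sy : Continuous (sy (d := d)) := by
  unfold sy
  apply continuous_finsetSum
  intro i _
  exact continuous_c2.comp (continuous_apply i)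

theorem hat_lap {Λ Λ' : Finset (Site d)} {w : Site d → ℂ} (hw : ∀ y ∉ Λ, w y = 0)
    (h : ∀ y ∈ Λ, ∀ i, y - Pi.single i 1 ∈ Λ' ∧ y + Pi.single i 1 ∈ Λ')
    (θ : UnitAddTorus (Fin d)) :
    hatS Λ' (lap w) θ = sy θ * hatS Λ w θ := by
  have h1 : hatS Λ' (lap w) θ = ∑ i : Fin d, (∑ y ∈ Λ', w (y + Pi.single i 1) * ch y θ +
      ∑ y ∈ Λ', w (y + -Pi.single i 1) * ch y θ) := by
    unfold hatS lap
    simp only [Finset.sum_mul, add_mul, ← sub_eq_add_neg]
    rw [Finset.sum_comm]
    simp only [Finset.sum_add_distrib]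
  rw [h1]
  unfold sy
  rw [Complex.ofReal_sum, Finset.sum_mul]
  apply Finset.sum_congr rfl
  intro i _
  rw [hat_shift hw _ (fun y hy => (h y hy i).1),
    hat_shift hw (-Pi.single i 1) (fun y hy => by rw [sub_neg_eq_add]; exact (h y hy i).2),
    ch_neg, Complex.conj_conj, ch_single, ← add_mul]
  congr 1
  unfold c2
  rw [add_comm, Complex.add_conj]

/-- `|e(θ) - E - iη|` -/
def md (E η : ℝ) (θ : UnitAddTorus (Fin d)) : ℝ := √((sy θ - E) ^ 2 + η ^ 2)

theorem continuous_md (E η : ℝ) : Continuous (md (d := d) E η) := by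
  unfold md
  have := continuous_sy (d := d)
  fun_prop

theorem md_ge {E η : ℝ} (hη : 0 < η) (θ : UnitAddTorus (Fin d)) : η ≤ md E η θ := by
  unfold md
  apply Real.le_sqrt_of_sq_le
  nlinarith [sq_nonneg (sy θ - E)]

theorem md_pos {E η : ℝ} (hη : 0 < η) (θ : UnitAddTorus (Fin d)) : 0 < md E η θ :=
  lt_of_lt_of_le hη (md_ge hη θ)

theorem norm_sy_sub (E η : ℝ) (θ : UnitAddTorus (Fin d)) :
    ‖((sy θ : ℝ) : ℂ) - (E + η * Complex.I)‖ = md E η θ := by
  unfold md
  rw [show ((sy θ : ℝ) : ℂ) - (E + η * Complex.I) = ((sy θ - E : ℝ) : ℂ) + ((-η : ℝ) : ℂ) * Complex.I by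
    push_cast; ring, Complex.norm_add_mul_I]
  congr 1
  ring

/-- the kernel matrix of `|Δ - E - iη|⁻¹` on `Λ` -/
def Kmat (Λ : Finset (Site d)) (E η : ℝ) : Matrix Λ Λ ℂ :=
  fun x y => ∫ θ, conj (ch (x : Site d) θ) * ((md E η θ)⁻¹ : ℝ) * ch (y : Site d) θ

/-- the diagonal entry -/
def kap (d : ℕ) (E η : ℝ) : ℝ := ∫ θ : UnitAddTorus (Fin d), (md E η θ)⁻¹

theorem Kmat_form (Λ : Finset (Site d)) {E η : ℝ} (hη : 0 < η) (v : Λ → ℂ) :
    star v ⬝ᵥ (Kmat Λ E η *ᵥ v) = ((∫ θ, (md E η θ)⁻¹ * ‖hatV v θ‖ ^ 2 : ℝ) : ℂ) := by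
  have hc : Continuous fun θ : UnitAddTorus (Fin d) => (md E η θ)⁻¹ :=
    (continuous_md E η).inv₀ (fun θ => (md_pos hη θ).ne')
  have hint : ∀ x y : Λ, Integrable (fun θ => (conj (v x) * v y) *
      (conj (ch (x : Site d) θ) * ((md E η θ)⁻¹ : ℝ) * ch (y : Site d) θ)) := by
    intro x y
    apply integrable_of_cont
    have h2 := continuous_ch (x : Site d)
    have h3 := continuous_ch (y : Site d)
    fun_prop
  rw [← integral_complex_ofReal]
  have h1 : ∀ θ, (((md E η θ)⁻¹ * ‖hatV v θ‖ ^ 2 : ℝ) : ℂ) = ∑ x : Λ, ∑ y : Λ,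
      (conj (v x) * v y) * (conj (ch (x : Site d) θ) * ((md E η θ)⁻¹ : ℝ) * ch (y : Site d) θ) := by
    intro θ
    have h2 : ((‖hatV v θ‖ ^ 2 : ℝ) : ℂ) = conj (hatV v θ) * hatV v θ := by
      rw [mul_comm, Complex.mul_conj, Complex.normSq_eq_norm_sq]
    rw [Complex.ofReal_mul, h2]
    unfold hatV
    rw [map_sum, Finset.sum_mul_sum, Finset.mul_sum]
    apply Finset.sum_congr rfl
    intro x _
    rw [Finset.mul_sum]
    apply Finset.sum_congr rfl
    intro y _
    rw [map_mul]
    ring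
  simp only [h1]
  rw [integral_finsetSum _ (fun x _ => integrable_finsetSum _ fun y _ => hint x y)]
  unfold dotProduct
  apply Finset.sum_congr rfl
  intro x _
  rw [integral_finsetSum _ (fun y _ => hint x y)]
  simp only [mulVec, dotProduct, Pi.star_apply, Finset.mul_sum]
  apply Finset.sum_congr rfl
  intro y _
  rw [integral_const_mul]
  unfold Kmat
  simp only [Complex.star_def]
  ring

end Pool.Agent.Anderson
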