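import Pool.Agent.Helper17_Anderson.Det
import Pool.Agent.Helper17_Anderson.Dos

/-!
# Logarithmic bound for the diagonal of `|Δ - z|⁻¹`
-/

set_option autoImplicit false

open MeasureTheory Set Real Function Matrix

open scoped ENNReal ComplexConjugate ComplexOrder

noncomputable section

namespace Pool.Agent.Anderson

local instance haarMS6 : MeasureSpace UnitAddCircle := ⟨AddCircle.haarAddCircle⟩

local instance haarAHKappa : Measure.IsAddHaarMeasure (volume : Measure UnitAddCircle) :=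
  inferInstanceAs (Measure.IsAddHaarMeasure AddCircle.haarAddCircle)

local instance haarPMKappa : IsProbabilityMeasure (volume : Measure UnitAddCircle) :=
  inferInstanceAs (IsProbabilityMeasure AddCircle.haarAddCircle)

variable {d : ℕ}

theorem continuous_ker {η : ℝ} (hη : 0 < η) : Continuous (ker η) := by
  unfold ker
  apply continuous_const.div (by fun_prop)
  intro x
  positivity

theorem integral_ker_le (hd : 3 ≤ d) {η : ℝ} (hη : 0 < η) (E : ℝ) :
    ∫ θ : UnitAddTorus (Fin d), ker η (sy θ - E) ≤ 128 * π := by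
  have hc : Continuous fun θ : UnitAddTorus (Fin d) => ker η (sy θ - E) := by
    have h1 := continuous_ker hη
    have h2 := continuous_sy (d := d)
    fun_prop
  rw [integral_eq_lintegral_of_nonneg_ae (Filter.Eventually.of_forall fun θ => ker_nonneg hη _)
    hc.aestronglyMeasurable]
  apply ENNReal.toReal_le_of_le_ofReal (by positivity)
  refine (dos_bound hd hη E).trans (le_of_eq ?_)
  rw [mul_comm 128 π, ENNReal.ofReal_mul Real.pi_pos.le]
  norm_num

theorem inv_sqrt_le {η : ℝ} (hη : 0 < η) {n : ℕ} (hn : 1 ≤ 2 ^ n * η) (x : ℝ) :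
    (√(x ^ 2 + η ^ 2))⁻¹ ≤ 1 + 4 * ∑ k ∈ Finset.range (n + 1), ker (2 ^ k * η) x := by
  have hkn : ∀ k : ℕ, 0 ≤ ker (2 ^ k * η) x := fun k => ker_nonneg (by positivity) x
  have hsum : 0 ≤ ∑ k ∈ Finset.range (n + 1), ker (2 ^ k * η) x :=
    Finset.sum_nonneg fun k _ => hkn k
  have hs : |x| ≤ √(x ^ 2 + η ^ 2) := by
    apply Real.le_sqrt_of_sq_le
    rw [sq_abs]; nlinarith
  have hs2 : η ≤ √(x ^ 2 + η ^ 2) := by
    apply Real.le_sqrt_of_sq_le
    nlinarith [sq_nonneg x]
  rcases le_or_gt |x| 1 with hx | hx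
  · -- minimal k
    have hex : ∃ k : ℕ, |x| ≤ 2 ^ k * η := ⟨n, hx.trans hn⟩
    classical
    set k := Nat.find hex with hk
    have hk1 : |x| ≤ 2 ^ k * η := Nat.find_spec hex
    have hkle : k ≤ n := Nat.find_min' hex (hx.trans hn)
    have hker : 1 / (2 * (2 ^ k * η)) ≤ ker (2 ^ k * η) x := by
      unfold ker
      rw [div_le_div_iff₀ (by positivity) (by positivity)]
      have : x ^ 2 ≤ (2 ^ k * η) ^ 2 := by
        rw [← sq_abs]; exact pow_le_pow_left₀ (abs_nonneg _) hk1 2
      nlinarith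
    have hone : ker (2 ^ k * η) x ≤ ∑ k ∈ Finset.range (n + 1), ker (2 ^ k * η) x :=
      Finset.single_le_sum (f := fun k => ker (2 ^ k * η) x) (fun j _ => hkn j)
        (Finset.mem_range.2 (by omega))
    have hmain : (√(x ^ 2 + η ^ 2))⁻¹ ≤ 4 * (1 / (2 * (2 ^ k * η))) := by
      rcases Nat.eq_zero_or_pos k with h0 | h0
      · rw [h0, pow_zero, one_mul]
        have h1 : (√(x ^ 2 + η ^ 2))⁻¹ ≤ η⁻¹ := inv_anti₀ hη hs2
        have h2 : 4 * (1 / (2 * η)) = 2 * η⁻¹ := by field_simp; norm_num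
        rw [h2]
        have := inv_pos.2 hη
        linarith
      · have h1 : ¬ |x| ≤ 2 ^ (k - 1) * η := Nat.find_min hex (by omega)
        push Not at h1
        have h2 : (2:ℝ) ^ k = 2 * 2 ^ (k - 1) := by
          rw [← pow_succ']; congr 1; omega
        have hp : 0 < 2 ^ (k - 1) * η := by positivity
        have h3 : (√(x ^ 2 + η ^ 2))⁻¹ ≤ (2 ^ (k - 1) * η)⁻¹ := inv_anti₀ hp (h1.le.trans hs)
        refine h3.trans (le_of_eq ?_)
        rw [h2]
        field_simp
        norm_num
    linarith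
  · have h1 : (√(x ^ 2 + η ^ 2))⁻¹ ≤ 1 := inv_le_one_of_one_le₀ (hx.le.trans hs)
    linarith

theorem kap_le (hd : 3 ≤ d) (E : ℝ) {η : ℝ} (hη : 0 < η) (hη1 : η ≤ 1) :
    kap d E η ≤ (1 + 1024 * π) * (1 + Real.log (1 / η)) := by
  set n : ℕ := ⌈Real.logb 2 (1 / η)⌉₊ with hn
  have hl0 : 0 ≤ Real.log (1 / η) := Real.log_nonneg (by
    rw [le_div_iff₀ hη]; linarith)
  have hn1 : 1 ≤ 2 ^ n * η := by
    have h1 : Real.logb 2 (1 / η) ≤ n := Nat.le_ceil _
    have h2 : (1 / η) ≤ (2:ℝ) ^ (n:ℝ) := by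
      rw [← Real.logb_le_iff_le_rpow (by norm_num) (by positivity)]
      exact h1
    rw [Real.rpow_natCast] at h2
    rw [div_le_iff₀ hη] at h2
    exact h2
  have hn2 : (n : ℝ) + 1 ≤ 2 * (1 + Real.log (1 / η)) := by
    have h1 : (n : ℝ) < Real.logb 2 (1 / η) + 1 := by
      apply Nat.ceil_lt_add_one
      exact Real.logb_nonneg (by norm_num) (by rw [le_div_iff₀ hη]; linarith)
    have h2 : Real.logb 2 (1 / η) ≤ 2 * Real.log (1 / η) := by
      unfold Real.logb
      rw [div_le_iff₀ (Real.log_pos (by norm_num))]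
      have := Real.log_two_gt_d9
      nlinarith
    linarith
  have hc : ∀ k : ℕ, Continuous fun θ : UnitAddTorus (Fin d) => ker (2 ^ k * η) (sy θ - E) := by
    intro k
    have h1 := continuous_ker (η := 2 ^ k * η) (by positivity)
    have h2 := continuous_sy (d := d)
    fun_prop
  have h1 : kap d E η ≤ ∫ θ : UnitAddTorus (Fin d),
      (1 + 4 * ∑ k ∈ Finset.range (n + 1), ker (2 ^ k * η) (sy θ - E)) := by
    unfold kap
    apply integral_mono
    · exact integrable_of_cont (continuous_inv_md hη)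
    · apply integrable_of_cont
      fun_prop
    · intro θ
      exact inv_sqrt_le hη hn1 _
  have h2 : ∫ θ : UnitAddTorus (Fin d),
      (1 + 4 * ∑ k ∈ Finset.range (n + 1), ker (2 ^ k * η) (sy θ - E)) =
      1 + 4 * ∑ k ∈ Finset.range (n + 1), ∫ θ : UnitAddTorus (Fin d), ker (2 ^ k * η) (sy θ - E) := by
    rw [integral_add (integrable_const _), integral_const_mul, integral_finsetSum]
    · simp
    · intro k _
      exact integrable_of_cont (hc k)
    · apply integrable_of_cont
      fun_prop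
  have h3 : ∑ k ∈ Finset.range (n + 1), ∫ θ : UnitAddTorus (Fin d), ker (2 ^ k * η) (sy θ - E) ≤
      (n + 1) * (128 * π) := by
    refine (Finset.sum_le_sum fun k _ => integral_ker_le hd (by positivity) E).trans (le_of_eq ?_)
    rw [Finset.sum_const, Finset.card_range, nsmul_eq_mul]
    push_cast
    ring
  have hpi := Real.pi_pos
  rw [h2] at h1
  have h4 : (n + 1 : ℝ) * (128 * π) ≤ 2 * (1 + Real.log (1 / η)) * (128 * π) :=
    mul_le_mul_of_nonneg_right hn2 (by positivity)
  nlinarith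

end Pool.Agent.Anderson
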