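import Pool.Agent.Helper17_Anderson.Trace

/-!
# A matrix Khintchine inequality for `C diag(± r) C`
-/

set_option autoImplicit false

open Matrix
open scoped ComplexConjugate ComplexOrder

noncomputable section

namespace Pool.Agent.Anderson

variable {n : Type*} [Fintype n] [DecidableEq n]

/-- `C diag(D) C` -/
def XM (C : Matrix n n ℂ) (D : n → ℝ) : Matrix n n ℂ := C * diagonal (fun y => (D y : ℂ)) * C

/-- `C E_{yy} C` -/
def AM (C : Matrix n n ℂ) (y : n) : Matrix n n ℂ := C * Matrix.single y y 1 * C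

theorem XM_eq_sum (C : Matrix n n ℂ) (D : n → ℝ) : XM C D = ∑ y, (D y : ℂ) • AM C y := by
  unfold XM AM
  have : diagonal (fun y => (D y : ℂ)) = ∑ y, (D y : ℂ) • Matrix.single y y (1 : ℂ) := by
    ext i j
    rw [Matrix.sum_apply]
    simp only [Matrix.smul_apply, Matrix.single_apply, Matrix.diagonal_apply, smul_eq_mul]
    by_cases h : i = j
    · subst h
      rw [Finset.sum_eq_single i]
      · simp
      · intro b _ hb; simp [hb]
      · simp
    · rw [if_neg h, Finset.sum_eq_zero]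
      intro b _
      rw [if_neg (by rintro ⟨rfl, rfl⟩; exact h rfl), mul_zero]
  rw [this, Matrix.mul_sum, Matrix.sum_mul]
  apply Finset.sum_congr rfl
  intro y _
  rw [Matrix.mul_smul, Matrix.smul_mul]

theorem XM_herm {C : Matrix n n ℂ} (hC : C.IsHermitian) (D : n → ℝ) : (XM C D).IsHermitian := by
  unfold XM Matrix.IsHermitian
  rw [conjTranspose_mul, conjTranspose_mul, hC.eq, diagonal_conjTranspose, ← Matrix.mul_assoc]
  congr 3
  ext y
  simp

theorem AM_herm {C : Matrix n n ℂ} (hC : C.IsHermitian) (y : n) : (AM C y).IsHermitian := by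
  unfold AM Matrix.IsHermitian
  rw [conjTranspose_mul, conjTranspose_mul, hC.eq, Matrix.conjTranspose_single, star_one,
    ← Matrix.mul_assoc]

theorem AM_sq (C : Matrix n n ℂ) (y : n) : AM C y * AM C y = (C * C) y y • AM C y := by
  unfold AM
  have h : Matrix.single y y (1 : ℂ) * (C * C) * Matrix.single y y (1 : ℂ) =
      (C * C) y y • Matrix.single y y (1 : ℂ) := by
    rw [Matrix.single_mul_mul_single]
    ext i j
    simp [Matrix.single_apply]
  calc C * Matrix.single y y (1 : ℂ) * C * (C * Matrix.single y y (1 : ℂ) * C)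
      = C * (Matrix.single y y (1 : ℂ) * (C * C) * Matrix.single y y (1 : ℂ)) * C := by
        simp only [Matrix.mul_assoc]
    _ = _ := by rw [h, Matrix.mul_smul, Matrix.smul_mul]

theorem sum_AM (C : Matrix n n ℂ) : ∑ y, AM C y = C * C := by
  have h := XM_eq_sum C (fun _ => 1)
  simp only [Complex.ofReal_one, one_smul] at h
  rw [← h]
  unfold XM
  simp

omit [DecidableEq n] in
theorem trace_conj_nonneg (B : Matrix n n ℂ) : 0 ≤ (Bᴴ * B).trace.re := by
  rw [Matrix.trace, Complex.re_sum]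
  apply Finset.sum_nonneg
  intro i _
  rw [Matrix.diag_apply, Matrix.mul_apply, Complex.re_sum]
  apply Finset.sum_nonneg
  intro j _
  rw [conjTranspose_apply]
  have := Complex.mul_conj (B j i)
  have h2 : star (B j i) * B j i = ((‖B j i‖ ^ 2 : ℝ) : ℂ) := by
    rw [Complex.normSq_eq_norm_sq] at this
    rw [mul_comm]
    exact this
  rw [h2, Complex.ofReal_re]
  positivity

theorem trace_pow_nonneg {X : Matrix n n ℂ} (hX : X.IsHermitian) (m : ℕ) :
    0 ≤ (X ^ (2 * m)).trace.re := by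
  have h : X ^ (2 * m) = (X ^ m)ᴴ * X ^ m := by
    rw [(hX.pow m).eq, ← pow_add, two_mul]
  rw [h]
  exact trace_conj_nonneg _

theorem trace_AM_nonneg {C X : Matrix n n ℂ} (hC : C.IsHermitian) (hX : X.IsHermitian)
    (y : n) (m : ℕ) : 0 ≤ (AM C y * X ^ (2 * m)).trace.re := by
  have h : (AM C y * X ^ (2 * m)).trace =
      ((Matrix.single y y (1 : ℂ) * C * X ^ m)ᴴ * (Matrix.single y y (1 : ℂ) * C * X ^ m)).trace := by
    rw [conjTranspose_mul, conjTranspose_mul, hC.eq, Matrix.conjTranspose_single, star_one,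
      (hX.pow m).eq]
    have e : X ^ m * (C * Matrix.single y y (1 : ℂ)) * (Matrix.single y y (1 : ℂ) * C * X ^ m) =
        X ^ m * (C * (Matrix.single y y (1 : ℂ) * Matrix.single y y (1 : ℂ)) * C * X ^ m) := by
      simp only [Matrix.mul_assoc]
    rw [e, Matrix.single_mul_single_same, one_mul, Matrix.trace_mul_comm (X ^ m), two_mul, pow_add]
    unfold AM
    simp only [Matrix.mul_assoc]
  rw [h]
  exact trace_conj_nonneg _

theorem trace_K_le {K X : Matrix n n ℂ} (hX : X.IsHermitian) {L : ℝ}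
    (hK : ∀ v : n → ℂ, (star v ⬝ᵥ (K *ᵥ v)).re ≤ L * ∑ y, ‖v y‖ ^ 2) (m : ℕ) :
    (K * X ^ (2 * m)).trace.re ≤ L * (X ^ (2 * m)).trace.re := by
  have h0 : (K * X ^ (2 * m)).trace = ((X ^ m)ᴴ * (K * X ^ m)).trace := by
    rw [(hX.pow m).eq, two_mul, pow_add, ← Matrix.mul_assoc, Matrix.trace_mul_comm]
  have h1 : (X ^ (2 * m)).trace = ((X ^ m)ᴴ * X ^ m).trace := by
    rw [(hX.pow m).eq, ← pow_add, two_mul]
  rw [h0, h1, Matrix.trace, Matrix.trace, Complex.re_sum, Complex.re_sum, Finset.mul_sum]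
  apply Finset.sum_le_sum
  intro j _
  have e1 : ((X ^ m)ᴴ * (K * X ^ m)).diag j =
      star (fun i => (X ^ m) i j) ⬝ᵥ (K *ᵥ (fun i => (X ^ m) i j)) := by
    rw [Matrix.diag_apply, Matrix.mul_apply]
    simp only [dotProduct, conjTranspose_apply, Matrix.mul_apply, mulVec, Pi.star_apply]
  have e2 : (((X ^ m)ᴴ * X ^ m).diag j).re = ∑ y, ‖(X ^ m) y j‖ ^ 2 := by
    rw [Matrix.diag_apply, Matrix.mul_apply, Complex.re_sum]
    apply Finset.sum_congr rfl
    intro i _
    rw [conjTranspose_apply]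
    have := Complex.mul_conj ((X ^ m) i j)
    rw [Complex.normSq_eq_norm_sq] at this
    have h2 : star ((X ^ m) i j) * (X ^ m) i j = ((‖(X ^ m) i j‖ ^ 2 : ℝ) : ℂ) := by
      rw [mul_comm]; exact this
    rw [h2, Complex.ofReal_re]
  rw [e1, e2]
  exact hK _

/-- sign of a Boolean -/
def sg (b : Bool) : ℝ := if b then 1 else -1

theorem sg_not (b : Bool) : sg (!b) = -sg b := by cases b <;> simp [sg]

theorem sg_sq (b : Bool) : sg b * sg b = 1 := by cases b <;> simp [sg]

theorem abs_sg (b : Bool) : |sg b| = 1 := by cases b <;> simp [sg]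

/-- flip the sign at `y` -/
def flip1 (y : n) (e : n → Bool) : n → Bool := Function.update e y (!e y)

omit [Fintype n] in
theorem flip1_flip1 (y : n) (e : n → Bool) : flip1 y (flip1 y e) = e := by
  unfold flip1
  simp

theorem sum_flip1 {M : Type*} [AddCommMonoid M] (y : n) (g : (n → Bool) → M) :
    ∑ e, g (flip1 y e) = ∑ e, g e :=
  Equiv.sum_comp (Function.Involutive.toPerm (flip1 y) (flip1_flip1 y)) g

/-- the signed diagonal -/
def sD (r : n → ℝ) (e : n → Bool) : n → ℝ := fun y => sg (e y) * r y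

theorem XM_flip (C : Matrix n n ℂ) (r : n → ℝ) (y : n) (e : n → Bool) :
    XM C (sD r e) - XM C (sD r (flip1 y e)) = ((2 * (sg (e y) * r y) : ℝ) : ℂ) • AM C y := by
  rw [XM_eq_sum, XM_eq_sum, ← Finset.sum_sub_distrib, Finset.sum_eq_single y]
  · rw [← sub_smul]
    congr 1
    unfold sD flip1
    rw [Function.update_self, sg_not]
    push_cast
    ring
  · intro b _ hb
    unfold sD flip1
    rw [Function.update_of_ne hb, sub_self]
  · simp

theorem khintchine_step {C : Matrix n n ℂ} (hC : C.IsHermitian) {κ L s : ℝ}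
    (hκ0 : 0 ≤ κ)
    (hκ : ∀ y, ((C * C) y y).re ≤ κ)
    (hK : ∀ v : n → ℂ, (star v ⬝ᵥ ((C * C) *ᵥ v)).re ≤ L * ∑ y, ‖v y‖ ^ 2)
    {r : n → ℝ} (hr : ∀ y, |r y| ≤ s) (m : ℕ) :
    ∑ e : n → Bool, (XM C (sD r e) ^ (2 * (m + 1))).trace.re ≤
      (2 * m + 1) * (s ^ 2 * κ * L) * ∑ e : n → Bool, (XM C (sD r e) ^ (2 * m)).trace.re := by
  have hs2 : ∀ y, r y ^ 2 ≤ s ^ 2 := fun y => by
    rw [← sq_abs (r y)]
    exact pow_le_pow_left₀ (abs_nonneg _) (hr y) 2
  -- expand one factor
  have h1 : ∀ e : n → Bool, (XM C (sD r e) ^ (2 * (m + 1))).trace.re =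
      ∑ y, sg (e y) * r y * (AM C y * XM C (sD r e) ^ (2 * m + 1)).trace.re := by
    intro e
    rw [show 2 * (m + 1) = (2 * m + 1) + 1 by ring, pow_succ']
    generalize XM C (sD r e) ^ (2 * m + 1) = Z
    rw [XM_eq_sum C (sD r e), Finset.sum_mul, Matrix.trace_sum, Complex.re_sum]
    apply Finset.sum_congr rfl
    intro y _
    rw [Matrix.smul_mul, Matrix.trace_smul, smul_eq_mul, Complex.re_ofReal_mul]
    rfl
  have h2 : ∀ y, 2 * ∑ e : n → Bool, sg (e y) * r y *
      (AM C y * XM C (sD r e) ^ (2 * m + 1)).trace.re =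
      ∑ e : n → Bool, sg (e y) * r y * ((AM C y * (XM C (sD r e) ^ (2 * m + 1) -
        XM C (sD r (flip1 y e)) ^ (2 * m + 1))).trace.re) := by
    intro y
    have e1 := sum_flip1 y (fun e : n → Bool => sg (e y) * r y *
      (AM C y * XM C (sD r e) ^ (2 * m + 1)).trace.re)
    rw [two_mul]
    nth_rw 2 [← e1]
    rw [← Finset.sum_add_distrib]
    apply Finset.sum_congr rfl
    intro e _
    have : sg (flip1 y e y) = -sg (e y) := by
      unfold flip1; rw [Function.update_self, sg_not]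
    rw [this, Matrix.mul_sub, Matrix.trace_sub, Complex.sub_re]
    ring
  have h3 : ∀ y (e : n → Bool), sg (e y) * r y * ((AM C y * (XM C (sD r e) ^ (2 * m + 1) -
        XM C (sD r (flip1 y e)) ^ (2 * m + 1))).trace.re) ≤
      r y ^ 2 * ((2 * m + 1) * ((AM C y * AM C y * XM C (sD r e) ^ (2 * m)).trace.re +
        (AM C y * AM C y * XM C (sD r (flip1 y e)) ^ (2 * m)).trace.re)) := by
    intro y e
    set X := XM C (sD r e) with hX
    set Y := XM C (sD r (flip1 y e)) with hY
    have hd : X - Y = ((2 * (sg (e y) * r y) : ℝ) : ℂ) • AM C y := XM_flip C r y e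
    rw [pow_sub_pow_nc, Matrix.mul_sum, Matrix.trace_sum, Complex.re_sum]
    have e2 : ∀ q, (AM C y * (X ^ q * (X - Y) * Y ^ (2 * m + 1 - 1 - q))).trace.re =
        2 * (sg (e y) * r y) * (AM C y * X ^ q * AM C y * Y ^ (2 * m - q)).trace.re := by
      intro q
      rw [hd, show 2 * m + 1 - 1 - q = 2 * m - q by omega, Matrix.mul_smul, Matrix.smul_mul,
        Matrix.mul_smul, Matrix.trace_smul, smul_eq_mul, Complex.re_ofReal_mul]
      simp only [Matrix.mul_assoc]
    simp only [e2]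
    rw [← Finset.mul_sum]
    have h4 := trace_sum_le (XM_herm hC (sD r e)) (XM_herm hC (sD r (flip1 y e)))
      (AM_herm hC y) m
    rw [← hX, ← hY] at h4
    have h5 := sg_sq (e y)
    have h6 : sg (e y) * r y * (2 * (sg (e y) * r y) *
        ∑ i ∈ Finset.range (2 * m + 1), (AM C y * X ^ i * AM C y * Y ^ (2 * m - i)).trace.re) =
        r y ^ 2 * (2 * ∑ i ∈ Finset.range (2 * m + 1),
          (AM C y * X ^ i * AM C y * Y ^ (2 * m - i)).trace.re) := by
      linear_combination (2 * r y ^ 2 * ∑ i ∈ Finset.range (2 * m + 1),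
          (AM C y * X ^ i * AM C y * Y ^ (2 * m - i)).trace.re) * h5
    rw [h6]
    exact mul_le_mul_of_nonneg_left h4 (sq_nonneg _)
  have h4 : ∀ y, ∑ e : n → Bool, sg (e y) * r y *
      (AM C y * XM C (sD r e) ^ (2 * m + 1)).trace.re ≤
      (2 * m + 1) * (s ^ 2 * κ) * ∑ e : n → Bool, (AM C y * XM C (sD r e) ^ (2 * m)).trace.re := by
    intro y
    have e3 : 2 * ∑ e : n → Bool, sg (e y) * r y *
        (AM C y * XM C (sD r e) ^ (2 * m + 1)).trace.re ≤
        r y ^ 2 * ((2 * m + 1) *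
        (2 * ∑ e : n → Bool, (AM C y * AM C y * XM C (sD r e) ^ (2 * m)).trace.re)) := by
      rw [h2 y]
      refine (Finset.sum_le_sum fun e _ => h3 y e).trans (le_of_eq ?_)
      rw [← Finset.mul_sum, ← Finset.mul_sum, Finset.sum_add_distrib,
        sum_flip1 y (fun e => (AM C y * AM C y * XM C (sD r e) ^ (2 * m)).trace.re)]
      ring
    have hKy : ∀ e : n → Bool, (AM C y * AM C y * XM C (sD r e) ^ (2 * m)).trace.re ≤
        κ * (AM C y * XM C (sD r e) ^ (2 * m)).trace.re := by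
      intro e
      have him : ((C * C) y y).im = 0 := by
        have : (C * C).IsHermitian := by
          unfold Matrix.IsHermitian
          rw [conjTranspose_mul, hC.eq]
        have h7 := this.apply y y
        have h8 := congrArg Complex.im h7
        simp only [Complex.star_def, Complex.conj_im] at h8
        linarith
      have hre : (C * C) y y = (((C * C) y y).re : ℂ) := by
        apply Complex.ext <;> simp [him]
      rw [AM_sq, hre, Matrix.smul_mul, Matrix.trace_smul, smul_eq_mul, Complex.re_ofReal_mul]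
      exact mul_le_mul_of_nonneg_right (by simpa using hκ y)
        (trace_AM_nonneg hC (XM_herm hC _) y m)
    have hnn : 0 ≤ ∑ e : n → Bool, (AM C y * XM C (sD r e) ^ (2 * m)).trace.re :=
      Finset.sum_nonneg fun e _ => trace_AM_nonneg hC (XM_herm hC _) y m
    have h9 : ∑ e : n → Bool, (AM C y * AM C y * XM C (sD r e) ^ (2 * m)).trace.re ≤
        κ * ∑ e : n → Bool, (AM C y * XM C (sD r e) ^ (2 * m)).trace.re := by
      rw [Finset.mul_sum]
      exact Finset.sum_le_sum fun e _ => hKy e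
    set T := ∑ e : n → Bool, (AM C y * XM C (sD r e) ^ (2 * m)).trace.re
    set T2 := ∑ e : n → Bool, (AM C y * AM C y * XM C (sD r e) ^ (2 * m)).trace.re
    have hm : (0 : ℝ) ≤ 2 * m + 1 := by positivity
    have h10 : r y ^ 2 * ((2 * m + 1) * (2 * T2)) ≤ s ^ 2 * ((2 * m + 1) * (2 * (κ * T))) := by
      have hk : 0 ≤ (2 * (m:ℝ) + 1) * (2 * (κ * T)) := by positivity
      calc r y ^ 2 * ((2 * m + 1) * (2 * T2)) ≤ r y ^ 2 * ((2 * m + 1) * (2 * (κ * T))) := by
            gcongr
        _ ≤ s ^ 2 * ((2 * m + 1) * (2 * (κ * T))) :=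
            mul_le_mul_of_nonneg_right (hs2 y) hk
    linarith
  calc ∑ e : n → Bool, (XM C (sD r e) ^ (2 * (m + 1))).trace.re
      = ∑ y, ∑ e : n → Bool, sg (e y) * r y *
          (AM C y * XM C (sD r e) ^ (2 * m + 1)).trace.re := by
        simp only [h1]
        rw [Finset.sum_comm]
    _ ≤ ∑ y, (2 * m + 1) * (s ^ 2 * κ) *
          ∑ e : n → Bool, (AM C y * XM C (sD r e) ^ (2 * m)).trace.re :=
        Finset.sum_le_sum fun y _ => h4 y
    _ = (2 * m + 1) * (s ^ 2 * κ) *
          ∑ e : n → Bool, (C * C * XM C (sD r e) ^ (2 * m)).trace.re := by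
        rw [← Finset.mul_sum, Finset.sum_comm]
        congr 1
        apply Finset.sum_congr rfl
        intro e _
        rw [← sum_AM, Matrix.sum_mul, Matrix.trace_sum, Complex.re_sum]
    _ ≤ (2 * m + 1) * (s ^ 2 * κ) *
          ∑ e : n → Bool, (L * (XM C (sD r e) ^ (2 * m)).trace.re) := by
        gcongr with e _
        exact trace_K_le (XM_herm hC _) hK m
    _ = _ := by
        rw [← Finset.mul_sum]
        ring

theorem khintchine {C : Matrix n n ℂ} (hC : C.IsHermitian) {κ L s : ℝ}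
    (hκ0 : 0 ≤ κ) (hL : 0 ≤ L)
    (hκ : ∀ y, ((C * C) y y).re ≤ κ)
    (hK : ∀ v : n → ℂ, (star v ⬝ᵥ ((C * C) *ᵥ v)).re ≤ L * ∑ y, ‖v y‖ ^ 2)
    {r : n → ℝ} (hr : ∀ y, |r y| ≤ s) (p : ℕ) :
    ∑ e : n → Bool, (XM C (sD r e) ^ (2 * p)).trace.re ≤
      (2 ^ Fintype.card n) * (Fintype.card n * (2 * p * (s ^ 2 * κ * L)) ^ p) := by
  have hQ : 0 ≤ s ^ 2 * κ * L := by positivity
  have key : ∀ P : ℕ, ∀ p ≤ P, ∑ e : n → Bool, (XM C (sD r e) ^ (2 * p)).trace.re ≤
      (2 ^ Fintype.card n) * (Fintype.card n * (2 * P * (s ^ 2 * κ * L)) ^ p) := by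
    intro P p
    induction p with
    | zero =>
      intro _
      simp [Matrix.trace_one]
    | succ p ih =>
      intro hp
      have h1 := khintchine_step hC hκ0 hκ hK hr p
      have h2 := ih (by omega)
      have hpP : (2 * (p : ℝ) + 1) ≤ 2 * P := by
        have : (p : ℝ) + 1 ≤ P := by exact_mod_cast hp
        linarith
      calc _ ≤ (2 * (p:ℝ) + 1) * (s ^ 2 * κ * L) *
            ∑ e : n → Bool, (XM C (sD r e) ^ (2 * p)).trace.re := h1
        _ ≤ (2 * (P:ℝ)) * (s ^ 2 * κ * L) *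
            ((2 ^ Fintype.card n) * (Fintype.card n * (2 * P * (s ^ 2 * κ * L)) ^ p)) := by
            have hnn : 0 ≤ ∑ e : n → Bool, (XM C (sD r e) ^ (2 * p)).trace.re :=
              Finset.sum_nonneg fun e _ => trace_pow_nonneg (XM_herm hC _) p
            apply mul_le_mul _ h2 hnn (by positivity)
            exact mul_le_mul_of_nonneg_right hpP hQ
        _ = _ := by rw [pow_succ]; ring
  exact key p p le_rfl

end Pool.Agent.Anderson
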