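import Pool.Agent.Helper17_Anderson.Final

/-!
# Quasimodes at weak disorder: the kinetic scale
-/

set_option autoImplicit false

open MeasureTheory Set Real Function Matrix ProbabilityTheory

open scoped ENNReal ComplexConjugate ComplexOrder

noncomputable section

namespace Pool.Agent.Anderson

variable {d : ℕ}

theorem IsQuasi.mono {V : Site d → ℝ} {ε ε' lam : ℝ} {v : L2 d} (h : IsQuasi V ε lam v)
    (hε : ε ≤ ε') : IsQuasi V ε' lam v := by
  obtain ⟨h1, r, hr, h2⟩ := h
  exact ⟨h1, r, hr.trans hε, h2⟩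

theorem IsQuasi.sq_le {V : Site d → ℝ} {ε lam : ℝ} {v : L2 d} (h : IsQuasi V ε lam v)
    (T : Finset (Site d)) : ∑ y ∈ T, ‖v y‖ ^ 2 ≤ 1 := by
  have h1 : ∑ y ∈ T, ‖v y‖ ^ 2 ≤ ‖v‖ ^ 2 := by
    rw [L2.norm_sq]
    exact (L2.summable_sq v).sum_le_tsum _ (fun y _ => by positivity)
  have h2 := norm_nonneg v
  have h3 := h.1
  nlinarith

theorem cdet_pos : 0 < cdet d := by
  unfold cdet
  have := Real.pi_pos
  positivity

/-- the constant of the final results -/
def CC (d M : ℕ) : ℝ := (16 * cball2 d + 4 * cball d) * AA d M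

variable {Ω : Type*} [MeasurableSpace Ω] {P : Measure Ω} [IsProbabilityMeasure P]
  {ξ : Site d → Ω → ℝ}

set_option maxHeartbeats 1000000 in
theorem kinetic (hd : 3 ≤ d) (M : ℕ) (hm : ∀ y, Measurable (ξ y))
    (hlaw : ∀ y, P.map (ξ y) = gaussianReal 0 1) (hind : iIndepFun ξ P)
    {σ : ℝ} (hσ0 : σ ≠ 0) (hσ1 : |σ| ≤ 1) :
    ∃ G : Set Ω, MeasurableSet G ∧ P Gᶜ ≤ ENNReal.ofReal (|σ| ^ M) ∧
      ∀ ω ∈ G, ∀ x : Site d, (∀ i, |(x i : ℝ)| ≤ (1 / |σ|) ^ M) →
        ∀ (lam : ℝ) (v : L2 d), IsQuasi (fun y => σ * ξ y ω) (σ ^ 2) lam v →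
          ∀ ρ : ℕ, ∑ y ∈ box x ρ, ‖v y‖ ^ 2 ≤
              CC d M * (ρ + 1) ^ 2 * σ ^ 2 * (1 + Real.log (1 / |σ|)) ^ 5 ∧
            ∀ δ : ℝ, 0 < δ → δ ≤ 1 → Regular d lam δ →
              ∑ y ∈ box x ρ, ‖v y‖ ^ 2 ≤
                CC d M / δ * (ρ + 1) * σ ^ 2 * (1 + Real.log (1 / |σ|)) ^ 4 := by
  have hσ : 0 < |σ| := abs_pos.2 hσ0
  set a : ℝ := |σ| with ha
  set l : ℝ := 1 + Real.log (1 / a) with hl
  set A : ℝ := AA d M with hA
  have hsq : σ ^ 2 = a ^ 2 := by rw [ha, sq_abs]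
  obtain ⟨hA2, hA1⟩ := AA_ge d M
  rw [← hA] at hA2 hA1
  have hloga : 0 ≤ Real.log (1 / a) := Real.log_nonneg (by rw [le_div_iff₀ hσ]; linarith)
  have hl1 : 1 ≤ l := by rw [hl]; linarith
  have hcb2 := cball2_ge (d := d)
  have hcb := cball_ge (d := d)
  have hη : 0 < A * a ^ 2 * l ^ 3 := by positivity
  have hl34 : l ^ 3 ≤ l ^ 4 := pow_le_pow_right₀ hl1 (by norm_num)
  by_cases hη1 : A * a ^ 2 * l ^ 3 ≤ 1
  · set η : ℝ := A * a ^ 2 * l ^ 3 with hηdef
    set k : ℕ := kk d M with hk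
    have hk1 : (1:ℝ) ≤ k := by exact_mod_cast kk_pos d M
    set R : ℝ := √(2 * k * l) with hR
    have hR0 : 0 ≤ R := Real.sqrt_nonneg _
    have hR2 : R ^ 2 = 2 * k * l := Real.sq_sqrt (by positivity)
    have hσR : |σ| * R ≤ 1 := by
      have h1 : (a * R) ^ 2 ≤ 1 := by
        rw [mul_pow, hR2]
        have h2 : a ^ 2 * (2 * k * l) ≤ η := by
          rw [hηdef]
          have h3 : 2 * (k:ℝ) * l ≤ A * l ^ 3 := by
            have h4 : l ≤ l ^ 3 := le_self_pow₀ hl1 (by norm_num)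
            exact mul_le_mul hA2 h4 (by positivity) (by positivity)
          have h5 : 0 ≤ a ^ 2 := by positivity
          nlinarith
        linarith
      have h2 : 0 ≤ a * R := by positivity
      nlinarith
    set m : ℕ := ⌊(1 / a) ^ M⌋₊ with hm'
    set bad : Set Ω := ⋃ x ∈ box (0 : Site d) m, badS ξ σ R x η hη with hbad
    have hPbad : P bad ≤ ENNReal.ofReal (a ^ M) := by
      refine (measure_biUnion_finset_le _ _).trans ?_
      refine (Finset.sum_le_sum fun x _ => prob_site hd M hm hlaw hind hσ hσ1 hη hη1 x).trans ?_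
      rw [Finset.sum_const, card_box, nsmul_eq_mul, nat_mul_ofReal]
      apply ENNReal.ofReal_le_ofReal
      push_cast
      have h1 : (m : ℝ) ≤ (1 / a) ^ M := Nat.floor_le (by positivity)
      have h2 : 1 ≤ (1 / a) ^ M := one_le_pow₀ (by rw [le_div_iff₀ hσ]; linarith)
      have h3 : (2 * (m : ℝ) + 1) ^ d ≤ (3 * (1 / a) ^ M) ^ d :=
        pow_le_pow_left₀ (by positivity) (by linarith) d
      rw [← ha]
      calc (2 * (m : ℝ) + 1) ^ d * (a ^ (M * d + M) / 3 ^ d)
          ≤ (3 * (1 / a) ^ M) ^ d * (a ^ (M * d + M) / 3 ^ d) :=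
            mul_le_mul_of_nonneg_right h3 (by positivity)
        _ = a ^ M := by
            rw [mul_pow, ← pow_mul, _root_.one_div_pow, pow_add]
            field_simp
    refine ⟨(toMeasurable P bad)ᶜ, (measurableSet_toMeasurable P bad).compl, ?_, ?_⟩
    · rw [compl_compl, measure_toMeasurable]
      exact hPbad
    · intro ω hω x hx lam v hv
      have hωbad : ω ∉ bad := fun h => hω (subset_toMeasurable P bad h)
      have hxbox : x ∈ box (0 : Site d) m := by
        rw [mem_box]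
        intro i
        rw [Pi.zero_apply, sub_zero]
        have h1 := hx i
        have h2 : ((|x i| : ℤ) : ℝ) ≤ (1 / a) ^ M := by push_cast; exact h1
        have h3 : (|x i|).toNat ≤ m := by
          apply Nat.le_floor
          have h4 : ((|x i|).toNat : ℤ) = |x i| := Int.toNat_of_nonneg (abs_nonneg _)
          have h5 : (((|x i|).toNat : ℕ) : ℝ) = ((|x i| : ℤ) : ℝ) := by exact_mod_cast congrArg (Int.cast : ℤ → ℝ) h4
          rw [h5]
          exact h2
        have h4 : ((|x i|).toNat : ℤ) = |x i| := Int.toNat_of_nonneg (abs_nonneg _)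
        omega
      have hωx : ω ∉ badS ξ σ R x η hη := by
        intro h
        apply hωbad
        rw [hbad, mem_iUnion₂]
        exact ⟨x, hxbox, h⟩
      have ha2 : σ ^ 2 ≤ η := by
        rw [hsq, hηdef]
        have h1 : 1 ≤ A * l ^ 3 := one_le_mul_of_one_le_of_one_le hA1 (one_le_pow₀ hl1)
        have h2 : 0 ≤ a ^ 2 := by positivity
        nlinarith
      have hvη := hv.mono ha2
      have hlogη : Real.log (1 / η) ≤ 2 * Real.log (1 / a) := by
        have hinvη : 1 / η ≤ (1 / a) ^ 2 := by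
          rw [_root_.one_div_pow]
          exact one_div_le_one_div_of_le (by positivity) (by rw [← hsq]; exact ha2)
        have h1 := Real.log_le_log (by positivity) hinvη
        rw [Real.log_pow] at h1
        exact_mod_cast h1
      have hlog2 : 1 + Real.log (1 / η) ≤ 2 * l := by rw [hl]; linarith
      have hηl : η * (1 + Real.log (1 / η)) ≤ 2 * (A * (a ^ 2 * l ^ 4)) := by
        calc η * (1 + Real.log (1 / η)) ≤ η * (2 * l) := mul_le_mul_of_nonneg_left hlog2 hη.le
          _ = _ := by rw [hηdef]; ring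
      have hηl2 : η * (1 + Real.log (1 / η)) ^ 2 ≤ 4 * (A * (a ^ 2 * l ^ 5)) := by
        have h0 : 0 ≤ Real.log (1 / η) := Real.log_nonneg (by rw [le_div_iff₀ hη]; linarith)
        calc η * (1 + Real.log (1 / η)) ^ 2 ≤ η * (2 * l) ^ 2 :=
              mul_le_mul_of_nonneg_left (pow_le_pow_left₀ (by linarith) hlog2 2) hη.le
          _ = _ := by rw [hηdef]; ring
      have hX0 : 0 ≤ A * (a ^ 2 * l ^ 5) := by positivity
      intro ρ
      have hρ0 : (0:ℝ) ≤ ρ := by positivity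
      constructor
      · refine (good_ball2 (by omega) hη hη1 hσR hωx hvη ρ).trans ?_
        have h0 : 0 ≤ Real.log (1 / η) := Real.log_nonneg (by rw [le_div_iff₀ hη]; linarith)
        have h1 : (2 * (ρ : ℝ) + 1) ^ 2 * (η * (1 + Real.log (1 / η)) ^ 2) ≤
            (4 * (ρ + 1) ^ 2) * (4 * (A * (a ^ 2 * l ^ 5))) := by
          apply mul_le_mul _ hηl2 (by positivity) (by positivity)
          nlinarith
        calc cball2 d * ((2 * (ρ : ℝ) + 1) ^ 2 * (η * (1 + Real.log (1 / η)) ^ 2))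
            ≤ cball2 d * ((4 * (ρ + 1) ^ 2) * (4 * (A * (a ^ 2 * l ^ 5)))) :=
              mul_le_mul_of_nonneg_left h1 (by linarith)
          _ = (16 * cball2 d) * ((ρ + 1) ^ 2 * (A * (a ^ 2 * l ^ 5))) := by ring
          _ ≤ (16 * cball2 d + 4 * cball d) * ((ρ + 1) ^ 2 * (A * (a ^ 2 * l ^ 5))) :=
              mul_le_mul_of_nonneg_right (by linarith) (by positivity)
          _ = _ := by unfold CC; rw [hsq]; ring
      · intro δ hδ hδ1 hreg
        refine (good_ball hη hη1 hσR hωx hvη hδ hδ1 hreg ρ).trans ?_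
        have h1 : (2 * (ρ : ℝ) + 1) * (η * (1 + Real.log (1 / η))) ≤
            (2 * (ρ + 1)) * (2 * (A * (a ^ 2 * l ^ 4))) := by
          have h0 : 0 ≤ Real.log (1 / η) := Real.log_nonneg (by rw [le_div_iff₀ hη]; linarith)
          exact mul_le_mul (by linarith) hηl (by positivity) (by positivity)
        have h2 : 4 * cball d ≤ 16 * cball2 d + 4 * cball d := by linarith
        calc cball d / δ * ((2 * ρ + 1) * (η * (1 + Real.log (1 / η))))
            ≤ cball d / δ * ((2 * (ρ + 1)) * (2 * (A * (a ^ 2 * l ^ 4)))) :=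
              mul_le_mul_of_nonneg_left h1 (by positivity)
          _ = (4 * cball d) * ((ρ + 1) / δ * (A * (a ^ 2 * l ^ 4))) := by ring
          _ ≤ (16 * cball2 d + 4 * cball d) * ((ρ + 1) / δ * (A * (a ^ 2 * l ^ 4))) :=
              mul_le_mul_of_nonneg_right h2 (by positivity)
          _ = _ := by unfold CC; rw [hsq]; ring
  · push Not at hη1
    refine ⟨univ, MeasurableSet.univ, by simp, ?_⟩
    intro ω _ x _ lam v hv ρ
    have hρ0 : (0:ℝ) ≤ ρ := by positivity
    have h1 := hv.sq_le (box x ρ)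
    have h4 : 1 ≤ A * (a ^ 2 * l ^ 4) := by
      have h5 : A * a ^ 2 * l ^ 3 ≤ A * (a ^ 2 * l ^ 4) := by
        have h6 : 0 ≤ A * a ^ 2 := by positivity
        nlinarith
      linarith
    have h4' : 1 ≤ A * (a ^ 2 * l ^ 5) := by
      have h5 : A * (a ^ 2 * l ^ 4) ≤ A * (a ^ 2 * l ^ 5) := by
        have h6 : l ^ 4 ≤ l ^ 5 := pow_le_pow_right₀ hl1 (by norm_num)
        have h7 : 0 ≤ A := by linarith
        have h8 : 0 ≤ a ^ 2 := by positivity
        exact mul_le_mul_of_nonneg_left (mul_le_mul_of_nonneg_left h6 h8) h7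
      linarith
    have h5 : 1 ≤ 16 * cball2 d + 4 * cball d := by linarith
    constructor
    · have h7 : 1 ≤ ((ρ : ℝ) + 1) ^ 2 := one_le_pow₀ (by linarith)
      have h6 := one_le_mul_of_one_le_of_one_le h7 (one_le_mul_of_one_le_of_one_le h5 h4')
      refine h1.trans (h6.trans (le_of_eq ?_))
      unfold CC; rw [hsq]; ring
    · intro δ hδ hδ1 _
      have h7 : 1 ≤ ((ρ : ℝ) + 1) / δ := by
        rw [le_div_iff₀ hδ]; linarith
      have h8 := one_le_mul_of_one_le_of_one_le h7 (one_le_mul_of_one_le_of_one_le h5 h4)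
      refine h1.trans (h8.trans (le_of_eq ?_))
      unfold CC; rw [hsq]; ring

end Pool.Agent.Anderson
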