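import Pool.Agent.Helper17_Anderson.Kinetic

/-!
# MP_1906c1_mp: all quasimodes are spread out at the kinetic scale, at every energy

At weak disorder, outside an event of probability `|σ|^M`, every eigenfunction of `H_σ` (at any
energy), and more generally every `v` with `‖(H_σ - lam) v‖ ≤ σ²`, has only a small part of its
mass in any ball of radius much smaller than `|σ|⁻¹` (much smaller than `σ⁻²` if the energy is away
from the critical values `2d - 4k` of the symbol of the Laplacian), up to logarithms.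
-/

set_option autoImplicit false

open MeasureTheory ProbabilityTheory

open scoped ENNReal

namespace Pool.Agent.Anderson.KineticSpreadingOld

open Pool.Agent.Anderson

universe u

/-- Let `d ≥ 3` and let `ξ(y)`, `y ∈ ℤ^d`, be independent standard Gaussians. For every `M` there
is `C` such that for `0 < |σ| ≤ 1`, outside an event of probability at most `|σ|^M`, for all sites
`x` with `|x|_∞ ≤ |σ|^{-M}`, all real `lam` and all `v ∈ ℓ²(ℤ^d)` with `‖v‖ ≤ 1` and
`‖(H_σ - lam) v‖ ≤ σ²`: for every radius `ρ ∈ ℕ` and every `δ ∈ [0,1]` such that `lam` has distance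
at least `δ` from the critical values `2d - 4k` (`0 ≤ k ≤ d`),
`∑_{|y - x|_∞ ≤ ρ} |v(y)|² ≤ C σ² (1 + log (1/|σ|))⁵ (ρ+1)² / max(1, δ(ρ+1))`. -/
theorem result (d : ℕ) (hd : 3 ≤ d) (M : ℕ) :
    ∃ C : ℝ, 0 < C ∧ ∀ σ : ℝ, σ ≠ 0 → |σ| ≤ 1 →
      ∀ (Ω : Type u) [MeasurableSpace Ω] (P : Measure Ω) [IsProbabilityMeasure P]
        (ξ : Site d → Ω → ℝ), (∀ y, Measurable (ξ y)) →
        (∀ y, P.map (ξ y) = gaussianReal 0 1) → iIndepFun ξ P →
        ∃ G : Set Ω, MeasurableSet G ∧ P Gᶜ ≤ ENNReal.ofReal (|σ| ^ M) ∧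
          ∀ ω ∈ G, ∀ x : Site d, (∀ i, |(x i : ℝ)| ≤ (1 / |σ|) ^ M) →
            ∀ (lam : ℝ) (v : L2 d), IsQuasi (fun y => σ * ξ y ω) (σ ^ 2) lam v →
              ∀ (ρ : ℕ) (δ : ℝ), 0 ≤ δ → δ ≤ 1 → Regular d lam δ →
                ∑ y ∈ box x ρ, ‖v y‖ ^ 2 ≤
                  C * ((ρ + 1) ^ 2 / max 1 (δ * (ρ + 1))) * σ ^ 2 *
                    (1 + Real.log (1 / |σ|)) ^ 5 := by
  have hCC : 0 < CC d M := by
    unfold CC
    have h1 := cball2_ge (d := d)
    have h2 := cball_ge (d := d)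
    have h3 := (AA_ge d M).2
    have h4 : 0 < 16 * cball2 d + 4 * cball d := by linarith
    exact mul_pos h4 (by linarith)
  refine ⟨CC d M, hCC, ?_⟩
  intro σ hσ0 hσ1 Ω _ P _ ξ hm hlaw hind
  obtain ⟨G, hG, hPG, hmain⟩ := kinetic hd M hm hlaw hind hσ0 hσ1
  refine ⟨G, hG, hPG, ?_⟩
  intro ω hω x hx lam v hv ρ δ hδ0 hδ1 hreg
  obtain ⟨h1, h2⟩ := hmain ω hω x hx lam v hv ρ
  have hσ : 0 < |σ| := abs_pos.2 hσ0
  have hρ0 : (0:ℝ) ≤ ρ := by positivity
  have hlog : 0 ≤ Real.log (1 / |σ|) := Real.log_nonneg (by rw [le_div_iff₀ hσ]; linarith)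
  set l : ℝ := 1 + Real.log (1 / |σ|) with hl
  have hl1 : 1 ≤ l := by rw [hl]; linarith
  rcases le_or_gt (δ * ((ρ : ℝ) + 1)) 1 with h | h
  · rw [max_eq_left h, div_one]
    exact h1
  · rw [max_eq_right h.le]
    have hδ : 0 < δ := by
      rcases hδ0.eq_or_lt with h0 | h0
      · rw [← h0] at h; linarith
      · exact h0
    refine (h2 δ hδ hδ1 hreg).trans ?_
    have e1 : ((ρ : ℝ) + 1) ^ 2 / (δ * (ρ + 1)) = (ρ + 1) / δ := by
      field_simp
    rw [e1]
    have e2 : l ^ 4 ≤ l ^ 5 := pow_le_pow_right₀ hl1 (by norm_num)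
    have e3 : CC d M / δ * (ρ + 1) * σ ^ 2 = CC d M * ((ρ + 1) / δ) * σ ^ 2 := by ring
    rw [e3]
    exact mul_le_mul_of_nonneg_left e2 (by positivity)

end Pool.Agent.Anderson.KineticSpreadingOld
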