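import Pool.Agent.Helper17_Anderson.Prob

/-!
# Energies outside the band
-/

set_option autoImplicit false

open MeasureTheory Set Real Function Matrix ProbabilityTheory

open scoped ENNReal ComplexConjugate ComplexOrder

noncomputable section

namespace Pool.Agent.Anderson

local instance haarMS8 : MeasureSpace UnitAddCircle := ⟨AddCircle.haarAddCircle⟩

local instance haarAHLarge : Measure.IsAddHaarMeasure (volume : Measure UnitAddCircle) :=
  inferInstanceAs (Measure.IsAddHaarMeasure AddCircle.haarAddCircle)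

local instance haarPMLarge : IsProbabilityMeasure (volume : Measure UnitAddCircle) :=
  inferInstanceAs (IsProbabilityMeasure AddCircle.haarAddCircle)

variable {d : ℕ}

theorem abs_c2_le (θ : UnitAddCircle) : |c2 θ| ≤ 2 := by
  unfold c2
  rw [abs_mul, abs_of_pos (by norm_num : (0:ℝ) < 2)]
  have := Complex.abs_re_le_norm (u θ)
  rw [norm_u] at this
  linarith

theorem abs_sy_le (θ : UnitAddTorus (Fin d)) : |sy θ| ≤ 2 * d := by
  unfold sy
  refine (Finset.abs_sum_le_sum_abs _ _).trans ?_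
  refine (Finset.sum_le_sum fun i _ => abs_c2_le (θ i)).trans (le_of_eq ?_)
  rw [Finset.sum_const, Finset.card_univ, Fintype.card_fin, nsmul_eq_mul, mul_comm]

theorem md_ge_two {E η : ℝ} (hE : 2 * d + 2 ≤ |E|) (θ : UnitAddTorus (Fin d)) :
    2 ≤ md E η θ := by
  have h1 := abs_sy_le θ
  have h2 : 2 ≤ |sy θ - E| := by
    have := abs_sub_abs_le_abs_sub E (sy θ)
    rw [abs_sub_comm] at this
    linarith
  unfold md
  apply Real.le_sqrt_of_sq_le
  have h3 : (2:ℝ) ^ 2 ≤ (sy θ - E) ^ 2 := by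
    rw [← sq_abs (sy θ - E)]
    exact pow_le_pow_left₀ (by norm_num) h2 2
  nlinarith [sq_nonneg η]

theorem Kmat_le_half (Λ : Finset (Site d)) {E η : ℝ} (hη : 0 < η) (hE : 2 * d + 2 ≤ |E|)
    (v : Λ → ℂ) : (star v ⬝ᵥ (Kmat Λ E η *ᵥ v)).re ≤ 1 / 2 * nsq v := by
  rw [Kmat_form_re Λ hη, ← parseval, ← integral_const_mul]
  have hc1 := continuous_inv_md (d := d) (E := E) hη
  have hc2 := continuous_hatV v
  apply integral_mono
  · apply integrable_of_cont
    fun_prop
  · apply integrable_of_cont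
    fun_prop
  · intro θ
    apply mul_le_mul_of_nonneg_right _ (by positivity)
    have := inv_anti₀ (by norm_num : (0:ℝ) < 2) (md_ge_two (η := η) hE θ)
    simpa using this

theorem large_hX {Λ : Finset (Site d)} {D : Site d → ℝ} {E η : ℝ} (hη : 0 < η)
    (hE : 2 * d + 2 ≤ |E|) (hD : ∀ y ∈ Λ, |D y| ≤ 1) {C : Matrix Λ Λ ℂ} (hC : C.IsHermitian)
    (hCK : C * C = Kmat Λ E η) (a : Λ → ℂ) :
    nsq (XM C (fun y => D y) *ᵥ a) ≤ 1 / 4 * nsq a := by
  have hform : ∀ v : Λ → ℂ, nsq (C *ᵥ v) ≤ 1 / 2 * nsq v := by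
    intro v
    refine le_trans (le_of_eq ?_) (Kmat_le_half Λ hη hE v)
    rw [← hCK]
    have h1 := star_dot_self (C *ᵥ v)
    rw [star_mulVec, ← dotProduct_mulVec, mulVec_mulVec, hC.eq] at h1
    rw [h1, Complex.ofReal_re]
  have h1 : XM C (fun y => D y) *ᵥ a =
      C *ᵥ (diagonal (fun y : Λ => ((D y : ℝ) : ℂ)) *ᵥ (C *ᵥ a)) := by
    unfold XM
    rw [← mulVec_mulVec, ← mulVec_mulVec]
  rw [h1]
  have h2 : nsq (diagonal (fun y : Λ => ((D y : ℝ) : ℂ)) *ᵥ (C *ᵥ a)) ≤ nsq (C *ᵥ a) := by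
    unfold nsq
    apply Finset.sum_le_sum
    intro y _
    rw [mulVec_diagonal, norm_mul, Complex.norm_real, Real.norm_eq_abs]
    apply pow_le_pow_left₀ (by positivity)
    exact mul_le_of_le_one_left (norm_nonneg _) (hD y y.2)
  have h3 := hform (diagonal (fun y : Λ => ((D y : ℝ) : ℂ)) *ᵥ (C *ᵥ a))
  have h4 := hform a
  linarith

end Pool.Agent.Anderson
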