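import Pool.Agent.Helper17_Anderson.Cutoff

/-!
# Probability estimates
-/

set_option autoImplicit false

open MeasureTheory Set Real Function Matrix ProbabilityTheory

open scoped ENNReal ComplexConjugate ComplexOrder

noncomputable section

namespace Pool.Agent.Anderson

variable {d : ℕ}

/-- truncation at height `s` -/
def tau (s t : ℝ) : ℝ := if |t| ≤ s then t else 0

theorem measurable_tau (s : ℝ) : Measurable (tau s) := by
  unfold tau
  apply Measurable.ite _ measurable_id measurable_const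
  exact measurableSet_le (by fun_prop) measurable_const

theorem abs_tau_le {s : ℝ} (hs : 0 ≤ s) (t : ℝ) : |tau s t| ≤ s := by
  unfold tau
  split_ifs with h
  · exact h
  · simpa using hs

theorem tau_neg (s t : ℝ) : tau s (-t) = -tau s t := by
  unfold tau
  rw [abs_neg]
  split_ifs <;> simp

theorem tau_eq {s t : ℝ} (h : |t| ≤ s) : tau s t = t := by
  unfold tau; rw [if_pos h]

/-- the law of the truncated potential at one site -/
def nu (σ s : ℝ) : Measure ℝ := (gaussianReal 0 1).map (fun t => tau s (σ * t))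

theorem measurable_tauσ (σ s : ℝ) : Measurable (fun t => tau s (σ * t)) :=
  (measurable_tau s).comp (by fun_prop)

instance nu_prob (σ s : ℝ) : IsProbabilityMeasure (nu σ s) :=
  Measure.isProbabilityMeasure_map (measurable_tauσ σ s).aemeasurable

theorem nu_neg (σ s : ℝ) : MeasurePreserving (fun t : ℝ => -t) (nu σ s) (nu σ s) := by
  refine ⟨measurable_neg, ?_⟩
  have h1 : (gaussianReal 0 1).map (fun t : ℝ => -t) = gaussianReal 0 1 := by
    rw [gaussianReal_map_neg, neg_zero]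
  unfold nu
  rw [Measure.map_map measurable_neg (measurable_tauσ σ s)]
  conv_rhs => rw [← h1]
  rw [Measure.map_map (measurable_tauσ σ s) measurable_neg]
  congr 1
  funext t
  simp only [Function.comp]
  rw [mul_neg, tau_neg]

theorem nu_sg (σ s : ℝ) (b : Bool) :
    MeasurePreserving (fun t : ℝ => sg b * t) (nu σ s) (nu σ s) := by
  cases b
  · have : (fun t : ℝ => sg false * t) = fun t => -t := by
      funext t; simp [sg]
    rw [this]
    exact nu_neg σ s
  · have : (fun t : ℝ => sg true * t) = id := by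
      funext t; simp [sg]
    rw [this]
    exact MeasurePreserving.id _

variable {Ω : Type*} [MeasurableSpace Ω] {P : Measure Ω} [IsProbabilityMeasure P]
  {ξ : Site d → Ω → ℝ}

/-- truncated potential -/
def zt (σ s : ℝ) (ξ : Site d → Ω → ℝ) (ω : Ω) (y : Site d) : ℝ := tau s (σ * ξ y ω)

theorem law_zt (hm : ∀ y, Measurable (ξ y)) (hlaw : ∀ y, P.map (ξ y) = gaussianReal 0 1)
    (hind : iIndepFun ξ P) (σ s : ℝ) (Λ : Finset (Site d)) :
    P.map (fun ω (y : Λ) => zt σ s ξ ω y) = Measure.pi (fun _ : Λ => nu σ s) := by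
  have h1 : iIndepFun (fun (y : Λ) => ξ (y : Site d)) P :=
    hind.precomp Subtype.val_injective
  have h2 := h1.comp (fun _ => fun t => tau s (σ * t)) (fun _ => measurable_tauσ σ s)
  have h3 := (iIndepFun_iff_map_fun_eq_pi_map (fun y : Λ =>
    ((measurable_tauσ σ s).comp (hm y)).aemeasurable)).1 h2
  have h4 : ∀ y : Λ, P.map ((fun t => tau s (σ * t)) ∘ ξ (y : Site d)) = nu σ s := by
    intro y
    rw [← Measure.map_map (measurable_tauσ σ s) (hm y), hlaw]
    rfl
  simp only [h4] at h3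
  rw [← h3]
  rfl

theorem measurable_zt (hm : ∀ y, Measurable (ξ y)) (σ s : ℝ) (Λ : Finset (Site d)) :
    Measurable (fun ω (y : Λ) => zt σ s ξ ω y) := by
  apply measurable_pi_lambda
  intro y
  exact (measurable_tauσ σ s).comp (hm y)

theorem continuous_tr {n : Type*} [Fintype n] [DecidableEq n] (C : Matrix n n ℂ) (q : ℕ) :
    Continuous fun D : n → ℝ => (XM C D ^ q).trace.re := by
  have h1 : Continuous fun D : n → ℝ => XM C D := by
    unfold XM
    have : Continuous fun D : n → ℝ => diagonal (fun y => (D y : ℂ)) := by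
      apply Continuous.matrix_diagonal
      fun_prop
    exact (continuous_const.matrix_mul this).matrix_mul continuous_const
  have h2 : Continuous fun D : n → ℝ => (XM C D ^ q).trace := (h1.pow q).matrix_trace
  exact Complex.continuous_re.comp h2

theorem lintegral_trace_le (hm : ∀ y, Measurable (ξ y))
    (hlaw : ∀ y, P.map (ξ y) = gaussianReal 0 1)
    (hind : iIndepFun ξ P) (σ : ℝ) {s : ℝ} (hs : 0 ≤ s) (Λ : Finset (Site d))
    {C : Matrix Λ Λ ℂ} (hC : C.IsHermitian) {κ L : ℝ} (hκ0 : 0 ≤ κ) (hL : 0 ≤ L)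
    (hκ : ∀ y, ((C * C) y y).re ≤ κ)
    (hK : ∀ v : Λ → ℂ, (star v ⬝ᵥ ((C * C) *ᵥ v)).re ≤ L * ∑ y, ‖v y‖ ^ 2) (p : ℕ) :
    ∫⁻ ω, ENNReal.ofReal ((XM C (fun y => zt σ s ξ ω y) ^ (2 * p)).trace.re) ∂P ≤
      ENNReal.ofReal (Λ.card * (2 * p * (s ^ 2 * κ * L)) ^ p) := by
  set F : (Λ → ℝ) → ℝ≥0∞ := fun D => ENNReal.ofReal ((XM C D ^ (2 * p)).trace.re) with hF
  have hFm : Measurable F :=
    ENNReal.measurable_ofReal.comp (continuous_tr C (2 * p)).measurable
  have hlawz := law_zt hm hlaw hind σ s Λ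
  have hmz := measurable_zt hm σ s Λ
  have h1 : ∫⁻ ω, F (fun y => zt σ s ξ ω y) ∂P = ∫⁻ D, F D ∂(Measure.pi (fun _ : Λ => nu σ s)) := by
    rw [← hlawz, lintegral_map hFm hmz]
  have hsD : ∀ e : Λ → Bool, Measurable (fun D : Λ → ℝ => sD D e) := by
    intro e
    unfold sD
    apply measurable_pi_lambda
    intro y
    exact (measurable_pi_apply y).const_mul _
  have h2 : ∀ e : Λ → Bool, ∫⁻ ω, F (sD (fun y => zt σ s ξ ω y) e) ∂P =
      ∫⁻ D, F D ∂(Measure.pi (fun _ : Λ => nu σ s)) := by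
    intro e
    have hp : MeasurePreserving (fun D : Λ → ℝ => sD D e) (Measure.pi (fun _ : Λ => nu σ s))
        (Measure.pi (fun _ : Λ => nu σ s)) :=
      measurePreserving_pi (fun _ : Λ => nu σ s) (fun _ : Λ => nu σ s)
        (f := fun y t => sg (e y) * t) (fun y => nu_sg σ s (e y))
    have h3 := hp.lintegral_comp hFm
    rw [← h3, ← hlawz, lintegral_map (f := fun D => F (sD D e)) (hFm.comp (hsD e)) hmz]
  have h4 : ∑ e : Λ → Bool, ∫⁻ ω, F (sD (fun y => zt σ s ξ ω y) e) ∂P ≤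
      ENNReal.ofReal ((2 ^ Fintype.card Λ) *
        (Fintype.card Λ * (2 * p * (s ^ 2 * κ * L)) ^ p)) := by
    have h6 := lintegral_finsetSum (μ := P) Finset.univ
      (f := fun (e : Λ → Bool) ω => F (sD (fun y => zt σ s ξ ω y) e))
      (fun e _ => (hFm.comp (hsD e)).comp hmz)
    rw [← h6]
    have h5 : ∀ ω, ∑ e : Λ → Bool, F (sD (fun y => zt σ s ξ ω y) e) ≤
        ENNReal.ofReal ((2 ^ Fintype.card Λ) *
          (Fintype.card Λ * (2 * p * (s ^ 2 * κ * L)) ^ p)) := by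
      intro ω
      rw [hF]
      rw [← ENNReal.ofReal_sum_of_nonneg (fun e _ => trace_pow_nonneg (XM_herm hC _) p)]
      apply ENNReal.ofReal_le_ofReal
      exact khintchine hC hκ0 hL hκ hK (fun y => abs_tau_le hs _) p
    calc _ ≤ ∫⁻ _ : Ω, ENNReal.ofReal ((2 ^ Fintype.card Λ) *
          (Fintype.card Λ * (2 * p * (s ^ 2 * κ * L)) ^ p)) ∂P := lintegral_mono h5
      _ = _ := by rw [lintegral_const, measure_univ, mul_one]
  have hcard : Fintype.card Λ = Λ.card := Fintype.card_coe Λ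
  simp only [h2] at h4
  rw [Finset.sum_const, Finset.card_univ, Fintype.card_fun, Fintype.card_bool, hcard,
    ENNReal.ofReal_mul (by positivity), nsmul_eq_mul] at h4
  rw [h1]
  have e2 : ENNReal.ofReal (2 ^ Λ.card) = ((2 ^ Λ.card : ℕ) : ℝ≥0∞) := by
    rw [← ENNReal.ofReal_natCast]
    push_cast
    rfl
  rw [e2] at h4
  exact (ENNReal.mul_le_mul_iff_right (by positivity) (ENNReal.natCast_ne_top _)).1 h4

/-- Probability that the operator bound fails. -/
theorem prob_bad (hm : ∀ y, Measurable (ξ y))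
    (hlaw : ∀ y, P.map (ξ y) = gaussianReal 0 1)
    (hind : iIndepFun ξ P) (σ : ℝ) {s : ℝ} (hs : 0 ≤ s) (Λ : Finset (Site d))
    {C : Matrix Λ Λ ℂ} (hC : C.IsHermitian) {κ L : ℝ} (hκ0 : 0 ≤ κ) (hL : 0 ≤ L)
    (hκ : ∀ y, ((C * C) y y).re ≤ κ)
    (hK : ∀ v : Λ → ℂ, (star v ⬝ᵥ ((C * C) *ᵥ v)).re ≤ L * ∑ y, ‖v y‖ ^ 2) {p : ℕ} (hp : 1 ≤ p) :
    P {ω | ¬ ∀ a : Λ → ℂ, nsq (XM C (fun y => zt σ s ξ ω y) *ᵥ a) ≤ 1 / 4 * nsq a} ≤
      ENNReal.ofReal (Λ.card * (8 * p * (s ^ 2 * κ * L)) ^ p) := by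
  have h1 := lintegral_trace_le hm hlaw hind σ hs Λ hC hκ0 hL hκ hK p
  set F : Ω → ℝ≥0∞ := fun ω =>
    ENNReal.ofReal ((XM C (fun y => zt σ s ξ ω y) ^ (2 * p)).trace.re) with hF
  have hFm : Measurable F :=
    ENNReal.measurable_ofReal.comp ((continuous_tr C (2 * p)).measurable.comp
      (measurable_zt hm σ s Λ))
  have hsub : {ω | ¬ ∀ a : Λ → ℂ, nsq (XM C (fun y => zt σ s ξ ω y) *ᵥ a) ≤ 1 / 4 * nsq a} ⊆
      {ω | ENNReal.ofReal ((1 / 2) ^ (2 * p)) ≤ F ω} := by
    intro ω hω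
    by_contra hcon
    apply hω
    rw [mem_ofPred_eq, not_le] at hcon
    intro a
    have h2 : (XM C (fun y => zt σ s ξ ω y) ^ (2 * p)).trace.re ≤ (1 / 2) ^ (2 * p) := by
      by_contra h3
      push Not at h3
      exact absurd (ENNReal.ofReal_le_ofReal h3.le) (not_le.2 hcon)
    have h4 := op_of_trace (XM_herm hC _) hp (by norm_num) h2 a
    norm_num at h4 ⊢
    exact h4
  refine (measure_mono hsub).trans ?_
  have h5 := meas_ge_le_lintegral_div (μ := P) hFm.aemeasurable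
    (ε := ENNReal.ofReal ((1 / 2) ^ (2 * p))) (by
      rw [Ne, ENNReal.ofReal_eq_zero, not_le]; positivity) ENNReal.ofReal_ne_top
  refine h5.trans ?_
  rw [ENNReal.div_le_iff (by rw [Ne, ENNReal.ofReal_eq_zero, not_le]; positivity)
    ENNReal.ofReal_ne_top, ← ENNReal.ofReal_mul (by positivity)]
  refine h1.trans (le_of_eq ?_)
  congr 1
  rw [pow_mul (1 / 2 : ℝ), mul_assoc (Λ.card : ℝ), ← mul_pow]
  congr 2
  ring

/-- Gaussian tail -/
theorem gauss_tail {X : Ω → ℝ} (hlaw : P.map X = gaussianReal 0 1) {R : ℝ}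
    (hR : 0 ≤ R) : P {ω | R < |X ω|} ≤ ENNReal.ofReal (2 * rexp (-(R ^ 2 / 2))) := by
  have hmgf : ∀ t : ℝ, mgf X P t = rexp (t ^ 2 / 2) := by
    intro t
    rw [mgf_gaussianReal hlaw]
    simp
  have hint : ∀ t : ℝ, Integrable (fun ω => rexp (t * X ω)) P := by
    intro t
    have h0 : 0 < mgf X P t := by rw [hmgf]; positivity
    by_contra hcon
    rw [mgf, integral_undef hcon] at h0
    exact lt_irrefl _ h0
  have h1 : P.real {ω | R ≤ X ω} ≤ rexp (-(R ^ 2 / 2)) := by
    refine (measure_ge_le_exp_mul_mgf R hR (hint R)).trans (le_of_eq ?_)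
    rw [hmgf, ← Real.exp_add]
    congr 1; ring
  have h2 : P.real {ω | X ω ≤ -R} ≤ rexp (-(R ^ 2 / 2)) := by
    refine (measure_le_le_exp_mul_mgf (-R) (by linarith : -R ≤ 0) (hint (-R))).trans (le_of_eq ?_)
    rw [hmgf, ← Real.exp_add]
    congr 1; ring
  have hsub : {ω | R < |X ω|} ⊆ {ω | R ≤ X ω} ∪ {ω | X ω ≤ -R} := by
    intro ω hω
    rw [mem_ofPred_eq, lt_abs] at hω
    rcases hω with h | h
    · left; exact h.le
    · right
      rw [mem_ofPred_eq]
      linarith
  refine (measure_mono hsub).trans ((measure_union_le _ _).trans ?_)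
  rw [two_mul, ENNReal.ofReal_add (by positivity) (by positivity)]
  apply add_le_add
  · rw [← ENNReal.ofReal_toReal (measure_ne_top P {ω | R ≤ X ω})]
    exact ENNReal.ofReal_le_ofReal h1
  · rw [← ENNReal.ofReal_toReal (measure_ne_top P {ω | X ω ≤ -R})]
    exact ENNReal.ofReal_le_ofReal h2

end Pool.Agent.Anderson
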