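import Pool.Agent.Helper17_Anderson.TwoDim

/-!
# Compression of `|Δ - z|⁻¹` to a ball at all energies
-/

set_option autoImplicit false

open MeasureTheory Set Real Function Matrix

open scoped ENNReal ComplexConjugate ComplexOrder

noncomputable section

namespace Pool.Agent.Anderson

local instance haarMS13 : MeasureSpace UnitAddCircle := ⟨AddCircle.haarAddCircle⟩

local instance haarAHTwoF : Measure.IsAddHaarMeasure (volume : Measure UnitAddCircle) :=
  inferInstanceAs (Measure.IsAddHaarMeasure AddCircle.haarAddCircle)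

local instance haarPMTwoF : IsProbabilityMeasure (volume : Measure UnitAddCircle) :=
  inferInstanceAs (IsProbabilityMeasure AddCircle.haarAddCircle)

variable {d : ℕ}

theorem slice_sup' {x : Site d} {ρ : ℕ} {B : Finset (Site d)} (hB : B ⊆ box x ρ)
    (w : Site d → ℂ) (θ : UnitAddTorus (Fin d)) (i : Fin d) (t : UnitAddCircle) :
    ENNReal.ofReal (‖hatS B w (update θ i t)‖ ^ 2) ≤ ENNReal.ofReal (2 * ρ + 1) *
      ∫⁻ s : UnitAddCircle, ENNReal.ofReal (‖hatS B w (update θ i s)‖ ^ 2) := by
  have cup : Continuous fun t : UnitAddCircle => update θ i t :=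
    continuous_const.update i continuous_id
  have ch2 : Continuous fun t : UnitAddCircle => ‖hatS B w (update θ i t)‖ ^ 2 := by
    have := (continuous_hatS B w).comp cup
    exact (this.norm).pow 2
  rw [← ofReal_integral_eq_lintegral_ofReal (integrable_of_cont1 ch2)
    (Filter.Eventually.of_forall fun s => by positivity), ← ENNReal.ofReal_mul (by positivity)]
  exact ENNReal.ofReal_le_ofReal (slice_sup hB w θ i t)

theorem upd_upd {θ : UnitAddTorus (Fin d)} {i j : Fin d} (s t s' t' : UnitAddCircle) :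
    update (update (update (update θ j t') i s') j t) i s = update (update θ j t) i s := by
  funext k
  simp only [Function.update_apply]
  split_ifs <;> rfl

theorem form_lint {x : Site d} {ρ : ℕ} {B : Finset (Site d)} (hB : B ⊆ box x ρ)
    (w : Site d → ℂ) (E : ℝ) {η : ℝ} (hη : 0 < η) (hη1 : η ≤ 1) {i j : Fin d} (hij : i ≠ j) :
    ∫⁻ θ : UnitAddTorus (Fin d), ENNReal.ofReal ((md E η θ)⁻¹) * ENNReal.ofReal (‖hatS B w θ‖ ^ 2) ≤
      ∫⁻ θ : UnitAddTorus (Fin d),
        ENNReal.ofReal ((2 * ρ + 1) ^ 2 * ((1 + 8 * c2d) * (1 + Real.log (1 / η)) ^ 2)) *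
          ENNReal.ofReal (‖hatS B w θ‖ ^ 2) := by
  have cm := continuous_inv_md (d := d) (E := E) hη
  have ch' := continuous_hatS B w
  set Fl : UnitAddTorus (Fin d) → ℝ≥0∞ := fun θ => ENNReal.ofReal (‖hatS B w θ‖ ^ 2) with hFl
  have hFlm : Measurable Fl := by
    have : Continuous fun θ => ‖hatS B w θ‖ ^ 2 := by fun_prop
    exact ENNReal.measurable_ofReal.comp this.measurable
  set mi : UnitAddTorus (Fin d) → ℝ≥0∞ := fun θ => ENNReal.ofReal ((md E η θ)⁻¹) with hmi
  have hmim : Measurable mi := ENNReal.measurable_ofReal.comp cm.measurable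
  set N : ℝ≥0∞ := ENNReal.ofReal (2 * ρ + 1) with hN
  set K : ℝ≥0∞ := ENNReal.ofReal ((1 + 8 * c2d) * (1 + Real.log (1 / η)) ^ 2) with hK
  have hcK : ENNReal.ofReal ((2 * ρ + 1) ^ 2 * ((1 + 8 * c2d) * (1 + Real.log (1 / η)) ^ 2)) =
      N ^ 2 * K := by
    rw [ENNReal.ofReal_mul (by positivity), hN, hK, ENNReal.ofReal_pow (by positivity)]
  rw [hcK]
  -- measurability of updates
  have cup2 : ∀ θ : UnitAddTorus (Fin d), Continuous fun q : UnitAddCircle × UnitAddCircle =>
      update (update θ j q.1) i q.2 := by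
    intro θ
    apply Continuous.update _ i continuous_snd
    exact continuous_const.update j continuous_fst
  set J : UnitAddTorus (Fin d) → ℝ≥0∞ := fun θ =>
    ∫⁻ t : UnitAddCircle, ∫⁻ s : UnitAddCircle, Fl (update (update θ j t) i s) with hJ
  have claim1 : ∀ θ, Fl θ ≤ N ^ 2 * J θ := by
    intro θ
    have h1 : Fl θ ≤ N * ∫⁻ s : UnitAddCircle, Fl (update θ i s) := by
      have := slice_sup' hB w θ i (θ i)
      rw [update_eq_self] at this
      exact this
    have h2 : ∀ s, Fl (update θ i s) ≤
        N * ∫⁻ t : UnitAddCircle, Fl (update (update θ j t) i s) := by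
      intro s
      have := slice_sup' hB w (update θ i s) j ((update θ i s) j)
      rw [update_eq_self] at this
      refine this.trans (le_of_eq ?_)
      congr 1
      apply lintegral_congr
      intro t
      rw [update_comm hij]
    have hmm : Measurable (uncurry fun (s t : UnitAddCircle) => Fl (update (update θ j t) i s)) := by
      have := (cup2 θ).comp (continuous_snd.prodMk continuous_fst)
      exact hFlm.comp this.measurable
    calc Fl θ ≤ N * ∫⁻ s : UnitAddCircle, Fl (update θ i s) := h1
      _ ≤ N * ∫⁻ s : UnitAddCircle, N * ∫⁻ t : UnitAddCircle, Fl (update (update θ j t) i s) := by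
          gcongr with s
          exact h2 s
      _ = N * (N * ∫⁻ s : UnitAddCircle, ∫⁻ t : UnitAddCircle,
            Fl (update (update θ j t) i s)) := by
          have hmm' : Measurable fun s : UnitAddCircle =>
              ∫⁻ t : UnitAddCircle, Fl (update (update θ j t) i s) := hmm.lintegral_prod_right'
          rw [lintegral_const_mul _ hmm']
      _ = N ^ 2 * J θ := by
          rw [lintegral_lintegral_swap hmm.aemeasurable, ← mul_assoc, ← pow_two]
  have claim2 : ∀ θ s' t', J (update (update θ j t') i s') = J θ := by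
    intro θ s' t'
    simp only [hJ, upd_upd]
  have hmd : ∀ θ : UnitAddTorus (Fin d), ∃ b : ℝ, ∀ s t : UnitAddCircle,
      md E η (update (update θ j t) i s) = √((c2 s + c2 t - b) ^ 2 + η ^ 2) := by
    intro θ
    refine ⟨E - ∑ k ∈ (Finset.univ.erase i).erase j, c2 (θ k), fun s t => ?_⟩
    unfold md
    rw [sy_update]
    have hj : j ∈ Finset.univ.erase i := Finset.mem_erase.2 ⟨hij.symm, Finset.mem_univ _⟩
    have h1 : ∑ k ∈ Finset.univ.erase i, c2 (update θ j t k) =
        c2 t + ∑ k ∈ (Finset.univ.erase i).erase j, c2 (θ k) := by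
      rw [← Finset.add_sum_erase _ _ hj, update_self]
      congr 1
      apply Finset.sum_congr rfl
      intro k hk
      rw [update_of_ne (Finset.ne_of_mem_erase hk)]
    rw [h1]
    congr 2
    ring
  have claim3 : ∀ θ, ∫⁻ t : UnitAddCircle, ∫⁻ s : UnitAddCircle,
      mi (update (update θ j t) i s) ≤ K := by
    intro θ
    obtain ⟨b, hb⟩ := hmd θ
    simp only [hmi, hb]
    exact lintegral_two_inv hη hη1 b
  set f : UnitAddTorus (Fin d) → ℝ≥0∞ := fun θ => mi θ * Fl θ with hf
  set g : UnitAddTorus (Fin d) → ℝ≥0∞ := fun θ => N ^ 2 * K * Fl θ with hg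
  have hfm : Measurable f := hmim.mul hFlm
  have hgm : Measurable g := hFlm.const_mul _
  set μ : ∀ _ : Fin d, Measure UnitAddCircle := fun _ => volume with hμ
  have key : ∫⋯∫⁻_({i, j} : Finset (Fin d)), f ∂μ ≤ ∫⋯∫⁻_({i, j} : Finset (Fin d)), g ∂μ := by
    have e1 : ∀ F : UnitAddTorus (Fin d) → ℝ≥0∞, Measurable F →
        ∫⋯∫⁻_({i, j} : Finset (Fin d)), F ∂μ = fun θ =>
          ∫⁻ t : UnitAddCircle, ∫⁻ s : UnitAddCircle, F (update (update θ j t) i s) := by
      intro F hF
      have h1 : ({i, j} : Finset (Fin d)) = insert i {j} := rfl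
      rw [h1, lmarginal_insert' F hF (by simpa using hij), lmarginal_singleton]
    rw [e1 f hfm, e1 g hgm]
    intro θ
    simp only
    have hm1 : Measurable fun q : UnitAddCircle × UnitAddCircle =>
        mi (update (update θ j q.1) i q.2) := hmim.comp (cup2 θ).measurable
    have hm2 : Measurable fun q : UnitAddCircle × UnitAddCircle =>
        Fl (update (update θ j q.1) i q.2) := hFlm.comp (cup2 θ).measurable
    have cupt : ∀ t : UnitAddCircle, Continuous fun s : UnitAddCircle =>
        update (update θ j t) i s := fun t => continuous_const.update i continuous_id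
    have hms : ∀ t : UnitAddCircle, Measurable fun s : UnitAddCircle =>
        mi (update (update θ j t) i s) := fun t => hmim.comp (cupt t).measurable
    have hms2 : ∀ t : UnitAddCircle, Measurable fun s : UnitAddCircle =>
        Fl (update (update θ j t) i s) := fun t => hFlm.comp (cupt t).measurable
    have hm1' : Measurable fun t : UnitAddCircle => ∫⁻ s : UnitAddCircle,
        mi (update (update θ j t) i s) := hm1.lintegral_prod_right'
    have hm2' : Measurable fun t : UnitAddCircle => ∫⁻ s : UnitAddCircle,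
        Fl (update (update θ j t) i s) := hm2.lintegral_prod_right'
    calc ∫⁻ t : UnitAddCircle, ∫⁻ s : UnitAddCircle, f (update (update θ j t) i s)
        ≤ ∫⁻ t : UnitAddCircle, ∫⁻ s : UnitAddCircle,
            mi (update (update θ j t) i s) * (N ^ 2 * J θ) := by
          apply lintegral_mono
          intro t
          apply lintegral_mono
          intro s
          simp only [hf]
          gcongr
          refine (claim1 _).trans (le_of_eq ?_)
          rw [claim2]
      _ = (∫⁻ t : UnitAddCircle, ∫⁻ s : UnitAddCircle,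
            mi (update (update θ j t) i s)) * (N ^ 2 * J θ) := by
          rw [← lintegral_mul_const _ hm1']
          apply lintegral_congr
          intro t
          rw [lintegral_mul_const _ (hms t)]
      _ ≤ K * (N ^ 2 * J θ) := by
          gcongr
          exact claim3 θ
      _ = ∫⁻ t : UnitAddCircle, ∫⁻ s : UnitAddCircle, g (update (update θ j t) i s) := by
          simp only [hg]
          have h5 : ∀ t : UnitAddCircle, ∫⁻ s : UnitAddCircle,
              N ^ 2 * K * Fl (update (update θ j t) i s) =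
              N ^ 2 * K * ∫⁻ s : UnitAddCircle, Fl (update (update θ j t) i s) := fun t =>
            lintegral_const_mul _ (hms2 t)
          simp only [h5]
          rw [lintegral_const_mul _ hm2']
          simp only [hJ]
          ring
  exact lintegral_le_of_lmarginal_le (μ := μ) {i, j} hfm hgm key

theorem form_ball2 (hd : 2 ≤ d) {x : Site d} {ρ : ℕ} {B : Finset (Site d)} (hB : B ⊆ box x ρ)
    (w : Site d → ℂ) (E : ℝ) {η : ℝ} (hη : 0 < η) (hη1 : η ≤ 1) :
    ∫ θ, (md E η θ)⁻¹ * ‖hatS B w θ‖ ^ 2 ≤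
      (1 + 8 * c2d) * ((2 * ρ + 1) ^ 2 * (1 + Real.log (1 / η)) ^ 2) * ∑ y ∈ B, ‖w y‖ ^ 2 := by
  set i : Fin d := ⟨0, by omega⟩
  set j : Fin d := ⟨1, by omega⟩
  have hij : i ≠ j := by simp [i, j]
  have h := form_lint hB w E hη hη1 hij
  have cm := continuous_inv_md (d := d) (E := E) hη
  have ch' := continuous_hatS B w
  have hc := c2d_ge
  have hnn : ∀ θ : UnitAddTorus (Fin d), 0 ≤ (md E η θ)⁻¹ := fun θ =>
    (inv_pos.2 (md_pos (E := E) hη θ)).le
  have e1 : ∀ θ : UnitAddTorus (Fin d),
      ENNReal.ofReal ((md E η θ)⁻¹) * ENNReal.ofReal (‖hatS B w θ‖ ^ 2) =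
      ENNReal.ofReal ((md E η θ)⁻¹ * ‖hatS B w θ‖ ^ 2) := fun θ =>
    (ENNReal.ofReal_mul (hnn θ)).symm
  have hC0 : 0 ≤ (2 * (ρ : ℝ) + 1) ^ 2 * ((1 + 8 * c2d) * (1 + Real.log (1 / η)) ^ 2) := by
    have : 0 ≤ 1 + 8 * c2d := by linarith
    positivity
  have e2 : ∀ θ : UnitAddTorus (Fin d),
      ENNReal.ofReal ((2 * ρ + 1) ^ 2 * ((1 + 8 * c2d) * (1 + Real.log (1 / η)) ^ 2)) *
          ENNReal.ofReal (‖hatS B w θ‖ ^ 2) =
      ENNReal.ofReal ((2 * ρ + 1) ^ 2 * ((1 + 8 * c2d) * (1 + Real.log (1 / η)) ^ 2) *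
        ‖hatS B w θ‖ ^ 2) := fun θ => (ENNReal.ofReal_mul hC0).symm
  simp only [e1, e2] at h
  rw [← ofReal_integral_eq_lintegral_ofReal (integrable_of_cont (by fun_prop))
      (Filter.Eventually.of_forall fun θ => mul_nonneg (hnn θ) (by positivity)),
    ← ofReal_integral_eq_lintegral_ofReal (integrable_of_cont (by fun_prop))
      (Filter.Eventually.of_forall fun θ => mul_nonneg hC0 (by positivity)),
    integral_const_mul, parsevalS] at h
  have hS0 : 0 ≤ ∑ y ∈ B, ‖w y‖ ^ 2 := Finset.sum_nonneg fun y _ => by positivity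
  refine ((ENNReal.ofReal_le_ofReal_iff (mul_nonneg hC0 hS0)).1 h).trans (le_of_eq ?_)
  ring

end Pool.Agent.Anderson
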