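import Pool.Agent.Helper17_Anderson.Large
import Pool.Agent.Helper17_Anderson.TwoForm

/-!
# Probability bound at one site
-/

set_option autoImplicit false

open MeasureTheory Set Real Function Matrix ProbabilityTheory

open scoped ENNReal ComplexConjugate ComplexOrder

noncomputable section

namespace Pool.Agent.Anderson

variable {d : ℕ}

local instance haarMS11 : MeasureSpace UnitAddCircle := ⟨AddCircle.haarAddCircle⟩

local instance haarAHSite : Measure.IsAddHaarMeasure (volume : Measure UnitAddCircle) :=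
  inferInstanceAs (Measure.IsAddHaarMeasure AddCircle.haarAddCircle)

local instance haarPMSite : IsProbabilityMeasure (volume : Measure UnitAddCircle) :=
  inferInstanceAs (IsProbabilityMeasure AddCircle.haarAddCircle)

/-- the constant in the deterministic bound -/
def cdet (d : ℕ) : ℝ := 4 * (9 + 12 * d ^ 2) * (1 + 1024 * π)

/-- the net of energies -/
def netE (d : ℕ) (η : ℝ) (j : ℕ) : ℝ := -(2 * d + 2) + j * η

/-- size of the net -/
def netJ (d : ℕ) (η : ℝ) : ℕ := ⌊(4 * d + 4) / η⌋₊ + 1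

theorem net_spec {η : ℝ} (hη : 0 < η) {lam : ℝ} (h : |lam| ≤ 2 * d + 2) :
    ∃ j < netJ d η, |lam - netE d η j| ≤ η := by
  have h1 := abs_le.1 h
  have hnn : 0 ≤ (lam + (2 * d + 2)) / η := div_nonneg (by linarith) hη.le
  refine ⟨⌊(lam + (2 * d + 2)) / η⌋₊, ?_, ?_⟩
  · unfold netJ
    apply Nat.lt_succ_of_le
    apply Nat.floor_le_floor
    apply div_le_div_of_nonneg_right _ hη.le
    linarith
  · have h2 := Nat.floor_le hnn
    have h3 := Nat.lt_floor_add_one ((lam + (2 * d + 2)) / η)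
    rw [le_div_iff₀ hη] at h2
    rw [div_lt_iff₀ hη] at h3
    unfold netE
    rw [abs_le]
    constructor <;> linarith

variable {Ω : Type*} [MeasurableSpace Ω] {P : Measure Ω} [IsProbabilityMeasure P]
  {ξ : Site d → Ω → ℝ}

/-- square root of the kernel matrix -/
def Csq (Λ : Finset (Site d)) (E η : ℝ) (hη : 0 < η) : Matrix Λ Λ ℂ :=
  (exists_sqrt (Kmat_posSemidef Λ (E := E) hη)).choose

theorem Csq_herm (Λ : Finset (Site d)) (E η : ℝ) (hη : 0 < η) : (Csq Λ E η hη).IsHermitian :=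
  (exists_sqrt (Kmat_posSemidef Λ (E := E) hη)).choose_spec.1

theorem Csq_sq (Λ : Finset (Site d)) (E η : ℝ) (hη : 0 < η) :
    Csq Λ E η hη * Csq Λ E η hη = Kmat Λ E η :=
  (exists_sqrt (Kmat_posSemidef Λ (E := E) hη)).choose_spec.2

/-- the set of samples where the operator bound fails at energy `E` -/
def badE (ξ : Site d → Ω → ℝ) (σ s : ℝ) (Λ : Finset (Site d)) (E η : ℝ) (hη : 0 < η) : Set Ω :=
  {ω | ¬ ∀ a : Λ → ℂ, nsq (XM (Csq Λ E η hη) (fun y => zt σ s ξ ω y) *ᵥ a) ≤ 1 / 4 * nsq a}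

/-- samples with a large value of the potential in the box -/
def badV (ξ : Site d → Ω → ℝ) (R : ℝ) (Λ : Finset (Site d)) : Set Ω :=
  {ω | ∃ y ∈ Λ, R < |ξ y ω|}

/-- the bad set for the site `x` -/
def badS (ξ : Site d → Ω → ℝ) (σ R : ℝ) (x : Site d) (η : ℝ) (hη : 0 < η) : Set Ω :=
  badV ξ R (box x ⌊1 / η⌋₊) ∪
    ⋃ j ∈ Finset.range (netJ d η), badE ξ σ (|σ| * R) (box x ⌊1 / η⌋₊) (netE d η j) η hη

omit [MeasurableSpace Ω] in
theorem good_site {σ R η : ℝ} (hη : 0 < η) (hσR : |σ| * R ≤ 1)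
    {x : Site d} {ω : Ω} (hω : ω ∉ badS ξ σ R x η hη) {lam : ℝ} {v : L2 d}
    (hv : IsQuasi (fun y => σ * ξ y ω) η lam v) :
    ∃ E : ℝ, |lam - E| ≤ η ∧
      ∫ θ, md E η θ * ‖hatV (fun y : box x ⌊1 / η⌋₊ => (cut η x y : ℂ) * v y) θ‖ ^ 2 ≤
        4 * (9 + 12 * d ^ 2) * η := by
  obtain ⟨hv1, r, hr, heq⟩ := hv
  set n : ℕ := ⌊1 / η⌋₊ with hn
  have hn1 : 1 / η < n + 1 := Nat.lt_floor_add_one _
  unfold badS at hω
  rw [mem_union, not_or] at hω
  obtain ⟨hωV, hωE⟩ := hω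
  have hξ : ∀ y ∈ box x n, |ξ y ω| ≤ R := by
    intro y hy
    by_contra hcon
    push Not at hcon
    exact hωV ⟨y, hy, hcon⟩
  have hD1 : ∀ y ∈ box x n, |σ * ξ y ω| ≤ |σ| * R := by
    intro y hy
    rw [abs_mul]
    exact mul_le_mul_of_nonneg_left (hξ y hy) (abs_nonneg _)
  have hD : ∀ y ∈ box x n, zt σ (|σ| * R) ξ ω y = σ * ξ y ω := fun y hy => tau_eq (hD1 y hy)
  by_cases hlam : |lam| ≤ 2 * d + 2
  · obtain ⟨j, hj, hjE⟩ := net_spec hη hlam
    have hgood : ∀ a : box x n → ℂ, nsq (XM (Csq (box x n) (netE d η j) η hη)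
        (fun y => zt σ (|σ| * R) ξ ω y) *ᵥ a) ≤ 1 / 4 * nsq a := by
      by_contra hcon
      apply hωE
      rw [mem_iUnion₂]
      exact ⟨j, Finset.mem_range.2 hj, hcon⟩
    exact ⟨netE d η j, hjE,
      quasi_N2 hη hn1 x hD hv1 hr hjE heq (Csq_herm _ _ _ hη) (Csq_sq _ _ _ hη) hgood⟩
  · push Not at hlam
    have hX := large_hX (Λ := box x n) (D := fun y => zt σ (|σ| * R) ξ ω y) hη hlam.le
      (fun y hy => by
        rw [hD y hy]
        exact (hD1 y hy).trans hσR) (Csq_herm _ lam _ hη) (Csq_sq _ lam _ hη)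
    exact ⟨lam, by simpa using hη.le, quasi_N2 hη hn1 x hD hv1 hr (by simpa using hη.le) heq
      (Csq_herm _ _ _ hη) (Csq_sq _ _ _ hη) hX⟩

omit [MeasurableSpace Ω] in
theorem good_sup (hd : 3 ≤ d) {σ R η : ℝ} (hη : 0 < η) (hη1 : η ≤ 1) (hσR : |σ| * R ≤ 1)
    {x : Site d} {ω : Ω} (hω : ω ∉ badS ξ σ R x η hη) {lam : ℝ} {v : L2 d}
    (hv : IsQuasi (fun y => σ * ξ y ω) η lam v) :
    ‖v x‖ ^ 2 ≤ cdet d * (η * (1 + Real.log (1 / η))) := by
  obtain ⟨E, -, hN⟩ := good_site hη hσR hω hv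
  exact quasi_bound hd hη hη1 (Nat.lt_floor_add_one _) x hN

/-- constant in the ball bound -/
def cball (d : ℕ) : ℝ := 16 * (9 + 12 * d ^ 2) * (2 * (2 + 4 * d * (1 + 4 * π)))

theorem cball_ge : 2 ≤ cball d := by
  unfold cball
  have hpi := Real.pi_pos
  have h1 : (0:ℝ) ≤ 12 * d ^ 2 := by positivity
  have h2 : (0:ℝ) ≤ 4 * d * (1 + 4 * π) := by positivity
  nlinarith

theorem Regular.mono {E E' δ η : ℝ} (h : Regular d E δ) (hE : |E - E'| ≤ η) (hη : η ≤ δ / 2) :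
    Regular d E' (δ / 2) := by
  intro k hk
  have h1 := h k hk
  have h2 := abs_add_le (E - E') (E' - (2 * d - 4 * k))
  rw [show E - E' + (E' - (2 * d - 4 * k)) = E - (2 * d - 4 * k) by ring] at h2
  linarith

omit [MeasurableSpace Ω] in
theorem good_ball {σ R η : ℝ} (hη : 0 < η) (hη1 : η ≤ 1) (hσR : |σ| * R ≤ 1)
    {x : Site d} {ω : Ω} (hω : ω ∉ badS ξ σ R x η hη) {lam δ : ℝ} {v : L2 d}
    (hv : IsQuasi (fun y => σ * ξ y ω) η lam v) (hδ : 0 < δ) (hδ1 : δ ≤ 1)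
    (hreg : Regular d lam δ) (ρ : ℕ) :
    ∑ y ∈ box x ρ, ‖v y‖ ^ 2 ≤
      cball d / δ * ((2 * ρ + 1) * (η * (1 + Real.log (1 / η)))) := by
  have hl0 : 0 ≤ Real.log (1 / η) := Real.log_nonneg (by rw [le_div_iff₀ hη]; linarith)
  have hpi := Real.pi_pos
  have hcb := cball_ge (d := d)
  have hρ0 : (0:ℝ) ≤ ρ := by positivity
  have hmass : ∑ y ∈ box x ρ, ‖v y‖ ^ 2 ≤ 1 := by
    have h1 : ∑ y ∈ box x ρ, ‖v y‖ ^ 2 ≤ ‖v‖ ^ 2 := by
      rw [L2.norm_sq]
      exact (L2.summable_sq v).sum_le_tsum _ (fun y _ => by positivity)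
    have h2 := norm_nonneg v
    have h3 := hv.1
    nlinarith
  have hcδ : 2 / δ ≤ cball d / δ := div_le_div_of_nonneg_right hcb hδ.le
  by_cases hc1 : δ / 2 < η
  · have h1 : 1 ≤ 2 / δ * η := by
      rw [div_mul_eq_mul_div, le_div_iff₀ hδ]; linarith
    have h2 : 2 / δ * η ≤ cball d / δ * ((2 * ρ + 1) * (η * (1 + Real.log (1 / η)))) := by
      apply mul_le_mul hcδ _ hη.le (by positivity)
      have h3 : η ≤ η * (1 + Real.log (1 / η)) := le_mul_of_one_le_right hη.le (by linarith)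
      have h4 : η * (1 + Real.log (1 / η)) ≤ (2 * ρ + 1) * (η * (1 + Real.log (1 / η))) :=
        le_mul_of_one_le_left (by positivity) (by linarith)
      linarith
    linarith
  push Not at hc1
  by_cases hc2 : 1 / 2 < ρ * η
  · have h1 : 1 ≤ 2 / δ * ((2 * ρ + 1) * η) := by
      rw [div_mul_eq_mul_div, le_div_iff₀ hδ]
      nlinarith
    have h2 : 2 / δ * ((2 * ρ + 1) * η) ≤
        cball d / δ * ((2 * ρ + 1) * (η * (1 + Real.log (1 / η)))) := by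
      apply mul_le_mul hcδ _ (by positivity) (by positivity)
      apply mul_le_mul_of_nonneg_left _ (by positivity)
      exact le_mul_of_one_le_right hη.le (by linarith)
    linarith
  push Not at hc2
  obtain ⟨E, hE, hN⟩ := good_site hη hσR hω hv
  have hregE : Regular d E (δ / 2) := hreg.mono hE hc1
  set w : Site d → ℂ := fun y => (cut η x y : ℂ) * v y with hw
  have hw0 : ∀ y ∉ box x ⌊1 / η⌋₊, w y = 0 := by
    intro y hy
    simp only [hw, cut_support hη (Nat.lt_floor_add_one _) hy, Complex.ofReal_zero, zero_mul]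
  set T : ℝ := (2 + 4 * d * (1 + 4 * π)) / (δ / 2) * ((2 * ρ + 1) * (1 + Real.log (1 / η))) with hT
  have hT0 : 0 < T := by positivity
  have hform := form_ball (x := x) (ρ := ρ) (B := box x ρ) (le_refl _) w (by positivity) hregE hη hη1
  have hmw := mass_of_N2 hw0 hη hT0 hform
  have hmw2 : ∑ y ∈ box x ρ, ‖w y‖ ^ 2 ≤ T * (4 * (9 + 12 * d ^ 2) * η) :=
    hmw.trans (mul_le_mul_of_nonneg_left hN hT0.le)
  have hvw : ∀ y ∈ box x ρ, ‖v y‖ ^ 2 ≤ 4 * ‖w y‖ ^ 2 := by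
    intro y hy
    have h1 : ‖y - x‖ ≤ ρ := by
      rw [pi_norm_le_iff_of_nonneg hρ0]
      intro i
      have h2 := mem_box.1 hy i
      rw [Int.norm_eq_abs, Pi.sub_apply]
      have : ((|y i - x i| : ℤ) : ℝ) ≤ ((ρ : ℤ) : ℝ) := by exact_mod_cast h2
      push_cast at this ⊢
      exact this
    have h3 : 1 / 2 ≤ cut η x y := by
      unfold cut
      apply le_max_of_le_right
      nlinarith
    have h4 : ‖w y‖ = cut η x y * ‖v y‖ := by
      simp only [hw]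
      rw [norm_mul, Complex.norm_real, Real.norm_eq_abs, abs_of_nonneg (cut_nonneg _ _ _)]
    rw [h4, mul_pow]
    have h5 : 1 ≤ 4 * cut η x y ^ 2 := by nlinarith
    have h6 : 0 ≤ ‖v y‖ ^ 2 := by positivity
    nlinarith
  calc ∑ y ∈ box x ρ, ‖v y‖ ^ 2 ≤ ∑ y ∈ box x ρ, 4 * ‖w y‖ ^ 2 := Finset.sum_le_sum hvw
    _ = 4 * ∑ y ∈ box x ρ, ‖w y‖ ^ 2 := by rw [Finset.mul_sum]
    _ ≤ 4 * (T * (4 * (9 + 12 * d ^ 2) * η)) := by linarith
    _ = _ := by
        rw [hT]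
        unfold cball
        field_simp
        ring

omit [MeasurableSpace Ω] in
/-- ball bound from a form bound -/
theorem ball_of_form {η : ℝ} (hη : 0 < η) {x : Site d} {v : L2 d} {E : ℝ}
    (hN : ∫ θ, md E η θ * ‖hatV (fun y : box x ⌊1 / η⌋₊ => (cut η x y : ℂ) * v y) θ‖ ^ 2 ≤
        4 * (9 + 12 * d ^ 2) * η) {ρ : ℕ} (hρ : ρ * η ≤ 1 / 2) {T : ℝ} (hT0 : 0 < T)
    (hform : ∫ θ, (md E η θ)⁻¹ * ‖hatS (box x ρ) (fun y => (cut η x y : ℂ) * v y) θ‖ ^ 2 ≤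
      T * ∑ y ∈ box x ρ, ‖(fun y => (cut η x y : ℂ) * v y) y‖ ^ 2) :
    ∑ y ∈ box x ρ, ‖v y‖ ^ 2 ≤ 4 * (T * (4 * (9 + 12 * d ^ 2) * η)) := by
  have hρ0 : (0:ℝ) ≤ ρ := by positivity
  set w : Site d → ℂ := fun y => (cut η x y : ℂ) * v y with hw
  have hw0 : ∀ y ∉ box x ⌊1 / η⌋₊, w y = 0 := by
    intro y hy
    simp only [hw, cut_support hη (Nat.lt_floor_add_one _) hy, Complex.ofReal_zero, zero_mul]
  have hmw := mass_of_N2 hw0 hη hT0 hform
  have hmw2 : ∑ y ∈ box x ρ, ‖w y‖ ^ 2 ≤ T * (4 * (9 + 12 * d ^ 2) * η) :=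
    hmw.trans (mul_le_mul_of_nonneg_left hN hT0.le)
  have hvw : ∀ y ∈ box x ρ, ‖v y‖ ^ 2 ≤ 4 * ‖w y‖ ^ 2 := by
    intro y hy
    have h1 : ‖y - x‖ ≤ ρ := by
      rw [pi_norm_le_iff_of_nonneg hρ0]
      intro i
      have h2 := mem_box.1 hy i
      rw [Int.norm_eq_abs, Pi.sub_apply]
      have : ((|y i - x i| : ℤ) : ℝ) ≤ ((ρ : ℤ) : ℝ) := by exact_mod_cast h2
      push_cast at this ⊢
      exact this
    have h3 : 1 / 2 ≤ cut η x y := by
      unfold cut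
      apply le_max_of_le_right
      nlinarith
    have h4 : ‖w y‖ = cut η x y * ‖v y‖ := by
      simp only [hw]
      rw [norm_mul, Complex.norm_real, Real.norm_eq_abs, abs_of_nonneg (cut_nonneg _ _ _)]
    rw [h4, mul_pow]
    have h5 : 1 ≤ 4 * cut η x y ^ 2 := by nlinarith
    have h6 : 0 ≤ ‖v y‖ ^ 2 := by positivity
    nlinarith
  calc ∑ y ∈ box x ρ, ‖v y‖ ^ 2 ≤ ∑ y ∈ box x ρ, 4 * ‖w y‖ ^ 2 := Finset.sum_le_sum hvw
    _ = 4 * ∑ y ∈ box x ρ, ‖w y‖ ^ 2 := by rw [Finset.mul_sum]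
    _ ≤ 4 * (T * (4 * (9 + 12 * d ^ 2) * η)) := by linarith

/-- constant in the ball bound at all energies -/
def cball2 (d : ℕ) : ℝ := 16 * (9 + 12 * d ^ 2) * (1 + 8 * c2d)

theorem cball2_ge : 1 ≤ cball2 d := by
  unfold cball2
  have hc := c2d_ge
  have h1 : (0:ℝ) ≤ 12 * d ^ 2 := by positivity
  nlinarith

omit [MeasurableSpace Ω] in
theorem good_ball2 (hd : 2 ≤ d) {σ R η : ℝ} (hη : 0 < η) (hη1 : η ≤ 1) (hσR : |σ| * R ≤ 1)
    {x : Site d} {ω : Ω} (hω : ω ∉ badS ξ σ R x η hη) {lam : ℝ} {v : L2 d}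
    (hv : IsQuasi (fun y => σ * ξ y ω) η lam v) (ρ : ℕ) :
    ∑ y ∈ box x ρ, ‖v y‖ ^ 2 ≤
      cball2 d * ((2 * ρ + 1) ^ 2 * (η * (1 + Real.log (1 / η)) ^ 2)) := by
  have hl0 : 0 ≤ Real.log (1 / η) := Real.log_nonneg (by rw [le_div_iff₀ hη]; linarith)
  have hcb := cball2_ge (d := d)
  have hρ0 : (0:ℝ) ≤ ρ := by positivity
  have hc2 := c2d_ge
  set l : ℝ := 1 + Real.log (1 / η) with hl
  have hl1 : 1 ≤ l := by rw [hl]; linarith
  by_cases hc : 1 / 2 < ρ * η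
  · have hmass : ∑ y ∈ box x ρ, ‖v y‖ ^ 2 ≤ 1 := by
      have h1 : ∑ y ∈ box x ρ, ‖v y‖ ^ 2 ≤ ‖v‖ ^ 2 := by
        rw [L2.norm_sq]
        exact (L2.summable_sq v).sum_le_tsum _ (fun y _ => by positivity)
      have h2 := norm_nonneg v
      have h3 := hv.1
      nlinarith
    have h1 : 1 ≤ (2 * (ρ : ℝ) + 1) ^ 2 * η := by nlinarith
    have h2 : η ≤ η * l ^ 2 := le_mul_of_one_le_right hη.le (one_le_pow₀ hl1)
    have h3 : (2 * (ρ : ℝ) + 1) ^ 2 * η ≤ (2 * ρ + 1) ^ 2 * (η * l ^ 2) :=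
      mul_le_mul_of_nonneg_left h2 (by positivity)
    have h4 := one_le_mul_of_one_le_of_one_le hcb (h1.trans h3)
    linarith
  push Not at hc
  obtain ⟨E, -, hN⟩ := good_site hη hσR hω hv
  have hT0 : 0 < (1 + 8 * c2d) * ((2 * (ρ : ℝ) + 1) ^ 2 * l ^ 2) := by
    have : 0 < 1 + 8 * c2d := by linarith
    positivity
  have hform := form_ball2 hd (x := x) (ρ := ρ) (B := box x ρ) (le_refl _)
    (fun y => (cut η x y : ℂ) * v y) E hη hη1
  refine (ball_of_form hη hN hc hT0 hform).trans (le_of_eq ?_)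
  unfold cball2
  ring

theorem nat_mul_ofReal (k : ℕ) (a : ℝ) :
    (k : ℝ≥0∞) * ENNReal.ofReal a = ENNReal.ofReal (k * a) := by
  rw [ENNReal.ofReal_mul (by positivity), ENNReal.ofReal_natCast]

theorem prob_badS (hd : 3 ≤ d) (hm : ∀ y, Measurable (ξ y))
    (hlaw : ∀ y, P.map (ξ y) = gaussianReal 0 1) (hind : iIndepFun ξ P)
    {σ R η : ℝ} (hη : 0 < η) (hη1 : η ≤ 1) (hR : 0 ≤ R) (x : Site d) {p : ℕ} (hp : 1 ≤ p) :
    P (badS ξ σ R x η hη) ≤ ENNReal.ofReal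
      ((2 * ⌊1 / η⌋₊ + 1) ^ d * (2 * rexp (-(R ^ 2 / 2)) +
        netJ d η * (8 * p * ((|σ| * R) ^ 2 * ((1 + 1024 * π) * (1 + Real.log (1 / η))) * η⁻¹)) ^ p)) := by
  set n : ℕ := ⌊1 / η⌋₊ with hn
  set κ : ℝ := (1 + 1024 * π) * (1 + Real.log (1 / η)) with hκ
  have hl0 : 0 ≤ Real.log (1 / η) := Real.log_nonneg (by rw [le_div_iff₀ hη]; linarith)
  have hpi := Real.pi_pos
  have hκ0 : 0 ≤ κ := by positivity
  have hs : 0 ≤ |σ| * R := by positivity
  have h1 : P (badV ξ R (box x n)) ≤ ENNReal.ofReal ((2 * n + 1) ^ d * (2 * rexp (-(R ^ 2 / 2)))) := by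
    have : badV ξ R (box x n) ⊆ ⋃ y ∈ box x n, {ω | R < |ξ y ω|} := by
      rintro ω ⟨y, hy, h⟩
      rw [mem_iUnion₂]
      exact ⟨y, hy, h⟩
    refine (measure_mono this).trans ((measure_biUnion_finset_le _ _).trans ?_)
    refine (Finset.sum_le_sum fun y _ => gauss_tail (hlaw y) hR).trans ?_
    rw [Finset.sum_const, card_box, nsmul_eq_mul, nat_mul_ofReal]
    push_cast
    rfl
  have h2 : P (⋃ j ∈ Finset.range (netJ d η), badE ξ σ (|σ| * R) (box x n) (netE d η j) η hη) ≤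
      ENNReal.ofReal (netJ d η * ((2 * n + 1) ^ d *
        (8 * p * ((|σ| * R) ^ 2 * κ * η⁻¹)) ^ p)) := by
    refine (measure_biUnion_finset_le _ _).trans ?_
    have h3 : ∀ j : ℕ, P (badE ξ σ (|σ| * R) (box x n) (netE d η j) η hη) ≤
        ENNReal.ofReal ((2 * n + 1) ^ d * (8 * p * ((|σ| * R) ^ 2 * κ * η⁻¹)) ^ p) := by
      intro j
      have h4 := prob_bad (P := P) hm hlaw hind σ hs (box x n) (Csq_herm _ (netE d η j) _ hη)
        (κ := κ) (L := η⁻¹) hκ0 (by positivity)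
        (by
          intro y
          rw [Csq_sq, Kmat_diag, Complex.ofReal_re]
          exact kap_le hd _ hη hη1)
        (by
          intro v
          rw [Csq_sq]
          exact Kmat_le _ hη v) hp
      rw [card_box] at h4
      push_cast at h4
      exact h4
    refine (Finset.sum_le_sum fun j _ => h3 j).trans (le_of_eq ?_)
    rw [Finset.sum_const, Finset.card_range, nsmul_eq_mul, nat_mul_ofReal]
  unfold badS
  refine (measure_union_le _ _).trans ((add_le_add h1 h2).trans (le_of_eq ?_))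
  rw [← ENNReal.ofReal_add (by positivity) (by positivity)]
  congr 1
  ring

end Pool.Agent.Anderson
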