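import Pool.Agent.Helper17_Anderson.Kappa

/-!
# Compression of `|Δ - z|⁻¹` to a ball, away from the critical energies
-/

set_option autoImplicit false

open MeasureTheory Set Real Function Matrix

open scoped ENNReal ComplexConjugate ComplexOrder

noncomputable section

namespace Pool.Agent.Anderson

local instance haarMS9 : MeasureSpace UnitAddCircle := ⟨AddCircle.haarAddCircle⟩

local instance haarAHSlice : Measure.IsAddHaarMeasure (volume : Measure UnitAddCircle) :=
  inferInstanceAs (Measure.IsAddHaarMeasure AddCircle.haarAddCircle)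

local instance haarPMSlice : IsProbabilityMeasure (volume : Measure UnitAddCircle) :=
  inferInstanceAs (IsProbabilityMeasure AddCircle.haarAddCircle)

variable {d : ℕ}

/-- `sin (2πθ)` -/
def sn (θ : UnitAddCircle) : ℝ := (u θ).im

theorem continuous_sn : Continuous sn := by
  unfold sn
  have := continuous_u
  fun_prop

theorem sn_sq (θ : UnitAddCircle) : sn θ ^ 2 = 1 - (c2 θ / 2) ^ 2 := by
  have hu := norm_u θ
  have h := Complex.normSq_eq_norm_sq (u θ)
  rw [hu, Complex.normSq_apply] at h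
  unfold sn c2
  nlinarith

theorem abs_c2_le' (θ : UnitAddCircle) : |c2 θ| ≤ 2 := by
  unfold c2
  rw [abs_mul, abs_of_pos (by norm_num : (0:ℝ) < 2)]
  have := Complex.abs_re_le_norm (u θ)
  rw [norm_u] at this
  linarith

theorem sn_sq_le_one (θ : UnitAddCircle) : sn θ ^ 2 ≤ 1 := by
  rw [sn_sq]; nlinarith [sq_nonneg (c2 θ / 2)]

/-- a key pointwise inequality -/
theorem sn_ker_aux {η s2 t q : ℝ} (hη : 0 < η) (_hs0 : 0 ≤ s2) (hs1 : s2 ≤ 1)
    (h : q ^ 2 * s2 ≤ t ^ 2) : s2 * ker η t ≤ ker η q := by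
  unfold ker
  rw [mul_div_assoc', div_le_div_iff₀ (by positivity) (by positivity)]
  have h1 : s2 * (q ^ 2 + η ^ 2) ≤ t ^ 2 + η ^ 2 := by nlinarith [sq_nonneg η]
  nlinarith

theorem lintegral_sn_ker {η : ℝ} (hη : 0 < η) (b : ℝ) :
    ∫⁻ θ : UnitAddCircle, ENNReal.ofReal (sn θ ^ 2 * ker η (c2 θ - b)) ≤
      ENNReal.ofReal (π / 2) := by
  have hpi := Real.pi_pos
  have hK : ∀ a : ℂ, ‖a‖ = 1 → ∫⁻ θ : UnitAddCircle, ENNReal.ofReal (ker η ‖u θ - a‖) ≤
      ENNReal.ofReal (π / 4) := by
    intro a ha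
    have := lintegral_ker_circle hη zero_lt_one ha
    simpa using this
  have hmono : ENNReal.ofReal (π / 4) ≤ ENNReal.ofReal (π / 2) :=
    ENNReal.ofReal_le_ofReal (by linarith)
  rcases le_or_gt |b| 2 with h | h
  · obtain ⟨a, ha, hac, -⟩ := exists_a h
    have ha' : ‖conj a‖ = 1 := by rw [Complex.norm_conj, ha]
    have hpt : ∀ θ, ENNReal.ofReal (sn θ ^ 2 * ker η (c2 θ - b)) ≤
        ENNReal.ofReal (ker η ‖u θ - a‖) + ENNReal.ofReal (ker η ‖u θ - conj a‖) := by
      intro θ
      have h1 := c2_sub_eq ha hac θ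
      have n1 := norm_nonneg (u θ - a)
      have n2 := norm_nonneg (u θ - conj a)
      have h2 : 2 * |sn θ| ≤ ‖u θ - a‖ + ‖u θ - conj a‖ := by
        have e1 : ‖u θ - conj (u θ)‖ = 2 * |sn θ| := by
          rw [Complex.sub_conj, norm_mul, Complex.norm_I, mul_one, Complex.norm_real,
            Real.norm_eq_abs, abs_mul, abs_of_pos (by norm_num : (0:ℝ) < 2)]
          rfl
        have e2 : ‖conj a - conj (u θ)‖ = ‖u θ - a‖ := by
          rw [← map_sub, Complex.norm_conj, norm_sub_rev]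
        rw [← e1]
        calc ‖u θ - conj (u θ)‖ = ‖(u θ - conj a) + (conj a - conj (u θ))‖ := by
              congr 1; ring
          _ ≤ ‖u θ - conj a‖ + ‖conj a - conj (u θ)‖ := norm_add_le _ _
          _ = _ := by rw [e2]; ring
      have hsq : (c2 θ - b) ^ 2 = ‖u θ - a‖ ^ 2 * ‖u θ - conj a‖ ^ 2 := by
        rw [← sq_abs, h1, mul_pow]
      rcases le_total ‖u θ - a‖ ‖u θ - conj a‖ with h3 | h3
      · refine le_trans (ENNReal.ofReal_le_ofReal ?_) (le_add_right le_rfl)
        apply sn_ker_aux hη (sq_nonneg _) (sn_sq_le_one θ)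
        rw [hsq]
        apply mul_le_mul_of_nonneg_left _ (sq_nonneg _)
        rw [← sq_abs]
        exact pow_le_pow_left₀ (abs_nonneg _) (by linarith) 2
      · refine le_trans (ENNReal.ofReal_le_ofReal ?_) (le_add_left le_rfl)
        apply sn_ker_aux hη (sq_nonneg _) (sn_sq_le_one θ)
        rw [hsq, mul_comm (‖u θ - a‖ ^ 2)]
        apply mul_le_mul_of_nonneg_left _ (sq_nonneg _)
        rw [← sq_abs]
        exact pow_le_pow_left₀ (abs_nonneg _) (by linarith) 2
    refine (lintegral_mono hpt).trans ?_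
    have hm : Measurable fun θ : UnitAddCircle => ENNReal.ofReal (ker η ‖u θ - a‖) := by
      have h4 := (continuous_ker hη).measurable
      have h5 := measurable_u
      fun_prop
    rw [lintegral_add_left hm]
    refine (add_le_add (hK a ha) (hK _ ha')).trans (le_of_eq ?_)
    rw [← ENNReal.ofReal_add (by positivity) (by positivity)]
    congr 1; ring
  · have hc := abs_c2_le'
    rcases lt_abs.1 h with h | h
    · refine (lintegral_mono fun θ => ENNReal.ofReal_le_ofReal ?_).trans ((hK 1 (by simp)).trans hmono)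
      apply sn_ker_aux hη (sq_nonneg _) (sn_sq_le_one θ)
      have h1 := norm_sub_one_sq θ
      have h2 := abs_le.1 (hc θ)
      rw [sn_sq, h1]
      have h3 : (2 - c2 θ) * (1 - (c2 θ / 2) ^ 2) ≤ (2 - c2 θ) * (2 - c2 θ) := by
        apply mul_le_mul_of_nonneg_left _ (by linarith)
        nlinarith
      have h4 : (2 - c2 θ) * (2 - c2 θ) ≤ (b - c2 θ) * (b - c2 θ) :=
        mul_self_le_mul_self (by linarith) (by linarith)
      nlinarith
    · refine (lintegral_mono fun θ => ENNReal.ofReal_le_ofReal ?_).trans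
        ((hK (-1) (by simp)).trans hmono)
      apply sn_ker_aux hη (sq_nonneg _) (sn_sq_le_one θ)
      have h1 := norm_add_one_sq θ
      have h2 := abs_le.1 (hc θ)
      rw [sn_sq, h1]
      have h3 : (2 + c2 θ) * (1 - (c2 θ / 2) ^ 2) ≤ (2 + c2 θ) * (2 + c2 θ) := by
        apply mul_le_mul_of_nonneg_left _ (by linarith)
        nlinarith
      have h4 : (2 + c2 θ) * (2 + c2 θ) ≤ (c2 θ - b) * (c2 θ - b) :=
        mul_self_le_mul_self (by linarith) (by linarith)
      nlinarith

theorem lintegral_sn_inv {η : ℝ} (hη : 0 < η) (hη1 : η ≤ 1) (b : ℝ) :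
    ∫⁻ θ : UnitAddCircle, ENNReal.ofReal (sn θ ^ 2 * (√((c2 θ - b) ^ 2 + η ^ 2))⁻¹) ≤
      ENNReal.ofReal ((1 + 4 * π) * (1 + Real.log (1 / η))) := by
  have hpi := Real.pi_pos
  set n : ℕ := ⌈Real.logb 2 (1 / η)⌉₊ with hn
  have hl0 : 0 ≤ Real.log (1 / η) := Real.log_nonneg (by
    rw [le_div_iff₀ hη]; linarith)
  have hn1 : 1 ≤ 2 ^ n * η := by
    have h1 : Real.logb 2 (1 / η) ≤ n := Nat.le_ceil _
    have h2 : (1 / η) ≤ (2:ℝ) ^ (n:ℝ) := by
      rw [← Real.logb_le_iff_le_rpow (by norm_num) (by positivity)]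
      exact h1
    rw [Real.rpow_natCast] at h2
    rw [div_le_iff₀ hη] at h2
    exact h2
  have hn2 : (n : ℝ) + 1 ≤ 2 * (1 + Real.log (1 / η)) := by
    have h1 : (n : ℝ) < Real.logb 2 (1 / η) + 1 := by
      apply Nat.ceil_lt_add_one
      exact Real.logb_nonneg (by norm_num) (by rw [le_div_iff₀ hη]; linarith)
    have h2 : Real.logb 2 (1 / η) ≤ 2 * Real.log (1 / η) := by
      unfold Real.logb
      rw [div_le_iff₀ (Real.log_pos (by norm_num))]
      have := Real.log_two_gt_d9
      nlinarith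
    linarith
  have mk : ∀ k : ℕ, Measurable (ker (2 ^ k * η)) := fun k =>
    (continuous_ker (η := 2 ^ k * η) (by positivity)).measurable
  have ms := continuous_sn.measurable
  have mc := measurable_c2
  have hpt : ∀ θ : UnitAddCircle, ENNReal.ofReal (sn θ ^ 2 * (√((c2 θ - b) ^ 2 + η ^ 2))⁻¹) ≤
      1 + 4 * ∑ k ∈ Finset.range (n + 1),
        ENNReal.ofReal (sn θ ^ 2 * ker (2 ^ k * η) (c2 θ - b)) := by
    intro θ
    have hnn : ∀ k ∈ Finset.range (n + 1), 0 ≤ sn θ ^ 2 * ker (2 ^ k * η) (c2 θ - b) := by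
      intro k _
      have := ker_nonneg (η := 2 ^ k * η) (by positivity) (c2 θ - b)
      positivity
    have h1 : sn θ ^ 2 * (√((c2 θ - b) ^ 2 + η ^ 2))⁻¹ ≤
        1 + 4 * ∑ k ∈ Finset.range (n + 1), sn θ ^ 2 * ker (2 ^ k * η) (c2 θ - b) := by
      have h2 := mul_le_mul_of_nonneg_left (inv_sqrt_le hη hn1 (c2 θ - b)) (sq_nonneg (sn θ))
      have h3 := sn_sq_le_one θ
      rw [← Finset.mul_sum]
      nlinarith
    calc _ ≤ ENNReal.ofReal (1 + 4 * ∑ k ∈ Finset.range (n + 1),
          sn θ ^ 2 * ker (2 ^ k * η) (c2 θ - b)) := ENNReal.ofReal_le_ofReal h1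
      _ = _ := by
        rw [ENNReal.ofReal_add zero_le_one (by
          have := Finset.sum_nonneg hnn
          positivity), ENNReal.ofReal_mul (by norm_num), ENNReal.ofReal_sum_of_nonneg hnn]
        norm_num
  have hms : ∀ k ∈ Finset.range (n + 1), Measurable fun θ : UnitAddCircle =>
      ENNReal.ofReal (sn θ ^ 2 * ker (2 ^ k * η) (c2 θ - b)) := by
    intro k _
    have := mk k
    fun_prop
  refine (lintegral_mono hpt).trans ?_
  rw [lintegral_add_left measurable_const, lintegral_const_mul _ (Finset.measurable_sum _ hms),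
    lintegral_finsetSum _ hms, lintegral_const, measure_univ, mul_one]
  calc 1 + 4 * ∑ k ∈ Finset.range (n + 1), ∫⁻ θ : UnitAddCircle,
        ENNReal.ofReal (sn θ ^ 2 * ker (2 ^ k * η) (c2 θ - b))
      ≤ 1 + 4 * ∑ k ∈ Finset.range (n + 1), ENNReal.ofReal (π / 2) := by
        gcongr with k _
        exact lintegral_sn_ker (by positivity) b
    _ = ENNReal.ofReal (1 + 4 * (((n + 1 : ℕ) : ℝ) * (π / 2))) := by
        rw [Finset.sum_const, Finset.card_range, nsmul_eq_mul, ENNReal.ofReal_add zero_le_one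
          (by positivity), ENNReal.ofReal_mul (by norm_num), ENNReal.ofReal_mul (by positivity),
          ENNReal.ofReal_natCast]
        norm_num
    _ ≤ _ := by
        apply ENNReal.ofReal_le_ofReal
        push_cast
        have h4 : (n + 1 : ℝ) * (π / 2) ≤ 2 * (1 + Real.log (1 / η)) * (π / 2) :=
          mul_le_mul_of_nonneg_right hn2 (by positivity)
        nlinarith

/-! ### One-dimensional trigonometric polynomials -/

theorem integral_fourier1 (k l : ℤ) :
    ∫ t : UnitAddCircle, conj (fourier k t : ℂ) * fourier l t = if k = l then 1 else 0 := by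
  have h := (orthonormal_iff_ite.mp (orthonormal_fourier (T := (1:ℝ)))) k l
  rw [← h]
  unfold fourierLp
  rw [ContinuousMap.inner_toLp]
  apply integral_congr_ae
  filter_upwards with θ
  ring

theorem integrable_of_cont1 {E : Type*} [NormedAddCommGroup E] {f : UnitAddCircle → E}
    (hf : Continuous f) : Integrable f :=
  hf.integrable_of_hasCompactSupport (HasCompactSupport.of_compactSpace f)

theorem parseval1 (s : Finset ℤ) (c : ℤ → ℂ) :
    ∫ t : UnitAddCircle, ‖∑ k ∈ s, c k * fourier k t‖ ^ 2 = ∑ k ∈ s, ‖c k‖ ^ 2 := by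
  have h0 : ∫ t : UnitAddCircle, conj (∑ k ∈ s, c k * fourier k t) *
      (∑ k ∈ s, c k * fourier k t) = ∑ k ∈ s, conj (c k) * c k := by
    have h1 : ∀ t : UnitAddCircle, conj (∑ k ∈ s, c k * fourier k t) *
        (∑ k ∈ s, c k * fourier k t) =
        ∑ x ∈ s, ∑ y ∈ s, (conj (c x) * c y) * (conj (fourier x t : ℂ) * fourier y t) := by
      intro t
      rw [map_sum, Finset.sum_mul_sum]
      apply Finset.sum_congr rfl
      intro x _
      apply Finset.sum_congr rfl
      intro y _
      rw [map_mul]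
      ring
    have hint : ∀ x y : ℤ, Integrable
        (fun t : UnitAddCircle => (conj (c x) * c y) * (conj (fourier x t : ℂ) * fourier y t)) := by
      intro x y
      apply integrable_of_cont1
      have h2 := (fourier (T := (1:ℝ)) x).continuous
      have h3 := (fourier (T := (1:ℝ)) y).continuous
      fun_prop
    simp only [h1]
    rw [integral_finsetSum _ (fun x _ => integrable_finsetSum _ fun y _ => hint x y)]
    apply Finset.sum_congr rfl
    intro x hx
    rw [integral_finsetSum _ (fun y _ => hint x y), Finset.sum_eq_single x]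
    · rw [integral_const_mul, integral_fourier1, if_pos rfl, mul_one]
    · intro y _ hyx
      rw [integral_const_mul, integral_fourier1, if_neg (Ne.symm hyx), mul_zero]
    · exact fun h => absurd hx h
  have h1 : ∀ z : ℂ, conj z * z = ((‖z‖ ^ 2 : ℝ) : ℂ) := by
    intro z
    rw [mul_comm, Complex.mul_conj, Complex.normSq_eq_norm_sq]
  simp only [h1] at h0
  rw [integral_complex_ofReal, ← Complex.ofReal_sum] at h0
  exact_mod_cast h0

theorem sup_trig1 (s : Finset ℤ) (c : ℤ → ℂ) (t : UnitAddCircle) :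
    ‖∑ k ∈ s, c k * fourier k t‖ ^ 2 ≤
      s.card * ∫ t : UnitAddCircle, ‖∑ k ∈ s, c k * fourier k t‖ ^ 2 := by
  rw [parseval1]
  have h1 : ‖∑ k ∈ s, c k * fourier k t‖ ≤ ∑ k ∈ s, ‖c k‖ := by
    refine (norm_sum_le _ _).trans (Finset.sum_le_sum fun k _ => ?_)
    rw [norm_mul, fourier_apply, Circle.norm_coe, mul_one]
  calc ‖∑ k ∈ s, c k * fourier k t‖ ^ 2 ≤ (∑ k ∈ s, ‖c k‖) ^ 2 :=
        pow_le_pow_left₀ (norm_nonneg _) h1 2
    _ ≤ s.card * ∑ k ∈ s, ‖c k‖ ^ 2 := sq_sum_le_card_mul_sum_sq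

end Pool.Agent.Anderson
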