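import Mathlib

/-!
# Trace inequalities for Hermitian matrices
-/

set_option autoImplicit false

open Matrix
open scoped ComplexConjugate ComplexOrder

noncomputable section

namespace Pool.Agent.Anderson

variable {n : Type*} [Fintype n] [DecidableEq n]

theorem exists_diag {X : Matrix n n ℂ} (hX : X.IsHermitian) :
    ∃ (U : Matrix n n ℂ) (l : n → ℝ), U * Uᴴ = 1 ∧ Uᴴ * U = 1 ∧
      X = U * diagonal (fun i => (l i : ℂ)) * Uᴴ ∧ l = hX.eigenvalues := by
  refine ⟨hX.eigenvectorUnitary, hX.eigenvalues, ?_, ?_, ?_, rfl⟩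
  · exact Unitary.coe_mul_star_self _
  · exact Unitary.coe_star_mul_self _
  · have := hX.spectral_theorem
    rw [Unitary.conjStarAlgAut_apply] at this
    exact this

theorem diag_pow {U : Matrix n n ℂ} {l : n → ℝ} (h2 : Uᴴ * U = 1) (h1 : U * Uᴴ = 1) (q : ℕ) :
    (U * diagonal (fun i => (l i : ℂ)) * Uᴴ) ^ q = U * diagonal (fun i => ((l i ^ q : ℝ) : ℂ)) * Uᴴ := by
  induction q with
  | zero => simp [h1]
  | succ q ih =>
    rw [pow_succ, ih]
    calc U * diagonal (fun i => ((l i ^ q : ℝ) : ℂ)) * Uᴴ * (U * diagonal (fun i => (l i : ℂ)) * Uᴴ)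
        = U * (diagonal (fun i => ((l i ^ q : ℝ) : ℂ)) * (Uᴴ * U) *
            diagonal (fun i => (l i : ℂ))) * Uᴴ := by simp only [Matrix.mul_assoc]
      _ = _ := by
          rw [h2, Matrix.mul_one, diagonal_mul_diagonal]
          congr 3
          ext i
          push_cast
          ring

/-- `Re tr (A X^q A Y^r)` in terms of eigenvalues -/
theorem trace_four {X Y A : Matrix n n ℂ} (hX : X.IsHermitian) (hY : Y.IsHermitian)
    (hA : A.IsHermitian) : ∃ (l m : n → ℝ) (w : n → n → ℝ), (∀ i j, 0 ≤ w i j) ∧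
      ∀ q r : ℕ, (A * X ^ q * A * Y ^ r).trace.re = ∑ i, ∑ j, w i j * (l i ^ q * m j ^ r) := by
  obtain ⟨U, l, hU1, hU2, hXU, -⟩ := exists_diag hX
  obtain ⟨W, m, hW1, hW2, hYW, -⟩ := exists_diag hY
  set M : Matrix n n ℂ := Wᴴ * A * U with hM
  refine ⟨l, m, fun i j => ‖M j i‖ ^ 2, fun i j => by positivity, fun q r => ?_⟩
  have hMH : Mᴴ = Uᴴ * A * W := by
    rw [hM]
    simp only [conjTranspose_mul, conjTranspose_conjTranspose, hA.eq, Matrix.mul_assoc]
  have h1 : (A * X ^ q * A * Y ^ r).trace =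
      (M * diagonal (fun i => ((l i ^ q : ℝ) : ℂ)) * Mᴴ *
        diagonal (fun i => ((m i ^ r : ℝ) : ℂ))).trace := by
    rw [hXU, hYW, diag_pow hU2 hU1, diag_pow hW2 hW1, hMH, hM]
    set L := diagonal (fun i => ((l i ^ q : ℝ) : ℂ))
    set R := diagonal (fun i => ((m i ^ r : ℝ) : ℂ))
    have : A * (U * L * Uᴴ) * A * (W * R * Wᴴ) = (A * U * L * (Uᴴ * A * W) * R) * Wᴴ := by
      simp only [Matrix.mul_assoc]
    rw [this, Matrix.trace_mul_comm]
    simp only [Matrix.mul_assoc]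
  rw [h1, Matrix.trace, Complex.re_sum]
  rw [Finset.sum_comm]
  apply Finset.sum_congr rfl
  intro j _
  rw [Matrix.diag_apply, Matrix.mul_diagonal, Matrix.mul_apply, Finset.sum_mul, Complex.re_sum]
  apply Finset.sum_congr rfl
  intro i _
  rw [Matrix.mul_diagonal, conjTranspose_apply]
  have : M j i * ((l i ^ q : ℝ) : ℂ) * star (M j i) * ((m j ^ r : ℝ) : ℂ) =
      ((‖M j i‖ ^ 2 * (l i ^ q * m j ^ r) : ℝ) : ℂ) := by
    have h2 : M j i * star (M j i) = ((‖M j i‖ ^ 2 : ℝ) : ℂ) := by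
      have := Complex.mul_conj (M j i)
      rw [Complex.normSq_eq_norm_sq] at this
      exact this
    push_cast at h2 ⊢
    linear_combination ((l i : ℂ) ^ q * (m j : ℂ) ^ r) * h2
  rw [this, Complex.ofReal_re]

theorem scalar_pair (a b : ℝ) (m q : ℕ) (hq : q ≤ 2 * m) :
    a ^ q * b ^ (2 * m - q) + a ^ (2 * m - q) * b ^ q ≤ a ^ (2 * m) + b ^ (2 * m) := by
  have h1 : a ^ q * b ^ (2 * m - q) ≤ |a| ^ q * |b| ^ (2 * m - q) := by
    rw [← abs_pow, ← abs_pow, ← abs_mul]; exact le_abs_self _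
  have h2 : a ^ (2 * m - q) * b ^ q ≤ |a| ^ (2 * m - q) * |b| ^ q := by
    rw [← abs_pow, ← abs_pow, ← abs_mul]; exact le_abs_self _
  have e1 : a ^ (2 * m) = |a| ^ q * |a| ^ (2 * m - q) := by
    rw [← pow_add, Nat.add_sub_cancel' hq, (even_two_mul m).pow_abs]
  have e2 : b ^ (2 * m) = |b| ^ q * |b| ^ (2 * m - q) := by
    rw [← pow_add, Nat.add_sub_cancel' hq, (even_two_mul m).pow_abs]
  rw [e1, e2]
  have h3 : 0 ≤ (|a| ^ q - |b| ^ q) * (|a| ^ (2 * m - q) - |b| ^ (2 * m - q)) := by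
    rcases le_total |a| |b| with h | h
    · apply mul_nonneg_of_nonpos_of_nonpos
      · exact sub_nonpos.2 (pow_le_pow_left₀ (abs_nonneg _) h _)
      · exact sub_nonpos.2 (pow_le_pow_left₀ (abs_nonneg _) h _)
    · apply mul_nonneg
      · exact sub_nonneg.2 (pow_le_pow_left₀ (abs_nonneg _) h _)
      · exact sub_nonneg.2 (pow_le_pow_left₀ (abs_nonneg _) h _)
  nlinarith

theorem scalar_sum (a b : ℝ) (m : ℕ) :
    2 * ∑ q ∈ Finset.range (2 * m + 1), a ^ q * b ^ (2 * m - q) ≤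
      (2 * m + 1) * (a ^ (2 * m) + b ^ (2 * m)) := by
  have h1 : ∑ q ∈ Finset.range (2 * m + 1), a ^ q * b ^ (2 * m - q) =
      ∑ q ∈ Finset.range (2 * m + 1), a ^ (2 * m - q) * b ^ q := by
    rw [← Finset.sum_range_reflect]
    apply Finset.sum_congr rfl
    intro q hq
    have : q ≤ 2 * m := by simpa [Nat.lt_succ_iff] using hq
    rw [show 2 * m + 1 - 1 - q = 2 * m - q by omega, show 2 * m - (2 * m - q) = q by omega]
  have h2 : 2 * ∑ q ∈ Finset.range (2 * m + 1), a ^ q * b ^ (2 * m - q) =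
      ∑ q ∈ Finset.range (2 * m + 1),
        (a ^ q * b ^ (2 * m - q) + a ^ (2 * m - q) * b ^ q) := by
    rw [Finset.sum_add_distrib, ← h1, two_mul]
  rw [h2]
  calc _ ≤ ∑ q ∈ Finset.range (2 * m + 1), (a ^ (2 * m) + b ^ (2 * m)) := by
        apply Finset.sum_le_sum
        intro q hq
        exact scalar_pair a b m q (by simpa [Nat.lt_succ_iff] using hq)
    _ = _ := by
        rw [Finset.sum_const, Finset.card_range, nsmul_eq_mul]
        push_cast
        ring

theorem trace_sum_le {X Y A : Matrix n n ℂ} (hX : X.IsHermitian) (hY : Y.IsHermitian)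
    (hA : A.IsHermitian) (m : ℕ) :
    2 * ∑ q ∈ Finset.range (2 * m + 1), (A * X ^ q * A * Y ^ (2 * m - q)).trace.re ≤
      (2 * m + 1) * ((A * A * X ^ (2 * m)).trace.re + (A * A * Y ^ (2 * m)).trace.re) := by
  obtain ⟨l, mu, w, hw, h⟩ := trace_four hX hY hA
  have e1 : (A * A * X ^ (2 * m)).trace.re = ∑ i, ∑ j, w i j * (l i ^ (2 * m) * mu j ^ 0) := by
    rw [← h (2 * m) 0, pow_zero, Matrix.mul_one, Matrix.mul_assoc A A, Matrix.trace_mul_comm A]
  have e2 : (A * A * Y ^ (2 * m)).trace.re = ∑ i, ∑ j, w i j * (l i ^ 0 * mu j ^ (2 * m)) := by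
    rw [← h 0 (2 * m), pow_zero, Matrix.mul_one]
  rw [e1, e2]
  simp only [h, pow_zero, mul_one, one_mul]
  rw [Finset.sum_comm, Finset.mul_sum, ← Finset.sum_add_distrib, Finset.mul_sum]
  apply Finset.sum_le_sum
  intro i _
  rw [Finset.sum_comm, Finset.mul_sum, ← Finset.sum_add_distrib, Finset.mul_sum]
  apply Finset.sum_le_sum
  intro j _
  rw [← Finset.mul_sum]
  have := mul_le_mul_of_nonneg_left (scalar_sum (l i) (mu j) m) (hw i j)
  nlinarith

/-- difference of powers -/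
theorem pow_sub_pow_nc (X Y : Matrix n n ℂ) (k : ℕ) :
    X ^ k - Y ^ k = ∑ q ∈ Finset.range k, X ^ q * (X - Y) * Y ^ (k - 1 - q) := by
  induction k with
  | zero => simp
  | succ k ih =>
    rw [Finset.sum_range_succ]
    have h1 : ∑ q ∈ Finset.range k, X ^ q * (X - Y) * Y ^ (k + 1 - 1 - q) =
        (X ^ k - Y ^ k) * Y := by
      rw [ih, Finset.sum_mul]
      apply Finset.sum_congr rfl
      intro q hq
      have : q < k := Finset.mem_range.1 hq
      rw [show k + 1 - 1 - q = (k - 1 - q) + 1 by omega, pow_succ, ← Matrix.mul_assoc]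
    rw [h1, show k + 1 - 1 - k = 0 by omega, pow_zero, Matrix.mul_one, pow_succ, pow_succ,
      Matrix.sub_mul, Matrix.mul_sub]
    abel

end Pool.Agent.Anderson
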