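import Pool.Agent.Helper17_Anderson.Ball

/-!
# Two-dimensional slices
-/

set_option autoImplicit false

open MeasureTheory Set Real Function Matrix

open scoped ENNReal ComplexConjugate ComplexOrder

noncomputable section

namespace Pool.Agent.Anderson

local instance haarMS12 : MeasureSpace UnitAddCircle := ⟨AddCircle.haarAddCircle⟩

local instance haarAHTwo : Measure.IsAddHaarMeasure (volume : Measure UnitAddCircle) :=
  inferInstanceAs (Measure.IsAddHaarMeasure AddCircle.haarAddCircle)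

local instance haarPMTwo : IsProbabilityMeasure (volume : Measure UnitAddCircle) :=
  inferInstanceAs (IsProbabilityMeasure AddCircle.haarAddCircle)

variable {d : ℕ}

theorem quad_lower (c : ℝ) : ∃ a b : ℂ, ‖a‖ = 1 ∧ ‖b‖ = 1 ∧ ∀ θ,
    ‖u θ - a‖ ^ 2 ≤ |c2 θ - c| ∨ ‖u θ - b‖ ^ 2 ≤ |c2 θ - c| := by
  rcases le_or_gt |c| 2 with h | h
  · obtain ⟨a, ha, hac, -⟩ := exists_a h
    refine ⟨a, conj a, ha, by rw [Complex.norm_conj, ha], fun θ => ?_⟩
    rw [c2_sub_eq ha hac θ]
    have n1 := norm_nonneg (u θ - a)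
    have n2 := norm_nonneg (u θ - conj a)
    rcases le_total ‖u θ - a‖ ‖u θ - conj a‖ with h3 | h3
    · left; nlinarith
    · right; nlinarith
  · rcases lt_abs.1 h with h | h
    · refine ⟨1, 1, by simp, by simp, fun θ => Or.inl ?_⟩
      have h2 := abs_le.1 (abs_c2_le' θ)
      rw [norm_sub_one_sq, abs_of_nonpos (by linarith)]
      linarith
    · refine ⟨-1, -1, by simp, by simp, fun θ => Or.inl ?_⟩
      have h2 := abs_le.1 (abs_c2_le' θ)
      rw [norm_add_one_sq, abs_of_nonneg (by linarith)]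
      linarith

theorem ker_sq_le {η : ℝ} (hη : 0 < η) (r : ℝ) :
    ker η (r ^ 2) ≤ 2 / √η * ker (√η) r := by
  have hs : 0 < √η := Real.sqrt_pos.2 hη
  have hsq : √η ^ 2 = η := Real.sq_sqrt hη.le
  unfold ker
  rw [div_mul_div_comm, hsq, mul_comm (√η) (r ^ 2 + η), mul_div_mul_right _ _ hs.ne',
    div_le_div_iff₀ (by positivity) (by positivity)]
  have h1 : (r ^ 2 + η) ^ 2 ≤ 2 * ((r ^ 2) ^ 2 + η ^ 2) := by nlinarith [sq_nonneg (r ^ 2 - η)]
  have h2 : η * (r ^ 2 + η) ≤ (r ^ 2 + η) ^ 2 := by nlinarith [sq_nonneg r, sq_nonneg (r ^ 2)]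
  linarith

theorem lintegral_ker_sqrt {η : ℝ} (hη : 0 < η) (c : ℝ) :
    ∫⁻ θ : UnitAddCircle, ENNReal.ofReal (ker η (c2 θ - c)) ≤ ENNReal.ofReal (π / √η) := by
  obtain ⟨a, b, ha, hb, hab⟩ := quad_lower c
  have hs : 0 < √η := Real.sqrt_pos.2 hη
  have hpi := Real.pi_pos
  have hK : ∀ a : ℂ, ‖a‖ = 1 → ∫⁻ θ : UnitAddCircle, ENNReal.ofReal (2 / √η * ker (√η) ‖u θ - a‖) ≤
      ENNReal.ofReal (2 / √η * (π / 4)) := by
    intro a ha
    have h1 := lintegral_ker_circle hs zero_lt_one ha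
    simp only [one_mul] at h1
    have mk := (continuous_ker hs).measurable
    have mu := measurable_u
    have h2 : ∀ θ : UnitAddCircle, ENNReal.ofReal (2 / √η * ker (√η) ‖u θ - a‖) =
        ENNReal.ofReal (2 / √η) * ENNReal.ofReal (ker (√η) ‖u θ - a‖) := fun θ =>
      ENNReal.ofReal_mul (by positivity)
    simp only [h2]
    rw [lintegral_const_mul _ (by fun_prop), ENNReal.ofReal_mul (by positivity)]
    gcongr
    simpa using h1
  have hpt : ∀ θ, ENNReal.ofReal (ker η (c2 θ - c)) ≤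
      ENNReal.ofReal (2 / √η * ker (√η) ‖u θ - a‖) +
      ENNReal.ofReal (2 / √η * ker (√η) ‖u θ - b‖) := by
    intro θ
    rw [← ker_abs]
    rcases hab θ with h | h
    · refine le_add_right (ENNReal.ofReal_le_ofReal ?_)
      exact (ker_anti hη (by positivity) h).trans (ker_sq_le hη _)
    · refine le_add_left (ENNReal.ofReal_le_ofReal ?_)
      exact (ker_anti hη (by positivity) h).trans (ker_sq_le hη _)
  refine (lintegral_mono hpt).trans ?_
  have mk := (continuous_ker hs).measurable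
  have mu := measurable_u
  rw [lintegral_add_left (by fun_prop)]
  refine (add_le_add (hK a ha) (hK b hb)).trans (le_of_eq ?_)
  rw [← ENNReal.ofReal_add (by positivity) (by positivity)]
  congr 1
  field_simp
  ring

/-- regularised inverse square root -/
def Wm (η x : ℝ) : ℝ≥0∞ := ENNReal.ofReal (1 / √(max |x| η))

theorem measurable_Wm (η : ℝ) : Measurable (Wm η) := by
  unfold Wm
  fun_prop

theorem Wm_of_le {η x : ℝ} (h : |x| ≤ η) : Wm η x = ENNReal.ofReal (1 / √η) := by
  unfold Wm; rw [max_eq_right h]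

theorem Wm_of_ge {η x : ℝ} (hη : 0 < η) (h : η ≤ |x|) : Wm η x = W (1/2) x := by
  have hx : 0 < |x| := lt_of_lt_of_le hη h
  unfold Wm W
  rw [max_eq_left h, ENNReal.ofReal_rpow_of_pos hx, Real.rpow_neg hx.le, ← Real.sqrt_eq_rpow,
    one_div]

theorem lintegral_P2 {η : ℝ} (hη : 0 < η) (c : ℝ) :
    ∫⁻ θ : UnitAddCircle, ENNReal.ofReal (ker η (c2 θ - c)) ≤
      ENNReal.ofReal π * (Wm η (c - 2) + Wm η (c + 2)) := by
  have h1 := lintegral_ker_sqrt hη c
  have hpi := Real.pi_pos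
  have h2 : ENNReal.ofReal (π / √η) = ENNReal.ofReal π * ENNReal.ofReal (1 / √η) := by
    rw [← ENNReal.ofReal_mul hpi.le]
    congr 1; ring
  rcases le_total |c - 2| η with h | h
  · rw [Wm_of_le h]
    refine h1.trans ?_
    rw [h2]
    gcongr
    exact le_add_right le_rfl
  rcases le_total |c + 2| η with h' | h'
  · rw [Wm_of_le h']
    refine h1.trans ?_
    rw [h2]
    gcongr
    exact le_add_left le_rfl
  rw [Wm_of_ge hη h, Wm_of_ge hη h']
  exact lintegral_P hη c

/-- number of dyadic scales -/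
theorem dyadic {η : ℝ} (hη : 0 < η) (hη1 : η ≤ 1) :
    ∃ n : ℕ, 1 ≤ 2 ^ n * η ∧ (n : ℝ) + 1 ≤ 2 * (1 + Real.log (1 / η)) := by
  refine ⟨⌈Real.logb 2 (1 / η)⌉₊, ?_, ?_⟩
  · have h1 : Real.logb 2 (1 / η) ≤ ⌈Real.logb 2 (1 / η)⌉₊ := Nat.le_ceil _
    have h2 : (1 / η) ≤ (2:ℝ) ^ ((⌈Real.logb 2 (1 / η)⌉₊ : ℕ) : ℝ) := by
      rw [← Real.logb_le_iff_le_rpow (by norm_num) (by positivity)]
      exact h1
    rw [Real.rpow_natCast] at h2
    rw [div_le_iff₀ hη] at h2
    exact h2
  · have h1 : ((⌈Real.logb 2 (1 / η)⌉₊ : ℕ) : ℝ) < Real.logb 2 (1 / η) + 1 := by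
      apply Nat.ceil_lt_add_one
      exact Real.logb_nonneg (by norm_num) (by rw [le_div_iff₀ hη]; linarith)
    have h2 : Real.logb 2 (1 / η) ≤ 2 * Real.log (1 / η) := by
      have hl0 : 0 ≤ Real.log (1 / η) := Real.log_nonneg (by
        rw [le_div_iff₀ hη]; linarith)
      unfold Real.logb
      rw [div_le_iff₀ (Real.log_pos (by norm_num))]
      have := Real.log_two_gt_d9
      nlinarith
    linarith

theorem lintegral_inv_circle {η : ℝ} (hη : 0 < η) (hη1 : η ≤ 1) {a : ℂ} (ha : ‖a‖ = 1) :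
    ∫⁻ θ : UnitAddCircle, ENNReal.ofReal ((√(‖u θ - a‖ ^ 2 + η ^ 2))⁻¹) ≤
      ENNReal.ofReal ((1 + 2 * π) * (1 + Real.log (1 / η))) := by
  have hpi := Real.pi_pos
  obtain ⟨n, hn1, hn2⟩ := dyadic hη hη1
  have hl0 : 0 ≤ Real.log (1 / η) := Real.log_nonneg (by
    rw [le_div_iff₀ hη]; linarith)
  have mk : ∀ k : ℕ, Measurable (ker (2 ^ k * η)) := fun k =>
    (continuous_ker (η := 2 ^ k * η) (by positivity)).measurable
  have mu := measurable_u
  have hpt : ∀ θ : UnitAddCircle, ENNReal.ofReal ((√(‖u θ - a‖ ^ 2 + η ^ 2))⁻¹) ≤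
      1 + 4 * ∑ k ∈ Finset.range (n + 1), ENNReal.ofReal (ker (2 ^ k * η) ‖u θ - a‖) := by
    intro θ
    have hnn : ∀ k ∈ Finset.range (n + 1), 0 ≤ ker (2 ^ k * η) ‖u θ - a‖ := fun k _ =>
      ker_nonneg (by positivity) _
    refine (ENNReal.ofReal_le_ofReal (inv_sqrt_le hη hn1 ‖u θ - a‖)).trans (le_of_eq ?_)
    rw [ENNReal.ofReal_add zero_le_one (by
      have := Finset.sum_nonneg hnn
      positivity), ENNReal.ofReal_mul (by norm_num), ENNReal.ofReal_sum_of_nonneg hnn]
    norm_num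
  have hms : ∀ k ∈ Finset.range (n + 1), Measurable fun θ : UnitAddCircle =>
      ENNReal.ofReal (ker (2 ^ k * η) ‖u θ - a‖) := by
    intro k _
    have := mk k
    fun_prop
  refine (lintegral_mono hpt).trans ?_
  rw [lintegral_add_left measurable_const, lintegral_const_mul _ (Finset.measurable_sum _ hms),
    lintegral_finsetSum _ hms, lintegral_const, measure_univ, mul_one]
  calc 1 + 4 * ∑ k ∈ Finset.range (n + 1), ∫⁻ θ : UnitAddCircle,
        ENNReal.ofReal (ker (2 ^ k * η) ‖u θ - a‖)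
      ≤ 1 + 4 * ∑ k ∈ Finset.range (n + 1), ENNReal.ofReal (π / 4) := by
        gcongr with k _
        have h1 := lintegral_ker_circle (η := 2 ^ k * η) (by positivity) zero_lt_one ha
        simpa using h1
    _ = ENNReal.ofReal (1 + 4 * (((n + 1 : ℕ) : ℝ) * (π / 4))) := by
        rw [Finset.sum_const, Finset.card_range, nsmul_eq_mul, ENNReal.ofReal_add zero_le_one
          (by positivity), ENNReal.ofReal_mul (by norm_num), ENNReal.ofReal_mul (by positivity),
          ENNReal.ofReal_natCast]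
        norm_num
    _ ≤ _ := by
        apply ENNReal.ofReal_le_ofReal
        push_cast
        have h4 : (n + 1 : ℝ) * (π / 4) ≤ 2 * (1 + Real.log (1 / η)) * (π / 4) :=
          mul_le_mul_of_nonneg_right hn2 (by positivity)
        nlinarith

theorem lintegral_Wm {η : ℝ} (hη : 0 < η) (hη1 : η ≤ 1) (b : ℝ) :
    ∫⁻ θ : UnitAddCircle, Wm η (b - c2 θ) ≤
      ENNReal.ofReal (4 * (1 + 2 * π) * (1 + Real.log (1 / η))) := by
  obtain ⟨a, a', ha, ha', hab⟩ := quad_lower b
  have hs : 0 < √η := Real.sqrt_pos.2 hη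
  have hs1 : √η ≤ 1 := Real.sqrt_le_one.2 hη1
  have hsq : √η ^ 2 = η := Real.sq_sqrt hη.le
  have hpi := Real.pi_pos
  have hl0 : 0 ≤ Real.log (1 / η) := Real.log_nonneg (by
    rw [le_div_iff₀ hη]; linarith)
  have hlog : Real.log (1 / √η) ≤ Real.log (1 / η) := by
    apply Real.log_le_log (by positivity)
    apply one_div_le_one_div_of_le hη
    nlinarith
  have hK : ∀ a : ℂ, ‖a‖ = 1 →
      ∫⁻ θ : UnitAddCircle, ENNReal.ofReal (2 * (√(‖u θ - a‖ ^ 2 + √η ^ 2))⁻¹) ≤
      ENNReal.ofReal (2 * ((1 + 2 * π) * (1 + Real.log (1 / η)))) := by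
    intro a ha
    have h1 := lintegral_inv_circle hs hs1 ha
    have mu := measurable_u
    have h2 : ∀ θ : UnitAddCircle, ENNReal.ofReal (2 * (√(‖u θ - a‖ ^ 2 + √η ^ 2))⁻¹) =
        ENNReal.ofReal 2 * ENNReal.ofReal ((√(‖u θ - a‖ ^ 2 + √η ^ 2))⁻¹) := fun θ =>
      ENNReal.ofReal_mul (by positivity)
    simp only [h2]
    rw [lintegral_const_mul _ (by fun_prop), ENNReal.ofReal_mul (by positivity)]
    gcongr
    refine h1.trans (ENNReal.ofReal_le_ofReal ?_)
    apply mul_le_mul_of_nonneg_left _ (by positivity)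
    linarith
  have haux : ∀ (r t : ℝ), 0 ≤ r → r ^ 2 ≤ |t| →
      1 / √(max |t| η) ≤ 2 * (√(r ^ 2 + √η ^ 2))⁻¹ := by
    intro r t hr h
    rw [hsq, one_div]
    have h1 : (r ^ 2 + η) / 4 ≤ max |t| η := by
      rcases le_total |t| η with h2 | h2
      · rw [max_eq_right h2]; linarith
      · rw [max_eq_left h2]; nlinarith [abs_nonneg t]
    have h2 : √(r ^ 2 + η) / 2 ≤ √(max |t| η) := by
      apply Real.le_sqrt_of_sq_le
      rw [div_pow, Real.sq_sqrt (by positivity)]
      linarith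
    have h3 : 0 < √(r ^ 2 + η) := Real.sqrt_pos.2 (by positivity)
    have h4 := inv_anti₀ (by positivity) h2
    refine h4.trans (le_of_eq ?_)
    field_simp
  have hpt : ∀ θ, Wm η (b - c2 θ) ≤
      ENNReal.ofReal (2 * (√(‖u θ - a‖ ^ 2 + √η ^ 2))⁻¹) +
      ENNReal.ofReal (2 * (√(‖u θ - a'‖ ^ 2 + √η ^ 2))⁻¹) := by
    intro θ
    unfold Wm
    rw [abs_sub_comm]
    rcases hab θ with h | h
    · exact le_add_right (ENNReal.ofReal_le_ofReal (haux _ _ (norm_nonneg _) h))
    · exact le_add_left (ENNReal.ofReal_le_ofReal (haux _ _ (norm_nonneg _) h))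
  refine (lintegral_mono hpt).trans ?_
  have mu := measurable_u
  rw [lintegral_add_left (by fun_prop)]
  refine (add_le_add (hK a ha) (hK a' ha')).trans (le_of_eq ?_)
  rw [← ENNReal.ofReal_add (by positivity) (by positivity)]
  congr 1
  ring

/-- two-dimensional density of states, smoothed at scale `η` -/
theorem lintegral_two {η : ℝ} (hη : 0 < η) (hη1 : η ≤ 1) (b : ℝ) :
    ∫⁻ t : UnitAddCircle, ∫⁻ s : UnitAddCircle, ENNReal.ofReal (ker η (c2 s + c2 t - b)) ≤
      ENNReal.ofReal (8 * π * (1 + 2 * π) * (1 + Real.log (1 / η))) := by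
  have hpi := Real.pi_pos
  have hl0 : 0 ≤ Real.log (1 / η) := Real.log_nonneg (by
    rw [le_div_iff₀ hη]; linarith)
  have h1 : ∀ t : UnitAddCircle, ∫⁻ s : UnitAddCircle, ENNReal.ofReal (ker η (c2 s + c2 t - b)) ≤
      ENNReal.ofReal π * (Wm η (b - 2 - c2 t) + Wm η (b + 2 - c2 t)) := by
    intro t
    have h2 := lintegral_P2 hη (b - c2 t)
    rw [show b - c2 t - 2 = b - 2 - c2 t by ring, show b - c2 t + 2 = b + 2 - c2 t by ring] at h2
    refine le_trans (le_of_eq ?_) h2
    apply lintegral_congr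
    intro s
    congr 2
    ring
  refine (lintegral_mono h1).trans ?_
  have mW := measurable_Wm η
  have mc := measurable_c2
  rw [lintegral_const_mul _ (by fun_prop), lintegral_add_left (by fun_prop)]
  calc ENNReal.ofReal π * ((∫⁻ t : UnitAddCircle, Wm η (b - 2 - c2 t)) +
        ∫⁻ t : UnitAddCircle, Wm η (b + 2 - c2 t))
      ≤ ENNReal.ofReal π * (ENNReal.ofReal (4 * (1 + 2 * π) * (1 + Real.log (1 / η))) +
        ENNReal.ofReal (4 * (1 + 2 * π) * (1 + Real.log (1 / η)))) := by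
        gcongr
        · exact lintegral_Wm hη hη1 _
        · exact lintegral_Wm hη hη1 _
    _ = _ := by
        rw [← ENNReal.ofReal_add (by positivity) (by positivity), ← ENNReal.ofReal_mul hpi.le]
        congr 1
        ring

/-- constant -/
def c2d : ℝ := 8 * π * (1 + 2 * π)

theorem c2d_ge : 1 ≤ c2d := by
  unfold c2d
  have := Real.pi_gt_three
  nlinarith

theorem lintegral_two_inv {η : ℝ} (hη : 0 < η) (hη1 : η ≤ 1) (b : ℝ) :
    ∫⁻ t : UnitAddCircle, ∫⁻ s : UnitAddCircle,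
      ENNReal.ofReal ((√((c2 s + c2 t - b) ^ 2 + η ^ 2))⁻¹) ≤
      ENNReal.ofReal ((1 + 8 * c2d) * (1 + Real.log (1 / η)) ^ 2) := by
  have hpi := Real.pi_pos
  have hc := c2d_ge
  obtain ⟨n, hn1, hn2⟩ := dyadic hη hη1
  have hl0 : 0 ≤ Real.log (1 / η) := Real.log_nonneg (by
    rw [le_div_iff₀ hη]; linarith)
  set l : ℝ := 1 + Real.log (1 / η) with hl
  have hl1 : 1 ≤ l := by rw [hl]; linarith
  have mk : ∀ k : ℕ, Measurable (ker (2 ^ k * η)) := fun k =>
    (continuous_ker (η := 2 ^ k * η) (by positivity)).measurable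
  have mc := measurable_c2
  have hpt : ∀ t s : UnitAddCircle, ENNReal.ofReal ((√((c2 s + c2 t - b) ^ 2 + η ^ 2))⁻¹) ≤
      1 + 4 * ∑ k ∈ Finset.range (n + 1),
        ENNReal.ofReal (ker (2 ^ k * η) (c2 s + c2 t - b)) := by
    intro t s
    have hnn : ∀ k ∈ Finset.range (n + 1), 0 ≤ ker (2 ^ k * η) (c2 s + c2 t - b) := fun k _ =>
      ker_nonneg (by positivity) _
    refine (ENNReal.ofReal_le_ofReal (inv_sqrt_le hη hn1 (c2 s + c2 t - b))).trans (le_of_eq ?_)
    rw [ENNReal.ofReal_add zero_le_one (by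
      have := Finset.sum_nonneg hnn
      positivity), ENNReal.ofReal_mul (by norm_num), ENNReal.ofReal_sum_of_nonneg hnn]
    norm_num
  have hms : ∀ t : UnitAddCircle, ∀ k ∈ Finset.range (n + 1), Measurable fun s : UnitAddCircle =>
      ENNReal.ofReal (ker (2 ^ k * η) (c2 s + c2 t - b)) := by
    intro t k _
    have := mk k
    fun_prop
  have hmt : ∀ k ∈ Finset.range (n + 1), Measurable fun t : UnitAddCircle =>
      ∫⁻ s : UnitAddCircle, ENNReal.ofReal (ker (2 ^ k * η) (c2 s + c2 t - b)) := by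
    intro k _
    apply Measurable.lintegral_prod_right'
      (f := fun q : UnitAddCircle × UnitAddCircle =>
        ENNReal.ofReal (ker (2 ^ k * η) (c2 q.2 + c2 q.1 - b)))
    have := mk k
    fun_prop
  have hin : ∀ t : UnitAddCircle, ∫⁻ s : UnitAddCircle,
      ENNReal.ofReal ((√((c2 s + c2 t - b) ^ 2 + η ^ 2))⁻¹) ≤
      1 + 4 * ∑ k ∈ Finset.range (n + 1), ∫⁻ s : UnitAddCircle,
        ENNReal.ofReal (ker (2 ^ k * η) (c2 s + c2 t - b)) := by
    intro t
    refine (lintegral_mono (hpt t)).trans (le_of_eq ?_)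
    rw [lintegral_add_left measurable_const,
      lintegral_const_mul _ (Finset.measurable_sum _ (hms t)),
      lintegral_finsetSum _ (hms t), lintegral_const, measure_univ, mul_one]
  refine (lintegral_mono hin).trans ?_
  rw [lintegral_add_left measurable_const, lintegral_const_mul _ (Finset.measurable_sum _ hmt),
    lintegral_finsetSum _ hmt, lintegral_const, measure_univ, mul_one]
  have hk : ∀ k ∈ Finset.range (n + 1), ∫⁻ t : UnitAddCircle, ∫⁻ s : UnitAddCircle,
      ENNReal.ofReal (ker (2 ^ k * η) (c2 s + c2 t - b)) ≤ ENNReal.ofReal (c2d * l) := by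
    intro k _
    have hp : 0 < 2 ^ k * η := by positivity
    have h2k : (1:ℝ) ≤ 2 ^ k := one_le_pow₀ (by norm_num)
    rcases le_or_gt (2 ^ k * η) 1 with h | h
    · refine (lintegral_two hp h b).trans (ENNReal.ofReal_le_ofReal ?_)
      unfold c2d
      apply mul_le_mul_of_nonneg_left _ (by positivity)
      rw [hl]
      have : Real.log (1 / (2 ^ k * η)) ≤ Real.log (1 / η) := by
        apply Real.log_le_log (by positivity)
        apply one_div_le_one_div_of_le hη
        nlinarith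
      linarith
    · have h1 : ∀ t s : UnitAddCircle, ENNReal.ofReal (ker (2 ^ k * η) (c2 s + c2 t - b)) ≤ 1 := by
        intro t s
        rw [show (1:ℝ≥0∞) = ENNReal.ofReal 1 by simp]
        apply ENNReal.ofReal_le_ofReal
        unfold ker
        rw [div_le_one (by positivity)]
        nlinarith [sq_nonneg (c2 s + c2 t - b)]
      calc ∫⁻ t : UnitAddCircle, ∫⁻ s : UnitAddCircle,
          ENNReal.ofReal (ker (2 ^ k * η) (c2 s + c2 t - b))
          ≤ ∫⁻ _ : UnitAddCircle, ∫⁻ _ : UnitAddCircle, (1 : ℝ≥0∞) :=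
            lintegral_mono fun t => lintegral_mono fun s => h1 t s
        _ = 1 := by simp
        _ ≤ _ := by
            rw [show (1:ℝ≥0∞) = ENNReal.ofReal 1 by simp]
            apply ENNReal.ofReal_le_ofReal
            nlinarith
  calc 1 + 4 * ∑ k ∈ Finset.range (n + 1), ∫⁻ t : UnitAddCircle, ∫⁻ s : UnitAddCircle,
        ENNReal.ofReal (ker (2 ^ k * η) (c2 s + c2 t - b))
      ≤ 1 + 4 * ∑ k ∈ Finset.range (n + 1), ENNReal.ofReal (c2d * l) := by
        gcongr with k hk'
        exact hk k hk'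
    _ = ENNReal.ofReal (1 + 4 * (((n + 1 : ℕ) : ℝ) * (c2d * l))) := by
        have hz0 : 0 ≤ c2d * l := mul_nonneg (by linarith) (by linarith)
        have e1 : ((n + 1 : ℕ) : ℝ≥0∞) * ENNReal.ofReal (c2d * l) =
            ENNReal.ofReal (((n + 1 : ℕ) : ℝ) * (c2d * l)) := by
          rw [ENNReal.ofReal_mul (p := ((n + 1 : ℕ) : ℝ)) (by positivity), ENNReal.ofReal_natCast]
        rw [Finset.sum_const, Finset.card_range, nsmul_eq_mul, e1,
          ENNReal.ofReal_add zero_le_one (by positivity),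
          ENNReal.ofReal_mul (p := (4:ℝ)) (by norm_num)]
        norm_num
    _ ≤ _ := by
        apply ENNReal.ofReal_le_ofReal
        push_cast
        have h4 : (n + 1 : ℝ) * (c2d * l) ≤ 2 * l * (c2d * l) :=
          mul_le_mul_of_nonneg_right hn2 (mul_nonneg (by linarith) (by linarith))
        nlinarith

end Pool.Agent.Anderson
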